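import Pool.Agent.MP_f1fec5_al.Sig.Code
import Pool.Agent.MP_f1fec5_al.Replace
import Pool.Agent.MP_f1fec5_al.Pol.Pt
import Pool.Agent.MP_f1fec5_al.Pol.Val
import Pool.Agent.MP_f1fec5_al.Aff.Fld
import Pool.Agent.MP_f1fec5_al.Aff.Loc

attribute [-instance] ContinuousSemilinearMapClass.toSemilinearMapClass
  IsAffineAddMonoid.toIsCancelAdd SMulZeroClass.toSMul
  OreLocalization.instAddCommMonoidOreLocalization MonTypeEquivalenceMon.monMonoid littleWedderburn
  RingHomClass.toLinearMapClassNNRat CoalgHomClass.toSemilinearMapClass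
  instNonUnitalAlgHomClassOfNonUnitalAlgEquivClass RingHomClass.toLinearMapClassRat
  Module.instIsReflexiveOfFiniteOfProjective SubmoduleClass.module RKHS.instFunLike
  instCharZeroOfIsSemireal SemilinearIsometryClass.toSemilinearMapClass
  NonUnitalAlgHomClass.instSemilinearMapClassOfNonUnitalAlgSemiHomClassToMonoidHomRingHom
  IsDedekindDomain.isPrincipalIdealRing LieRinehartAlgebra.toIsScalarTower
  Valuation.instNontrivialSubtypeUnitsMemSubgroupValueGroupOfClassOfIsNontrivial Module.Flat.of_free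
  instIsPrincipalIdealRingOfIsSemisimpleRing AddQuantale.instAddRightMono
  NonUnitalAlgHomClass.toNonUnitalRingHomClass BialgEquivClass.toBialgHomClass
  SetLike.GradeZero.instCommRing HahnSeries.instDistribMulAction SubalgebraClass.toAlgebra
  SetLike.GradeZero.instSemiring AlgHomClass.linearMapClass EuclideanDomain.toCommRing
  Module.Flat.of_projective Subfield.instIsScalarTowerSubtypeMem NormedField.toField
  RingConeClass.toSubsemiringClass SetLike.GradeZero.instCommSemiring instIsFractionRing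
  OreLocalization.instAddGroupOreLocalization BialgHomClass.toAlgHomClass
  KleeneAlgebra.toIdemSemiring FloorSemiring.instCharZero Algebra.WeaklyEtale.flat
  GradedMonoid.GradeZero.smul SemilinearEquivClass.instSemilinearMapClass WithZero.instDistrib
  IdemCommSemiring.toIdemSemiring MulSemiringActionSemiHomClass.toDistribMulActionSemiHomClass
  Fintype.decidableForallFintype GrpTypeEquivalenceGrp.grpGroup Quantale.instMulLeftMono
  ContinuousMonoidHom.instCoeOutOfMonoidHomClassOfContinuousMapClass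
  Subfield.instDistribMulActionSubtypeMem Quantale.instMulRightMono
  CommMonTypeEquivalenceCommMon.commMonCommMonoid Order.Coframe.toCompleteLattice
  WithZero.instSemiring WithZero.instAddCommMonoid instNontrivialOfCharZero
  IsPrincipalIdealRing.of_isNoetherianRing_of_isBezout MulCharClass.toMonoidHomClass
  BialgHomClass.toMonoidHomClass CompletelyDistribLattice.toCompleteLattice instCoeTCOfCoe
  MulDistribMulActionSemiHomClass.toMonoidHomClass LieAlgebra.toModule Fintype.decidableExistsFintype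
  BooleanRing.toRing CentroidHomClass.toAddMonoidHomClass OmegaCompletePartialOrder.toPartialOrder
  RightPreLieAlgebra.toModule NormedRing.toRing NormedCommRing.toCommRing
  TestFunctionClass.toDFunLike ESeminormedAddCommMonoid.toAddCommMonoid
  RingEquivClass.toNonUnitalRingHomClass instCoeTOfCoeDep RCLike.charZero_rclike
  AddGroupConeClass.toAddSubmonoidClass LieAdmissibleRing.toNonUnitalNonAssocRing
  ContDiffMapSupportedInClass.toDFunLike IsPurelyInseparable.isIntegral Prod.instAddCommMonoid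
  LeftPreLieAlgebra.toModule NonUnitalRing.toNonUnitalNonAssocRing NumberField.to_charZero
  Order.Frame.toCompleteLattice RingHomInvPair.triples₂ GeneralizedCoheytingAlgebra.toLattice
  NormedAlgebra.toAlgebra Group.IsPerfect.subsingleton_of_isMulCommutative
  IsometryClass.instCoeOutIsometryEquiv Polynomial.instCharP EquivLike.toFunLike
  DivisionSemiring.to_moduleIsTorsionFree instZeroLEOneClass SeminormedCommRing.toCommRing
  NeZero.of_gt' AddQuantale.instAddLeftMono ConditionallyCompleteLinearOrder.toLinearOrder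
  EuclideanDomain.instIsDomain instIsTorsionFreeOfIsDomainOfNoZeroSMulDivisors LieRing.toAddCommGroup
  ContinuousAddMonoidHom.instCoeOutOfAddMonoidHomClassOfContinuousMapClass
  Module.Free.instIsTorsionFree RingHomInvPair.triples SeminormedRing.toRing Field.isDomain
  NormedDivisionRing.toDivisionRing GroupConeClass.toSubmonoidClass FloorSemiring.instZeroLEOneClass
  Algebra.Smooth.flat ESeminormedAddMonoid.toAddMonoid
  Algebra.IsFiniteSplit.instOfIsSepClosedOfEssFiniteTypeOfFormallyEtale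
  IsStrictOrderedRing.toZeroLEOneClass instZeroLEOneClassOfExistsAddOfLEOfPosMulMonoOfAddLeftMono
  IsOrderedRing.toZeroLEOneClass SetLike.GradeZero.instRing
  CategoryTheory.Limits.Concrete.instUniqueToTypeTerminal CompleteLinearOrder.toCompleteLattice
  GradedMonoid.GradeZero.mulAction instCoeHTCT UniqueFactorizationMonoid.toIsCancelMulZero
  NonUnitalNormedCommRing.toNonUnitalCommRing Torsor.toMulAction
  MulSemiringActionSemiHomClass.toRingHomClass CommRing.Pic.instFreeOfSubsingleton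
  IsOrderedCancelMonoid.toIsOrderedMonoid Bialgebra.toAlgebra SetLike.GradeZero.instMonoid
  HomeomorphClass.instCoeOutHomeomorph NormedSpace.toModule

-- part MP_f1fec5_al.Sig.Base
section

/-! Trees, integer valued valuations, arcs and the fields attached to trees. -/

namespace Pool.Agent.MP_f1fec5_al.Sig

open Polynomial

/-- initial segment -/
def pre {α : Type} (y : ℕ → α) (n : ℕ) : List α := (List.range n).map y

theorem pre_length {α : Type} (y : ℕ → α) (n : ℕ) : (pre y n).length = n := by simp [pre]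

theorem pre_eq_iff {α : Type} {y z : ℕ → α} {n : ℕ} : pre y n = pre z n ↔ ∀ i < n, y i = z i := by
  simp only [pre, List.map_inj_left, List.mem_range]

/-- existence of a branch -/
def Br (T : List ℕ → Prop) : Prop := ∃ y : ℕ → ℕ, ∀ n, T (pre y n)

/-- An integer valued valuation, written additively on the nonzero elements. -/
structure ZVal (k : Type*) [Field k] where
  ν : k → ℤ
  mul : ∀ x y, x ≠ 0 → y ≠ 0 → ν (x * y) = ν x + ν y
  add : ∀ x y, x ≠ 0 → y ≠ 0 → x + y ≠ 0 → min (ν x) (ν y) ≤ ν (x + y)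

lemma mem_of_integral {A W : Type*} [CommRing A] [Field W] [Algebra A W] (V : ValuationSubring W)
    (h : ∀ a, algebraMap A W a ∈ V) {w : W} (hw : IsIntegral A w) : w ∈ V := by
  let _ : Algebra A V := ((algebraMap A W).codRestrict V h).toAlgebra
  have := IsScalarTower.of_algebraMap_eq (R := A) (S := V) (A := W) fun _ => rfl
  obtain ⟨y, rfl⟩ := IsIntegrallyClosed.isIntegral_iff.1 (hw.tower_top (A := V))
  exact y.2

/-- polynomials in `s = C X` and `t = X` -/
abbrev Q : Type := ℚ[X][X]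

/-- an algebraic closure of the field of rational functions in `s` and `t` -/
def Om : Type := AlgebraicClosure (FractionRing Q)

noncomputable instance : Field Om := inferInstanceAs (Field (AlgebraicClosure (FractionRing Q)))

instance : IsAlgClosed Om := inferInstanceAs (IsAlgClosed (AlgebraicClosure (FractionRing Q)))

noncomputable instance : Algebra Q Om :=
  inferInstanceAs (Algebra Q (AlgebraicClosure (FractionRing Q)))

lemma alg_closure (D : Type) [CommRing D] [IsDomain D] :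
    Algebra.IsAlgebraic D (AlgebraicClosure (FractionRing D)) :=
  have : Algebra.IsAlgebraic D (FractionRing D) :=
    IsLocalization.isAlgebraic _ (nonZeroDivisors _)
  Algebra.IsAlgebraic.trans _ (FractionRing D) _

instance : Algebra.IsAlgebraic Q Om := alg_closure Q

lemma toOm_injective : Function.Injective (algebraMap Q Om) :=
  (algebraMap (FractionRing Q) (AlgebraicClosure (FractionRing Q))).injective.comp
    (IsFractionRing.injective Q (FractionRing Q))

instance : FaithfulSMul Q Om := (faithfulSMul_iff_algebraMap_injective _ _).2 toOm_injective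

instance : CharZero Om := algebraRat.charZero (AlgebraicClosure (FractionRing Q))

instance countable_poly {A : Type} [CommRing A] [Countable A] : Countable A[X] :=
  Cardinal.mk_le_aleph0_iff.1 (Polynomial.cardinalMk_le_max.trans
    (max_le (Cardinal.mk_le_aleph0_iff.2 inferInstance) le_rfl))

lemma exists_al : ∃ al : ℕ → ℚ, ∀ f : Q, f ≠ 0 → {a : ℕ | f.evalEval (a : ℚ) (al a) = 0}.Finite := by
  classical
  obtain ⟨e, he⟩ := exists_surjective_nat Q
  have h1 : ∀ a : ℕ, ∃ x : ℚ, ∀ j ≤ a, (e j).map (evalRingHom (a : ℚ)) ≠ 0 →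
      (e j).evalEval (a : ℚ) x ≠ 0 := by
    intro a
    have hf : (⋃ j ∈ Set.Iic a, (((e j).map (evalRingHom (a : ℚ))).roots.toFinset : Set ℚ)).Finite :=
      (Set.finite_Iic a).biUnion fun j _ => Finset.finite_toSet _
    obtain ⟨x, hx⟩ := hf.infinite_compl.nonempty
    refine ⟨x, fun j hj h0 h => hx (Set.mem_biUnion hj ?_)⟩
    rw [Finset.mem_coe, Multiset.mem_toFinset, mem_roots h0, IsRoot, map_evalRingHom_eval]
    exact h
  choose al hal using h1
  refine ⟨al, fun f hf => ?_⟩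
  obtain ⟨j, rfl⟩ := he f
  have h2 : ((Nat.cast : ℕ → ℚ) ⁻¹' ((e j).leadingCoeff.roots.toFinset : Set ℚ)).Finite :=
    (Finset.finite_toSet _).preimage Nat.cast_injective.injOn
  refine ((Set.finite_lt_nat j).union h2).subset fun a ha => ?_
  rcases lt_or_ge a j with h | h
  · exact Or.inl h
  · refine Or.inr ?_
    have h3 : (e j).map (evalRingHom (a : ℚ)) = 0 := by_contra fun h0 => hal a j h h0 ha
    have h4 := congrArg (fun p => p.coeff (e j).natDegree) h3
    simp only [coeff_map, coe_evalRingHom, coeff_zero] at h4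
    rw [Set.mem_preimage, Finset.mem_coe, Multiset.mem_toFinset,
      mem_roots (leadingCoeff_ne_zero.2 hf)]
    exact h4

/-- the starting points of the arcs -/
noncomputable def al : ℕ → ℚ := exists_al.choose

lemma al_spec {f : Q} (hf : f ≠ 0) : {a : ℕ | f.evalEval (a : ℚ) (al a) = 0}.Finite :=
  exists_al.choose_spec f hf

/-- the exponents -/
def dd (b : ℕ → ℕ) : ℕ → ℕ
  | 0 => 0
  | n + 1 => (b n + 1).factorial * ((n + 2) * (dd b n + 1))

/-- the nodes -/
noncomputable def cc (a : ℕ) (b : ℕ → ℕ) : ℕ → ℚ[X]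
  | 0 => C (al a)
  | n + 1 => cc a b n + (X - C (a : ℚ)) ^ dd b (n + 1)

/-- expansion at the point `a` -/
noncomputable def ps (a : ℕ) : ℚ[X] →+* PowerSeries ℚ :=
  eval₂RingHom PowerSeries.C (PowerSeries.X + PowerSeries.C (a : ℚ))

/-- the limit of the nodes -/
noncomputable def xi (a : ℕ) (b : ℕ → ℕ) : PowerSeries ℚ :=
  PowerSeries.mk fun i => PowerSeries.coeff i (ps a (cc a b i))

/-- substitution of an arc -/
noncomputable def arc (a : ℕ) (b : ℕ → ℕ) : Q →+* PowerSeries ℚ := eval₂RingHom (ps a) (xi a b)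

/-- order of vanishing along an arc -/
noncomputable def od (a : ℕ) (b : ℕ → ℕ) (f : Q) : ℕ := (arc a b f).order.toNat

/-- the allowed radicals -/
def Al (T : List ℕ → Prop) (f : Q) (N : ℕ) : Prop :=
  0 < N ∧ ∃ n, ∀ a b, T (pre b n) → N ∣ od a b f

/-- the field attached to a tree -/
noncomputable def kT (T : List ℕ → Prop) : Subfield Om :=
  Subfield.closure (Set.range (algebraMap Q Om) ∪
    {y | ∃ f N, Al T f N ∧ y ^ N = algebraMap Q Om f})

lemma arc_pi (a : ℕ) (b : ℕ → ℕ) : arc a b (C (X - C (a : ℚ))) = PowerSeries.X := by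
  simp [arc, ps]

lemma arc_CC (a : ℕ) (b : ℕ → ℕ) (q : ℚ) : arc a b (C (C q)) = PowerSeries.C q := by
  simp only [arc, ps, map_natCast, coe_eval₂RingHom, eval₂_C]

/-- order as a natural number -/
noncomputable def oo (φ : PowerSeries ℚ) : ℕ := φ.order.toNat

lemma oo_mul {φ ψ : PowerSeries ℚ} (h1 : φ ≠ 0) (h2 : ψ ≠ 0) : oo (φ * ψ) = oo φ + oo ψ := by
  rw [oo, PowerSeries.order_mul, ENat.toNat_add (PowerSeries.order_eq_top.not.2 h1)
    (PowerSeries.order_eq_top.not.2 h2)]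
  rfl

lemma dvd_iff_le_oo {φ : PowerSeries ℚ} (h : φ ≠ 0) {n : ℕ} :
    PowerSeries.X ^ n ∣ φ ↔ n ≤ oo φ :=
  ⟨fun hd => not_lt.1 fun hn => PowerSeries.coeff_order h (PowerSeries.X_pow_dvd_iff.1 hd _ hn),
    fun hn => (pow_dvd_pow _ hn).trans PowerSeries.X_pow_order_dvd⟩

lemma Xp_ne (n : ℕ) : (PowerSeries.X : PowerSeries ℚ) ^ n ≠ 0 := pow_ne_zero _ PowerSeries.X_ne_zero

lemma oo_X_pow (n : ℕ) : oo (PowerSeries.X ^ n) = n := by simp [oo, PowerSeries.order_X_pow]

lemma oo_eq_of_dvd {φ ψ : PowerSeries ℚ} {n : ℕ} (h : PowerSeries.X ^ n ∣ φ - ψ) (h0 : ψ ≠ 0)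
    (hn : oo ψ < n) : φ ≠ 0 ∧ oo φ = oo ψ := by
  have h1 : φ ≠ 0 := by
    rintro rfl
    exact absurd ((dvd_iff_le_oo h0).1 (by simpa only [zero_sub, dvd_neg] using h)) (by omega)
  refine ⟨h1, le_antisymm (not_lt.1 fun hlt => ?_) ((dvd_iff_le_oo h1).1 ?_)⟩
  · have h2 : PowerSeries.X ^ (oo ψ + 1) ∣ ψ := by
      simpa only [Nat.succ_eq_add_one, sub_sub_cancel] using dvd_sub ((dvd_iff_le_oo h1).2 hlt) ((pow_dvd_pow _ hn).trans h)
    exact absurd ((dvd_iff_le_oo h0).1 h2) (by omega)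
  · simpa only [sub_add_cancel] using dvd_add ((pow_dvd_pow _ hn.le).trans h) ((dvd_iff_le_oo h0).2 le_rfl)

lemma dd_grow (b : ℕ → ℕ) (n : ℕ) : (n + 2) * (dd b n + 1) ≤ dd b (n + 1) :=
  Nat.le_mul_of_pos_left _ (Nat.factorial_pos _)

lemma dd_lt (b : ℕ → ℕ) (n : ℕ) : dd b n < dd b (n + 1) := by
  have := dd_grow b n
  nlinarith

lemma dd_mono (b : ℕ → ℕ) : StrictMono (dd b) := strictMono_nat_of_lt_succ (dd_lt b)

lemma ps_pi (a : ℕ) : ps a (X - C (a : ℚ)) = PowerSeries.X := by simp only [ps, map_natCast, coe_eval₂RingHom, eval₂_sub, eval₂_X, eval₂_natCast, add_sub_cancel_right]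

lemma ps_succ (a : ℕ) (b : ℕ → ℕ) (n : ℕ) :
    ps a (cc a b (n + 1)) = ps a (cc a b n) + PowerSeries.X ^ dd b (n + 1) := by
  rw [cc, map_add, map_pow, ps_pi]

lemma cc_dvd (a : ℕ) (b : ℕ → ℕ) {n m : ℕ} (h : n ≤ m) :
    PowerSeries.X ^ dd b (n + 1) ∣ ps a (cc a b m) - ps a (cc a b n) := by
  induction m, h using Nat.le_induction with
  | base => simp
  | succ m h ih =>
    rw [ps_succ, add_sub_right_comm]
    exact dvd_add ih (pow_dvd_pow _ ((dd_mono b).monotone (by omega)))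

lemma xi_dvd (a : ℕ) (b : ℕ → ℕ) (n : ℕ) :
    PowerSeries.X ^ dd b (n + 1) ∣ xi a b - ps a (cc a b n) := by
  refine PowerSeries.X_pow_dvd_iff.2 fun i hi => ?_
  have h1 := PowerSeries.X_pow_dvd_iff.1 (cc_dvd a b (le_max_left n i)) i hi
  have h2 := PowerSeries.X_pow_dvd_iff.1 (cc_dvd a b (le_max_right n i)) i
    ((dd_mono b).id_le (i + 1))
  rw [map_sub, sub_eq_zero] at h1 h2 ⊢
  rw [xi, PowerSeries.coeff_mk, ← h1, h2]

lemma xi_ord (a : ℕ) (b : ℕ → ℕ) (n : ℕ) :
    xi a b - ps a (cc a b n) ≠ 0 ∧ oo (xi a b - ps a (cc a b n)) = dd b (n + 1) := by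
  have := oo_eq_of_dvd (φ := xi a b - ps a (cc a b n)) (n := dd b (n + 2))
    (by rw [sub_sub, ← ps_succ]; exact xi_dvd a b (n + 1)) (Xp_ne _)
    (by rw [oo_X_pow]; exact dd_lt b _)
  rwa [oo_X_pow] at this

lemma ps_ord (a : ℕ) {g : ℚ[X]} (hg : g ≠ 0) : ps a g ≠ 0 ∧ oo (ps a g) ≤ g.natDegree := by
  have e : ps a = (coeToPowerSeries.ringHom).comp (taylorAlgHom (a : ℚ)).toRingHom := by
    ext1
    · ext1 q; simp only [ps, map_natCast, eval₂RingHom_comp_C, AlgHom.toRingHom_eq_coe, RingHom.coe_comp, RingHom.coe_coe, Function.comp_apply, taylorAlgHom_apply, taylor_C, coeToPowerSeries.ringHom_apply, coe_C]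
    · simp only [ps, coe_eval₂RingHom, eval₂_X, AlgHom.toRingHom_eq_coe, RingHom.coe_comp, RingHom.coe_coe, Function.comp_apply, taylorAlgHom_apply, taylor_X, coeToPowerSeries.ringHom_apply, coe_add, coe_X, coe_C]
  have h1 : PowerSeries.coeff g.natDegree (ps a g) ≠ 0 := by
    have : taylor (a : ℚ) g ≠ 0 := by rwa [Ne, taylor_eq_zero]
    rw [← natDegree_taylor g (a : ℚ)]
    simpa only [natDegree_taylor, e, AlgHom.toRingHom_eq_coe, RingHom.coe_comp, RingHom.coe_coe, Function.comp_apply, taylorAlgHom_apply, coeToPowerSeries.ringHom_apply, coeff_coe, coeff_taylor_natDegree, ne_eq, leadingCoeff_eq_zero, taylor_eq_zero] using this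
  exact ⟨fun h => h1 (by simp [h]), not_lt.1 fun h => h1 (PowerSeries.coeff_of_lt_order_toNat _ h)⟩

lemma natDegree_cc (a : ℕ) (b : ℕ → ℕ) (n : ℕ) : (cc a b n).natDegree ≤ dd b n := by
  induction n with
  | zero => simp only [cc, natDegree_C, zero_le]
  | succ n ih =>
    refine natDegree_add_le_of_degree_le (ih.trans (dd_lt b n).le) ?_
    rw [natDegree_pow, natDegree_X_sub_C, mul_one]

lemma exists_deg (f : Q) : ∃ A, ∀ c : ℚ[X], (f.eval c).natDegree ≤ A * (c.natDegree + 1) := by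
  induction f using Polynomial.induction_on' with
  | add p q hp hq =>
    obtain ⟨A, hA⟩ := hp
    obtain ⟨B, hB⟩ := hq
    refine ⟨A + B, fun c => ?_⟩
    rw [eval_add, add_mul]
    exact natDegree_add_le_of_degree_le ((hA c).trans (by omega)) ((hB c).trans (by omega))
  | monomial n g =>
    refine ⟨g.natDegree + n, fun c => ?_⟩
    rw [eval_monomial]
    have := natDegree_pow_le (p := c) (n := n)
    refine natDegree_mul_le.trans ?_
    linarith only [Nat.zero_le (g.natDegree * c.natDegree), this]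

lemma arc_C (a : ℕ) (b : ℕ → ℕ) (g : ℚ[X]) : arc a b (C g) = ps a g := by simp [arc]

lemma arc_lin (a : ℕ) (b : ℕ → ℕ) (c : ℚ[X]) : arc a b (X - C c) = xi a b - ps a c := by simp [arc]

lemma od_node {a : ℕ} {b : ℕ → ℕ} {n : ℕ} {f : Q} (h : f.eval (cc a b n) ≠ 0)
    (hn : oo (ps a (f.eval (cc a b n))) < dd b (n + 1)) :
    arc a b f ≠ 0 ∧ od a b f = oo (ps a (f.eval (cc a b n))) := by
  refine oo_eq_of_dvd ((xi_dvd a b n).trans ?_) (ps_ord a h).1 hn
  rw [← arc_lin, ← arc_C, ← map_sub]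
  exact _root_.map_dvd _ X_sub_C_dvd_sub_C_eval

lemma arc_ne {f : Q} (hf : f ≠ 0) (a : ℕ) (b : ℕ → ℕ) : arc a b f ≠ 0 := by
  obtain ⟨A, hA⟩ := exists_deg f
  have hinj : Function.Injective (cc a b) := fun n m h => by
    have := (xi_ord a b n).2.symm.trans (h ▸ (xi_ord a b m).2)
    exact Nat.succ_injective ((dd_mono b).injective this)
  obtain ⟨n, hn, hAn⟩ := (((Finset.finite_toSet f.roots.toFinset).preimage
    hinj.injOn).infinite_compl).exists_gt A
  have h : f.eval (cc a b n) ≠ 0 := fun h => hn (by simpa [hf] using h)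
  refine (od_node h (((ps_ord a h).2.trans (hA _)).trans_lt ?_)).1
  have := natDegree_cc a b n
  have := dd_grow b n
  nlinarith

lemma arc_injective (a : ℕ) (b : ℕ → ℕ) : Function.Injective (arc a b) :=
  (injective_iff_map_eq_zero _).2 fun _ h => by_contra fun hf => arc_ne hf a b h

lemma arc_const (a : ℕ) (b : ℕ → ℕ) (f : Q) :
    PowerSeries.constantCoeff (arc a b f) = f.evalEval (a : ℚ) (al a) := by
  have h : PowerSeries.constantCoeff (xi a b) = al a := by
    rw [← PowerSeries.coeff_zero_eq_constantCoeff_apply, xi, PowerSeries.coeff_mk]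
    simp only [ps, map_natCast, cc, coe_eval₂RingHom, eval₂_C, PowerSeries.coeff_zero_C]
  have e : PowerSeries.constantCoeff.comp (arc a b) = evalEvalRingHom (a : ℚ) (al a) := by
    ext1
    · ext1
      · ext1 q; simp only [arc, ps, map_natCast, eq_ratCast, Rat.cast_eq_id, id_eq]
      · simp only [arc, ps, map_natCast, RingHom.coe_comp, coe_eval₂RingHom, Function.comp_apply, eval₂_C, eval₂_X, map_add, PowerSeries.constantCoeff_X, zero_add, coe_evalRingHom, eval_C, eval_X]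
    · simp only [arc, RingHom.coe_comp, coe_eval₂RingHom, Function.comp_apply, eval₂_X, h, evalEvalRingHom_apply, eval_X, eval_C]
  exact RingHom.congr_fun e f

lemma toOm_mem (T : List ℕ → Prop) (f : Q) : algebraMap Q Om f ∈ kT T :=
  Subfield.subset_closure (Or.inl ⟨f, rfl⟩)

instance : Countable Om :=
  Cardinal.mk_le_aleph0_iff.1 ((Algebra.IsAlgebraic.cardinalMk_le_max Q Om).trans
    (max_le (Cardinal.mk_le_aleph0_iff.2 inferInstance) le_rfl))

end Pool.Agent.MP_f1fec5_al.Sig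

end

-- part MP_f1fec5_al.Sig.Kill
section

/-! Without a branch the field has no nontrivial integer valued valuation. -/

namespace Pool.Agent.MP_f1fec5_al.Sig

open Polynomial

/-- additive valuation on the nonzero elements -/
structure IsZ {A : Type} [CommRing A] (w : A → ℤ) : Prop where
  mul : ∀ x y, x ≠ 0 → y ≠ 0 → w (x * y) = w x + w y
  add : ∀ x y, x ≠ 0 → y ≠ 0 → x + y ≠ 0 → min (w x) (w y) ≤ w (x + y)

namespace IsZ

variable {A : Type} [CommRing A] [IsDomain A] {w : A → ℤ} (h : IsZ w)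
include h

lemma one : w 1 = 0 := by simpa using h.mul 1 1 one_ne_zero one_ne_zero

lemma pow {x : A} (hx : x ≠ 0) (n : ℕ) : w (x ^ n) = n * w x := by
  induction n with
  | zero => simpa using h.one
  | succ n ih => rw [pow_succ, h.mul _ _ (pow_ne_zero _ hx) hx, ih]; push_cast; ring

lemma neg {x : A} (hx : x ≠ 0) : w (-x) = w x := by
  have h1 := h.pow hx 2
  have h2 := h.pow (neg_ne_zero.2 hx) 2
  rw [neg_sq, h1] at h2
  omega

lemma add_eq {x y : A} (hx : x ≠ 0) (hy : y ≠ 0) (hl : w x < w y) :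
    x + y ≠ 0 ∧ w (x + y) = w x := by
  have h0 : x + y ≠ 0 := fun e => by
    rw [eq_neg_of_add_eq_zero_left e, h.neg hy] at hl
    omega
  have h1 := h.add x y hx hy h0
  have h2 := h.add (x + y) (-y) h0 (neg_ne_zero.2 hy) (by simpa using hx)
  rw [h.neg hy, add_neg_cancel_right] at h2
  exact ⟨h0, by omega⟩

lemma horner {B : Type} [CommRing B] (φ : B →+* A) (hφ : ∀ c, c ≠ 0 → φ c ≠ 0 ∧ 0 ≤ w (φ c))
    {x : A} (hx : x ≠ 0) (h0 : 0 ≤ w x) (p : B[X]) : p.eval₂ φ x ≠ 0 → 0 ≤ w (p.eval₂ φ x) := by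
  induction p using Polynomial.induction_on' with
  | add p q hp hq =>
    rw [eval₂_add]
    intro hs
    by_cases h1 : p.eval₂ φ x = 0
    · rw [h1, zero_add] at hs ⊢; exact hq hs
    by_cases h2 : q.eval₂ φ x = 0
    · rw [h2, add_zero] at hs ⊢; exact hp hs
    exact (le_min (hp h1) (hq h2)).trans (h.add _ _ h1 h2 hs)
  | monomial n c =>
    rw [eval₂_monomial]
    intro hs
    have hc : c ≠ 0 := by rintro rfl; simp at hs
    rw [h.mul _ _ (hφ c hc).1 (pow_ne_zero _ hx), h.pow hx]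
    have := (hφ c hc).2
    positivity

lemma not_root {B : Type} [CommRing B] (φ : B →+* A) (hφ : ∀ c, c ≠ 0 → φ c ≠ 0 ∧ w (φ c) = 0)
    {x : A} (hx : x ≠ 0) (h0 : 0 < w x) (p : B[X]) (hp : p ≠ 0) : p.eval₂ φ x ≠ 0 := by
  induction hn : p.natDegree using Nat.strong_induction_on generalizing p with
  | _ n ih =>
    have e : p.eval₂ φ x = φ (p.coeff 0) + x * p.divX.eval₂ φ x := by
      conv_lhs => rw [← X_mul_divX_add p]
      rw [eval₂_add, eval₂_mul, eval₂_X, eval₂_C, add_comm]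
    by_cases h1 : p.divX = 0
    · rw [e, h1, eval₂_zero, mul_zero, add_zero]
      exact (hφ _ fun hc => hp (by rw [← X_mul_divX_add p, h1, hc]; simp)).1
    have h2 := ih _ (hn ▸ natDegree_lt_natDegree h1 (degree_divX_lt hp)) _ h1 rfl
    by_cases hc : p.coeff 0 = 0
    · rw [e, hc, map_zero, zero_add]
      exact mul_ne_zero hx h2
    · have h3 := h.horner φ (fun c hc => ⟨(hφ c hc).1, (hφ c hc).2.ge⟩) hx h0.le _ h2
      rw [e]
      refine (h.add_eq (hφ _ hc).1 (mul_ne_zero hx h2) ?_).1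
      rw [h.mul _ _ hx h2, (hφ _ hc).2]
      omega

end IsZ

lemma oo_zero {φ : PowerSeries ℚ} (h : PowerSeries.constantCoeff φ ≠ 0) : φ ≠ 0 ∧ oo φ = 0 := by
  have h0 : φ ≠ 0 := by rintro rfl; simp at h
  refine ⟨h0, by_contra fun hn => h (PowerSeries.X_dvd_iff.1 ?_)⟩
  simpa only [pow_one] using (dvd_iff_le_oo h0 (n := 1)).2 (by omega)

lemma oo_sq {φ ψ : PowerSeries ℚ} (h1 : φ ≠ 0) (h2 : ψ ≠ 0) :
    φ ^ 2 + ψ ^ 2 ≠ 0 ∧ oo (φ ^ 2 + ψ ^ 2) = 2 * min (oo φ) (oo ψ) := by
  obtain ⟨A, hA⟩ := (dvd_iff_le_oo h1).2 (min_le_left _ (oo ψ))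
  obtain ⟨B, hB⟩ := (dvd_iff_le_oo h2).2 (min_le_right (oo φ) _)
  have k : ∀ {χ A : PowerSeries ℚ} {n}, χ ≠ 0 → χ = PowerSeries.X ^ n * A →
      PowerSeries.constantCoeff A = 0 → n + 1 ≤ oo χ := fun h0 e hc => by
    rw [← dvd_iff_le_oo h0, e, pow_succ]
    exact mul_dvd_mul_left _ (PowerSeries.X_dvd_iff.2 hc)
  have h3 := oo_zero (φ := A ^ 2 + B ^ 2) (by
    rw [map_add, map_pow, map_pow]
    intro e
    have := k h1 hA (by nlinarith only [e])
    have := k h2 hB (by nlinarith only [e])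
    omega)
  have e : φ ^ 2 + ψ ^ 2 = PowerSeries.X ^ (2 * min (oo φ) (oo ψ)) * (A ^ 2 + B ^ 2) := by
    generalize min (oo φ) (oo ψ) = n at hA hB
    rw [hA, hB]; ring
  rw [e, oo_mul (Xp_ne _) h3.1, oo_X_pow, h3.2]
  exact ⟨mul_ne_zero (Xp_ne _) h3.1, rfl⟩

lemma od_isZ_mul (a : ℕ) (b : ℕ → ℕ) {f g : Q} (hf : f ≠ 0) (hg : g ≠ 0) :
    od a b (f * g) = od a b f + od a b g := by
  rw [od, map_mul]; exact oo_mul (arc_ne hf a b) (arc_ne hg a b)

lemma od_pow (a : ℕ) (b : ℕ → ℕ) {f : Q} (hf : f ≠ 0) (n : ℕ) :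
    od a b (f ^ n) = n * od a b f := by
  induction n with
  | zero => simp [od]
  | succ n ih => rw [pow_succ, od_isZ_mul a b (pow_ne_zero _ hf) hf, ih]; ring

lemma sq_ne {f g : Q} (hf : f ≠ 0) (hg : g ≠ 0) : f ^ 2 + g ^ 2 ≠ 0 := fun e =>
  (oo_sq (arc_ne hf 0 0) (arc_ne hg 0 0)).1 (by rw [← map_pow, ← map_pow, ← map_add, e, map_zero])

lemma od_sq (a : ℕ) (b : ℕ → ℕ) {f g : Q} (hf : f ≠ 0) (hg : g ≠ 0) :
    od a b (f ^ 2 + g ^ 2) = 2 * min (od a b f) (od a b g) := by
  rw [od, map_add, map_pow, map_pow]; exact (oo_sq (arc_ne hf a b) (arc_ne hg a b)).2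

lemma od_zero {a : ℕ} (b : ℕ → ℕ) {f : Q} (h : f.evalEval (a : ℚ) (al a) ≠ 0) : od a b f = 0 :=
  (oo_zero (arc_const a b f ▸ h)).2

/-- the uniformizer at `a` -/
noncomputable def pa (a : ℕ) : Q := C (X - C (a : ℚ))

lemma pa_ne (a : ℕ) : pa a ≠ 0 := C_ne_zero.2 (X_sub_C_ne_zero _)

lemma od_pa (a : ℕ) (b : ℕ → ℕ) : od a b (pa a) = 1 := by
  rw [od, pa, arc_pi]; simp [PowerSeries.order_X]

lemma od_pa' {a a' : ℕ} (h : a' ≠ a) (b : ℕ → ℕ) : od a' b (pa a) = 0 :=
  od_zero b (by simpa [pa, evalEval_C, sub_eq_zero] using h)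

/-- the linear form vanishing at a node -/
noncomputable def lin (a : ℕ) (b : ℕ → ℕ) (n : ℕ) : Q := X - C (cc a b n)

lemma lin_ne (a : ℕ) (b : ℕ → ℕ) (n : ℕ) : lin a b n ≠ 0 := X_sub_C_ne_zero _

lemma lin_succ (a : ℕ) (b : ℕ → ℕ) (n : ℕ) :
    lin a b (n + 1) = lin a b n - pa a ^ dd b (n + 1) := by
  rw [lin, lin, cc, pa, map_add, map_pow, sub_sub]

lemma od_lin (a : ℕ) (b : ℕ → ℕ) (n : ℕ) : od a b (lin a b n) = dd b (n + 1) := by
  rw [od, lin, arc_lin]; exact (xi_ord a b n).2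

lemma pre_congr {b b' : ℕ → ℕ} {n : ℕ} (h : pre b n = pre b' n) (a : ℕ) :
    dd b n = dd b' n ∧ lin a b n = lin a b' n := by
  induction n with
  | zero => exact ⟨rfl, rfl⟩
  | succ n ih =>
    have := ih (pre_eq_iff.2 fun i hi => pre_eq_iff.1 h i (by omega))
    have e : dd b (n + 1) = dd b' (n + 1) := by
      rw [dd, dd, this.1, pre_eq_iff.1 h n (by omega)]
    exact ⟨e, by rw [lin_succ, lin_succ, e, this.2]⟩

lemma od_sub {a : ℕ} {b : ℕ → ℕ} {f g : Q} (hf : f ≠ 0) (hg : g ≠ 0) (h : od a b f < od a b g) :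
    od a b (f - g) = od a b f ∧ od a b (g - f) = od a b f ∧ od a b (g + f) = od a b f := by
  have k := (dvd_iff_le_oo (arc_ne hg a b)).2 (le_refl (od a b g))
  have e : oo (-arc a b f) = oo (arc a b f) := by rw [oo, PowerSeries.order_neg]; rfl
  refine ⟨(oo_eq_of_dvd (by simpa only [map_sub, sub_sub_cancel_left, dvd_neg] using k) (arc_ne hf a b) h).2, ?_,
    (oo_eq_of_dvd (by simpa only [map_add, add_sub_cancel_right] using k) (arc_ne hf a b) h).2⟩
  exact (oo_eq_of_dvd (by simpa only [map_sub, sub_neg_eq_add, sub_add_cancel] using k) (neg_ne_zero.2 (arc_ne hf a b)) (e.trans_lt h)).2.trans e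

lemma pre_of_od {a : ℕ} {b b0 : ℕ → ℕ} {n : ℕ} (h : dd b0 n < od a b (lin a b0 n)) :
    pre b n = pre b0 n := by
  induction n with
  | zero => rfl
  | succ n ih =>
    have e : od a b (pa a ^ dd b0 (n + 1)) = dd b0 (n + 1) := by
      rw [od_pow a b (pa_ne a), od_pa, mul_one]
    have h1 := (od_sub (pow_ne_zero (dd b0 (n + 1)) (pa_ne a)) (lin_ne a b0 (n + 1))
      (e ▸ h)).2.2
    rw [lin_succ, sub_add_cancel, e] at h1
    have h2 := ih (h1 ▸ dd_lt b0 n)
    rw [← (pre_congr h2 a).2, od_lin, dd, dd, (pre_congr h2 a).1] at h1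
    refine pre_eq_iff.2 fun i hi => ?_
    rcases Nat.lt_succ_iff_lt_or_eq.1 hi with hi | rfl
    · exact pre_eq_iff.1 h2 i hi
    · have h4 := Nat.eq_of_mul_eq_mul_right (by positivity) h1
      rcases lt_trichotomy (b i) (b0 i) with h5 | h5 | h5
      · exact absurd h4 ((Nat.factorial_lt (by omega)).2 (by omega)).ne
      · exact h5
      · exact absurd h4 ((Nat.factorial_lt (by omega)).2 (by omega)).ne'

lemma bdd_of_no_node {a : ℕ} {f : Q} (h : ∀ b n, f.eval (cc a b n) ≠ 0) :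
    ∃ E, ∀ b, od a b f ≤ E := by
  obtain ⟨A, hA⟩ := exists_deg f
  let g : ℕ → ℕ := fun i => Nat.rec 0 (fun _ x => (A + 1) * (x + 1)) i
  have hg : ∀ i, g (i + 1) = (A + 1) * (g i + 1) := fun _ => rfl
  refine ⟨g (A + 1), fun b => ?_⟩
  have k1 : ∀ i, oo (ps a (f.eval (cc a b i))) ≤ A * (dd b i + 1) := fun i =>
    ((ps_ord a (h b i)).2.trans (hA _)).trans
      (Nat.mul_le_mul_left _ (Nat.succ_le_succ (natDegree_cc a b i)))
  have k2 : ∀ i, dd b i ≤ g i ∨ od a b f ≤ g i := by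
    intro i
    induction i with
    | zero => exact Or.inl le_rfl
    | succ i ih =>
      have := k1 i
      rw [hg]
      rcases ih with h1 | h1
      · rcases lt_or_ge (oo (ps a (f.eval (cc a b i)))) (dd b (i + 1)) with h2 | h2
        · right; rw [(od_node (h b i) h2).2]; nlinarith
        · left; nlinarith
      · right; nlinarith only [h1]
  have := k1 A
  have := dd_grow b A
  rw [hg]
  rcases k2 A with h1 | h1
  · rw [(od_node (h b A) (by nlinarith)).2]; nlinarith
  · nlinarith only [h1]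

lemma bdd_lin (c : ℚ[X]) (N : ℕ) (hN : 0 < N) (a : ℕ) :
    ∃ E, ∀ b, od a b (X - C c) ≤ E ∨ N ∣ od a b (X - C c) := by
  by_cases h : ∃ b0 n, cc a b0 n = c
  · obtain ⟨b0, n, rfl⟩ := h
    refine ⟨N.factorial * ((n + 2) * (dd b0 n + 1)), fun b => ?_⟩
    change od a b (lin a b0 n) ≤ _ ∨ N ∣ od a b (lin a b0 n)
    rcases le_or_gt (od a b (lin a b0 n)) (dd b0 n) with h1 | h1
    · exact Or.inl (h1.trans ((by nlinarith only [] : _ ≤ (n + 2) * (dd b0 n + 1)).trans
        (Nat.le_mul_of_pos_left _ (Nat.factorial_pos _))))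
    · have h2 := pre_congr (pre_of_od h1) a
      rw [← h2.2, od_lin, dd, h2.1]
      rcases le_total (b n + 1) N with h3 | h3
      · exact Or.inl (Nat.mul_le_mul_right _ (Nat.factorial_le h3))
      · exact Or.inr ((Nat.dvd_factorial hN h3).mul_right _)
  · push Not at h
    obtain ⟨E, hE⟩ := bdd_of_no_node (a := a) (f := X - C c) fun b n => by
      simpa [sub_eq_zero] using h b n
    exact ⟨E, fun b => Or.inl (hE b)⟩

section

variable {T : List ℕ → Prop} {w : Q → ℤ} (hw : IsZ w)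
  (kl : ∀ N f, f ≠ 0 → Al T f N → (N : ℤ) ∣ w f)
include hw kl

lemma kl2 {N : ℕ} (hN : 0 < N) {f g : Q} (hf : f ≠ 0) (hg : g ≠ 0) (n : ℕ)
    (h : ∀ a b, T (pre b n) → (N : ℤ) ∣ od a b f - od a b g) : (N : ℤ) ∣ w f - w g := by
  obtain ⟨M, rfl⟩ := Nat.exists_eq_succ_of_ne_zero hN.ne'
  have h1 := kl _ (f * g ^ M) (mul_ne_zero hf (pow_ne_zero _ hg)) ⟨hN, n, fun a b hb => by
    rw [od_isZ_mul a b hf (pow_ne_zero _ hg), od_pow a b hg, ← Int.natCast_dvd_natCast]
    exact (dvd_add (h a b hb) (dvd_mul_right _ (od a b g : ℤ))).trans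
      (dvd_of_eq (by push_cast; ring))⟩
  rw [hw.mul _ _ hf (pow_ne_zero _ hg), hw.pow hg] at h1
  exact (dvd_sub h1 (dvd_mul_right _ (w g))).trans (dvd_of_eq (by push_cast; ring))

lemma kl0 {f g : Q} (hf : f ≠ 0) (hg : g ≠ 0) (n : ℕ)
    (h : ∀ a b, T (pre b n) → od a b f = od a b g) : w f = w g :=
  sub_eq_zero.1 (Int.eq_zero_of_dvd_of_natAbs_lt_natAbs
    (kl2 hw kl (Nat.succ_pos (w f - w g).natAbs) hf hg n fun a b hb => by simp [h a b hb])
    (by simp only [Int.natAbs_natCast]; omega))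

lemma w_nonneg {f : Q} (hf : f ≠ 0) : 0 ≤ w f := by
  have h1 := kl0 hw kl (sq_ne hf one_ne_zero) one_ne_zero 0 fun a b _ => by
    rw [od_sq a b hf one_ne_zero]; simp only [od, map_one, PowerSeries.order_one, ENat.toNat_zero, zero_le, inf_of_le_right, mul_zero]
  have h2 := hw.pow hf 2
  have h3 := hw.one
  by_contra h
  rw [(hw.add_eq (pow_ne_zero 2 hf) (pow_ne_zero 2 one_ne_zero) (by rw [one_pow]; omega)).2] at h1
  omega

lemma bump {a e : ℕ} (he : w (pa a) = e) (h0 : 0 < e) {U : Q} (hU : U ≠ 0) (hr : 0 < w U) (n : ℕ)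
    (h : ∀ b, T (pre b n) → (e : ℤ) * od a b U ≠ w U) : False := by
  obtain ⟨r, hr⟩ : ∃ r : ℕ, w U = r + 1 := ⟨(w U - 1).toNat, by omega⟩
  have n1 := pow_ne_zero e hU
  have n2 := fun j => pow_ne_zero j (pa_ne a)
  have n3 := fun j => sq_ne n1 (n2 j)
  have w1 : w ((U ^ e) ^ 2) = 2 * (e * (r + 1)) := by rw [hw.pow n1, hw.pow hU, hr]; rfl
  have w2 : ∀ j : ℕ, w ((pa a ^ j) ^ 2) = 2 * (j * e) := fun j => by
    rw [hw.pow (n2 j), hw.pow (pa_ne a), he]; rfl
  have h1 := kl0 hw kl (mul_ne_zero (n3 (r + 1)) (n3 (r + 1))) (mul_ne_zero (n3 r) (n3 (r + 2))) n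
    fun a' b hb => by
      simp only [od_isZ_mul a' b (n3 _) (n3 _), od_sq a' b n1 (n2 _), od_pow a' b hU,
        od_pow a' b (pa_ne a)]
      by_cases ha : a' = a
      · subst ha
        have := h b hb
        rw [hr] at this
        have : e * od a' b U ≠ r + 1 := by exact_mod_cast this
        rw [od_pa]
        omega
      · simp only [od_pa' ha, mul_zero, zero_le, inf_of_le_right, add_zero]
  have h2 := hw.add _ _ (pow_ne_zero 2 n1) (pow_ne_zero 2 (n2 (r + 1))) (n3 _)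
  have h3 := (hw.add_eq (pow_ne_zero 2 (n2 r)) (pow_ne_zero 2 n1) (by rw [w1, w2]; linarith only [h0])).2
  have h4 := (hw.add_eq (pow_ne_zero 2 n1) (pow_ne_zero 2 (n2 (r + 2)))
    (by rw [w1, w2]; push_cast; linarith only [h0])).2
  rw [add_comm] at h3
  rw [hw.mul _ _ (n3 _) (n3 _), hw.mul _ _ (n3 _) (n3 _), h3, h4, w1, w2] at h1
  rw [w1, w2, min_eq_left (by push_cast; linarith only [])] at h2
  linarith only [h0, h1, h2]

lemma step {a e : ℕ} (he : w (pa a) = e) (h0 : 0 < e) {n : ℕ} {b0 : ℕ → ℕ}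
    (h : (e : ℤ) * dd b0 n < w (lin a b0 n)) : ∃ b1, pre b1 n = pre b0 n ∧
      T (pre b1 (n + 1)) ∧ (e : ℤ) * dd b1 (n + 1) < w (lin a b1 (n + 1)) := by
  have hu := lin_ne a b0 n
  have hpos : 0 < w (lin a b0 n) := lt_of_le_of_lt (by positivity) h
  by_contra hc
  refine bump hw kl he h0 hu hpos (n + 1) fun b1 hb1 e1 => ?_
  have p1 : pre b1 n = pre b0 n := pre_of_od (a := a) (by
    rw [← e1] at h
    exact_mod_cast lt_of_mul_lt_mul_left h (by positivity))
  have l1 := pre_congr p1 a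
  rw [← l1.2] at e1 hu hpos
  rw [od_lin] at e1
  have hu' := lin_ne a b1 (n + 1)
  have hp := pow_ne_zero (dd b1 (n + 1)) (pa_ne a)
  have w1 : w (lin a b1 (n + 1)) = w (lin a b1 n) := by
    have k1 := hw.add _ _ hu (neg_ne_zero.2 hp) (by rwa [← sub_eq_add_neg, ← lin_succ])
    rw [← sub_eq_add_neg, ← lin_succ, hw.neg hp, hw.pow (pa_ne a), he, mul_comm, e1, min_self] at k1
    exact le_antisymm (not_lt.1 fun k2 => hc ⟨b1, p1, hb1, e1 ▸ k2⟩) k1
  refine bump hw kl he h0 (mul_ne_zero hu hu') (by rw [hw.mul _ _ hu hu']; omega) (n + 1)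
    fun b _ e2 => ?_
  rw [hw.mul _ _ hu hu', w1, ← e1, ← mul_add, od_isZ_mul a b hu hu'] at e2
  have e3 : od a b (lin a b1 n) + od a b (lin a b1 (n + 1)) = dd b1 (n + 1) + dd b1 (n + 1) := by
    exact_mod_cast mul_left_cancel₀ (by positivity) e2
  have e4 : od a b (pa a ^ dd b1 (n + 1)) = dd b1 (n + 1) := by
    rw [od_pow a b (pa_ne a), od_pa, mul_one]
  rcases lt_trichotomy (od a b (lin a b1 n)) (dd b1 (n + 1)) with k | k | k
  · rw [lin_succ, (od_sub hu hp (e4.symm ▸ k)).1] at e3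
    omega
  · have l2 := pre_congr (pre_of_od (k ▸ dd_lt b1 n : dd b1 n < od a b (lin a b1 n))) a
    have k2 : dd b (n + 1) = dd b1 (n + 1) := by rw [← k, ← l2.2, od_lin]
    rw [lin_succ, k, ← l2.2, ← k2, ← lin_succ, od_lin] at e3
    have := dd_lt b (n + 1)
    omega
  · rw [lin_succ, (od_sub hp hu (e4.symm ▸ k)).2.1, e4] at e3
    omega

lemma w_pa (hT : ¬ Br T) (a : ℕ) : w (pa a) = 0 := by
  obtain ⟨e, he⟩ := Int.eq_ofNat_of_zero_le (w_nonneg hw kl (pa_ne a))
  rcases Nat.eq_zero_or_pos e with rfl | h0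
  · exact he
  exfalso
  have t0 : T (pre 0 0) := by_contra fun h =>
    bump hw kl he h0 (pa_ne a) (by omega) 0 fun b hb => absurd hb h
  have s0 : (e : ℤ) * dd 0 0 < w (lin a 0 0) := by
    have := w_nonneg hw kl (lin_ne a 0 0)
    by_contra h
    have e0 : w (lin a 0 0) = 0 := by simp only [dd, Nat.cast_zero, mul_zero] at h; omega
    have e1 := hw.mul _ _ (pa_ne a) (lin_ne a 0 0)
    refine bump hw kl he h0 (mul_ne_zero (pa_ne a) (lin_ne a 0 0)) (by omega) 0 fun b _ => ?_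
    have := dd_lt b 0
    rw [od_isZ_mul a b (pa_ne a) (lin_ne a 0 0), od_pa, show lin a 0 0 = lin a b 0 from rfl,
      od_lin, show lin a b 0 = lin a 0 0 from rfl, e1, e0, he]
    push_cast
    nlinarith only [h0, this]
  choose! f h1 h2 using fun n b0 => step hw kl he h0 (n := n) (b0 := b0)
  let B : ℕ → ℕ → ℕ := fun n => Nat.rec 0 f n
  have k1 : ∀ n, T (pre (B n) n) ∧ (e : ℤ) * dd (B n) n < w (lin a (B n) n) := fun n => by
    induction n with
    | zero => exact ⟨t0, s0⟩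
    | succ n ih => exact h2 n _ ih.2
  have k2 : ∀ n, ∀ i < n, B (i + 1) i = B n i := fun n => by
    induction n with
    | zero => simp
    | succ n ih =>
      intro i hi
      rcases Nat.lt_succ_iff_lt_or_eq.1 hi with hi | rfl
      · exact (ih i hi).trans (pre_eq_iff.1 (h1 n _ (k1 n).2) i hi).symm
      · rfl
  exact hT ⟨fun i => B (i + 1) i, fun n => (pre_eq_iff.2 (k2 n)).symm ▸ (k1 n).1⟩

lemma w_C (hT : ¬ Br T) (g : ℚ[X]) (hg : g ≠ 0) : w (C g) = 0 := by
  induction hn : g.natDegree using Nat.strong_induction_on generalizing g with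
  | _ n ih =>
    by_cases h : ∃ a : ℕ, g.IsRoot (a : ℚ)
    · obtain ⟨a, ha⟩ := h
      obtain ⟨g', rfl⟩ := dvd_iff_isRoot.2 ha
      have h1 := right_ne_zero_of_mul hg
      rw [natDegree_mul (X_sub_C_ne_zero _) h1, natDegree_X_sub_C] at hn
      rw [C_mul, ← pa, hw.mul _ _ (pa_ne a) (C_ne_zero.2 h1), w_pa hw kl hT,
        ih _ (by omega) g' h1 rfl, add_zero]
    · refine (kl0 hw kl (C_ne_zero.2 hg) one_ne_zero 0 fun a b _ => ?_).trans hw.one
      rw [od_zero b (by rw [evalEval_C]; exact fun e => h ⟨a, e⟩)]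
      simp [od]

lemma w_geo (hT : ¬ Br T) {f : Q} (hf : f ≠ 0)
    (h : ∀ N, 0 < N → ∀ a, ∃ E, ∀ b, od a b f ≤ E ∨ N ∣ od a b f) : w f = 0 := by
  obtain ⟨r, hr⟩ := Int.eq_ofNat_of_zero_le (w_nonneg hw kl hf)
  choose E hE using h (2 * r + 1) (by omega)
  let S := (al_spec hf).toFinset
  let e := (2 * r + 1) * ∑ a ∈ S, E a
  let M : ℚ[X] := ∏ a ∈ S, (X - C (a : ℚ)) ^ e
  have hM : M ≠ 0 := Finset.prod_ne_zero_iff.2 fun a _ => pow_ne_zero _ (X_sub_C_ne_zero _)
  have hM' : (C M : Q) ≠ 0 := C_ne_zero.2 hM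
  have o1 : ∀ a ∈ S, ∀ b, od a b (C M) = e := fun a ha b => by
    have hM2 : (∏ a' ∈ S.erase a, (X - C (a' : ℚ)) ^ e).eval (a : ℚ) ≠ 0 := by
      rw [eval_prod]
      refine Finset.prod_ne_zero_iff.2 fun a' ha' => ?_
      simpa [sub_eq_zero] using fun h => absurd h.symm (Finset.ne_of_mem_erase ha')
    rw [show M = _ from (Finset.mul_prod_erase S _ ha).symm, C_mul, C_pow, ← pa, od_isZ_mul a b
      (pow_ne_zero _ (pa_ne a)) (C_ne_zero.2 fun e0 => hM2 (by rw [e0, eval_zero])),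
      od_pow a b (pa_ne a), od_pa, od_zero b (by rwa [evalEval_C]), mul_one, add_zero]
  have h1 := kl2 hw kl (N := 2 * r + 1) (by omega) (pow_ne_zero 2 hf) (sq_ne hf hM') 0
    fun a b _ => by
      rw [od_sq a b hf hM', od_pow a b hf]
      by_cases ha : a ∈ S
      · rw [o1 a ha]
        have : E a ≤ e := (Finset.single_le_sum (fun _ _ => Nat.zero_le _) ha).trans
          (Nat.le_mul_of_pos_left _ (by omega))
        rcases le_total (od a b f) e with k | k
        · simp [k]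
        rcases hE a b with k1 | k1
        · simp [k1.trans this]
        · rw [min_eq_right k]
          exact dvd_sub (Int.natCast_dvd_natCast.2 (k1.mul_left _))
            (Int.natCast_dvd_natCast.2 ((dvd_mul_right _ _).mul_left _))
      · simp [od_zero b (f := f) (by simpa [S] using ha)]
  have w1 := hw.pow hf 2
  have w2 := hw.pow hM' 2
  rw [w_C hw kl hT M hM] at w2
  by_contra h0
  rw [add_comm (f ^ 2), (hw.add_eq (pow_ne_zero 2 hM') (pow_ne_zero 2 hf) (by omega)).2] at h1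
  have := Int.le_of_dvd (by omega) h1
  omega

lemma w_zero (hT : ¬ Br T) (f : Q) (hf : f ≠ 0) : w f = 0 := by
  induction hn : f.natDegree using Nat.strong_induction_on generalizing f with
  | _ n ih =>
    by_cases h : ∃ c : ℚ[X], f.IsRoot c
    · obtain ⟨c, hc⟩ := h
      obtain ⟨g, rfl⟩ := dvd_iff_isRoot.2 hc
      have h1 := right_ne_zero_of_mul hf
      rw [natDegree_mul (X_sub_C_ne_zero _) h1, natDegree_X_sub_C] at hn
      rw [hw.mul _ _ (X_sub_C_ne_zero _) h1, w_geo hw kl hT (X_sub_C_ne_zero _) (bdd_lin c),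
        ih _ (by omega) g h1 rfl, add_zero]
    · refine w_geo hw kl hT hf fun N _ a => ?_
      obtain ⟨E, hE⟩ := bdd_of_no_node (a := a) (f := f) fun b n e => h ⟨_, e⟩
      exact ⟨E, fun b => Or.inl (hE b)⟩

end

theorem kill {T : List ℕ → Prop} (h : ¬ Br T) (v : ZVal (kT T)) (x : kT T) (hx : x ≠ 0) :
    v.ν x = 0 := by
  have hv : IsZ v.ν := ⟨v.mul, v.add⟩
  let θ : Q →+* kT T := (algebraMap Q Om).codRestrict _ (toOm_mem T)
  have hθ : ∀ f, f ≠ 0 → θ f ≠ 0 := fun f hf e =>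
    hf (toOm_injective ((congrArg Subtype.val e).trans (map_zero _).symm))
  have hw : IsZ fun f => v.ν (θ f) :=
    ⟨fun f g hf hg => by rw [map_mul]; exact v.mul _ _ (hθ f hf) (hθ g hg),
      fun f g hf hg hs => by
        rw [map_add]; exact v.add _ _ (hθ f hf) (hθ g hg) (map_add θ f g ▸ hθ _ hs)⟩
  have h0 := w_zero (T := T) hw (fun N f hf hA => by
    obtain ⟨y, hy⟩ := IsAlgClosed.exists_pow_nat_eq (algebraMap Q Om f) hA.1
    let y' : kT T := ⟨y, Subfield.subset_closure (Or.inr ⟨f, N, hA, hy⟩)⟩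
    have e : θ f = y' ^ N := Subtype.ext hy.symm
    have hy0 : y' ≠ 0 := fun e0 => hθ f hf (by rw [e, e0, zero_pow hA.1.ne'])
    exact ⟨v.ν y', by rw [e, hv.pow hy0]⟩) h
  have key : ∀ y : kT T, y ≠ 0 → v.ν y ≤ 0 := fun y hy => not_lt.1 fun hlt => by
    obtain ⟨p, hp, e⟩ := Algebra.IsAlgebraic.isAlgebraic (R := Q) (y : Om)
    refine hv.not_root θ (fun c hc => ⟨hθ c hc, h0 c hc⟩) hy hlt p hp (Subtype.ext ?_)
    exact (hom_eval₂ p θ (kT T).subtype y).trans e
  have h1 := v.mul x x⁻¹ hx (inv_ne_zero hx)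
  rw [mul_inv_cancel₀ hx, hv.one] at h1
  have := key x hx
  have := key _ (inv_ne_zero hx)
  omega

end Pool.Agent.MP_f1fec5_al.Sig

end

-- part MP_f1fec5_al.Sig.Suff
section

/-! A family of independent discrete valuations gives a domain model. -/

namespace Pool.Agent.MP_f1fec5_al.Sig

open WithZero

lemma su_reg {R S : Type} [CommRing R] [CommRing S] {x : R × S} :
    x ∈ nonZeroDivisors (R × S) ↔ x.1 ∈ nonZeroDivisors R ∧ x.2 ∈ nonZeroDivisors S := by
  simp only [mem_nonZeroDivisors_iff_left]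
  exact ⟨fun h => ⟨fun y e => congrArg Prod.fst (h (y, 0) (Prod.ext e (mul_zero _))),
    fun y e => congrArg Prod.snd (h (0, y) (Prod.ext (mul_zero _) e))⟩,
    fun h y e => Prod.ext (h.1 _ (congrArg Prod.fst e)) (h.2 _ (congrArg Prod.snd e))⟩

lemma su_prod {P R S : Type} [CommRing P] [CommRing R] [CommRing S] (r : RModel R S) :
    Nonempty (RModel (P × R) (P × S)) := by
  have a1 : ∀ {A B : Type} [CommRing A] [CommRing B] {X : Ideal (A × B)}, Reg X →
      Reg (X.map (RingHom.fst A B)) ∧ Reg (X.map (RingHom.snd A B)) := fun ⟨x, hx, h⟩ =>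
    ⟨⟨x.1, Ideal.mem_map_of_mem (RingHom.fst _ _) hx, (su_reg.1 h).1⟩,
      ⟨x.2, Ideal.mem_map_of_mem (RingHom.snd _ _) hx, (su_reg.1 h).2⟩⟩
  have a2 : ∀ {A B : Type} [CommRing A] [CommRing B] {I : Ideal A} {J : Ideal B}, Reg I → Reg J →
      Reg (I.prod J) := fun ⟨x, hx, h⟩ ⟨y, hy, h'⟩ => ⟨(x, y), ⟨hx, hy⟩, su_reg.2 ⟨h, h'⟩⟩
  have a3 : ∀ {A B : Type} [CommRing A] [CommRing B] (X Y : Ideal (A × B)), X ≤ Y ↔
      X.map (RingHom.fst A B) ≤ Y.map (RingHom.fst A B) ∧
        X.map (RingHom.snd A B) ≤ Y.map (RingHom.snd A B) := fun X Y =>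
    ⟨fun h => ⟨Ideal.map_mono h, Ideal.map_mono h⟩, fun h => by
      rw [X.ideal_prod_eq, Y.ideal_prod_eq]
      exact Ideal.prod_mono h.1 h.2⟩
  refine ⟨⟨fun X => (X.map (RingHom.fst P R)).prod (r.F (X.map (RingHom.snd P R))),
    fun h => a2 (a1 h).1 (r.reg (a1 h).2), fun hX hY => ?_, fun hX hY => ?_, fun Z hZ => ?_⟩⟩
  · rw [a3, a3]
    simp only [Ideal.map_fst_prod, Ideal.map_snd_prod, r.le_iff (a1 hX).2 (a1 hY).2]
  · rw [Ideal.ideal_prod_eq (Ideal.prod _ _ * Ideal.prod _ _)]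
    simp only [Ideal.map_mul, Ideal.map_fst_prod, Ideal.map_snd_prod, r.map_mul (a1 hX).2 (a1 hY).2]
  · obtain ⟨X, hX, e⟩ := r.surj _ (a1 hZ).2
    refine ⟨(Z.map (RingHom.fst P S)).prod X, a2 (a1 hZ).1 hX, ?_⟩
    rw [Ideal.map_fst_prod, Ideal.map_snd_prod, e, ← Z.ideal_prod_eq]

open Polynomial

/-- The polynomial with the same factorisation pattern as `n`. -/
noncomputable def suPhi (n : ℕ) : ℚ[X] := n.factorization.prod fun p e => (X - C (p : ℚ)) ^ e

lemma suPhi_mul {m n : ℕ} (hm : m ≠ 0) (hn : n ≠ 0) : suPhi (m * n) = suPhi m * suPhi n := by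
  rw [suPhi, Nat.factorization_mul hm hn,
    Finsupp.prod_add_index' (fun _ => pow_zero _) fun _ _ _ => pow_add _ _ _]
  rfl

variable {L : Type} [Field L] [CharZero L]

/-- The elements integral at all prime indices. -/
def suB (v : ℕ → Valuation L (WithZero (Multiplicative ℤ))) : Subring L :=
  ⨅ p : Nat.Primes, (v p).integer

omit [CharZero L] in
lemma mem_suB {v : ℕ → Valuation L (WithZero (Multiplicative ℤ))} {g : L} :
    g ∈ suB v ↔ ∀ p : ℕ, p.Prime → v p g ≤ 1 :=
  Subring.mem_iInf.trans ⟨fun h p hp => h ⟨p, hp⟩, fun h p => h p p.2⟩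

lemma su_mem (S : Subring L) (hq : ∀ q : ℚ, (q : L) ∈ S) {σ : L} (hσ : σ ∈ S) (G : ℚ[X]) :
    aeval σ G ∈ S := by
  induction G using Polynomial.induction_on' with
  | add p q hp hq => rw [map_add]; exact S.add_mem hp hq
  | monomial n a => rw [aeval_monomial]; exact S.mul_mem (hq a) (S.pow_mem hσ n)

section
variable {σ : L} {v : ℕ → Valuation L (WithZero (Multiplicative ℤ))}
  (h0 : ∀ a (q : ℚ), q ≠ 0 → v a (q : L) = 1) (h1 : ∀ a : ℕ, v a (σ - (a : L)) = exp (-1))
  (h3 : ∀ γ : L, γ ≠ 0 → {a | v a γ ≠ 1}.Finite)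
include h0 h1

lemma su_le (a : ℕ) (G : ℚ[X]) : v a (aeval σ G) ≤ 1 := by
  have hq : ∀ q : ℚ, (q : L) ∈ (v a).integer := fun q => by
    rcases eq_or_ne q 0 with rfl | h
    · rw [Rat.cast_zero]; exact zero_mem _
    · exact (h0 a q h).le
  refine su_mem (v a).integer hq ?_ G
  rw [← sub_add_cancel σ (a : L)]
  exact add_mem ((h1 a).trans_le (exp_le_exp.2 (show (-1 : ℤ) ≤ 0 by norm_num))) (natCast_mem _ a)

lemma su_ne {a b : ℕ} (h : b ≠ a) : v a (σ - (b : L)) = 1 := by
  have e := h0 a ((a : ℚ) - b) (sub_ne_zero.2 (by exact_mod_cast h.symm))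
  push_cast at e
  rw [show σ - (b : L) = σ - a + ((a : L) - b) by ring, Valuation.map_add_eq_of_lt_right, e]
  rw [e, h1]
  exact exp_lt_exp.2 (show (-1 : ℤ) < 0 by norm_num)

lemma su_val (a n : ℕ) : v a (aeval σ (suPhi n)) = exp (-(n.factorization a : ℤ)) := by
  simp only [suPhi, Finsupp.prod, map_prod, map_pow, map_sub, aeval_X, map_natCast]
  rw [Finset.prod_eq_single a (fun b _ h => by rw [su_ne h0 h1 h, one_pow])
    fun h => by rw [Finsupp.notMem_support_iff.1 h, pow_zero], h1, ← exp_nsmul]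
  simp

lemma su_ne_zero (n : ℕ) : aeval σ (suPhi n) ≠ 0 := fun h =>
  exp_ne_zero ((su_val h0 h1 0 n).symm.trans (by rw [h, map_zero]))

lemma su_in (G : ℚ[X]) : aeval σ G ∈ suB v := mem_suB.2 fun p _ => su_le h0 h1 p G

include h3

/-- Clearing the poles. -/
lemma su_pole {g : L} (hg : g ≠ 0) : ∃ n : ℕ, n ≠ 0 ∧ g * aeval σ (suPhi n) ∈ suB v ∧
    ∀ p : ℕ, p.Prime → (n.factorization p : ℤ) = max (log (v p g)) 0 := by
  classical
  let f : ℕ →₀ ℕ := Finsupp.onFinset (h3 g hg).toFinset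
    (fun p => if p.Prime then (log (v p g)).toNat else 0) fun p hp =>
      (Set.Finite.mem_toFinset _).2 fun e => hp (by simp [e])
  have hf : ∀ p ∈ f.support, p.Prime := fun p hp => by
    by_contra h
    exact Finsupp.mem_support_iff.1 hp (if_neg h)
  have e : ∀ p : ℕ, p.Prime → ((f.prod (· ^ ·)).factorization p : ℤ) = max (log (v p g)) 0 :=
    fun p hp => by
      rw [Nat.prod_pow_factorization_eq_self hf, ← Int.ofNat_toNat]
      exact congrArg _ (if_pos hp)
  refine ⟨_, Finsupp.prod_ne_zero_iff.2 fun p hp => pow_ne_zero _ (hf p hp).ne_zero,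
    mem_suB.2 fun p hp => ?_, e⟩
  rw [map_mul, su_val h0 h1, e p hp, ← exp_log ((v p).ne_zero_iff.2 hg), log_exp, ← exp_add]
  exact exp_le_exp.2 (show _ ≤ (0 : ℤ) by omega)

lemma su_assoc {g : L} (hg : g ≠ 0) (hB : g ∈ suB v) : ∃ n : ℕ, n ≠ 0 ∧
    ∀ p : ℕ, p.Prime → v p g = v p (aeval σ (suPhi n)) := by
  obtain ⟨n, n0, -, e⟩ := su_pole h0 h1 h3 (inv_ne_zero hg)
  refine ⟨n, n0, fun p hp => ?_⟩
  have v0 := (v p).ne_zero_iff.2 hg
  have := (log_le_iff_le_exp v0 (a := 0)).2 (mem_suB.1 hB p hp)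
  rw [su_val h0 h1, e p hp, map_inv₀, log_inv, max_eq_left (by omega), neg_neg, exp_log v0]

omit h0 h1 h3 [CharZero L] in
lemma su_dvd {g h : suB v} (hh : (h : L) ≠ 0) :
    h ∣ g ↔ ∀ p : ℕ, p.Prime → v p (g : L) ≤ v p (h : L) := by
  refine ⟨?_, fun H => ⟨⟨g / h, mem_suB.2 fun p hp => ?_⟩, Subtype.ext ?_⟩⟩
  · rintro ⟨c, rfl⟩ p hp
    rw [Subring.coe_mul, map_mul]
    exact mul_le_of_le_one_right' (mem_suB.1 c.2 p hp)
  · rw [map_div₀]
    exact div_le_one_of_le₀ (H p hp) zero_le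
  · exact (mul_div_cancel₀ _ hh).symm

lemma su_rmodel : Nonempty (RModel ℤ (suB v)) := by
  let ψ : ℚ[X] →+* suB v := (aeval σ).toRingHom.codRestrict _ (su_in h0 h1)
  have z : ∀ n, (ψ (suPhi n) : L) ≠ 0 := su_ne_zero h0 h1
  have rg : ∀ {X : Ideal ℤ}, Reg X → X.absNorm ≠ 0 := fun ⟨x, hx, h⟩ e =>
    nonZeroDivisors.ne_zero h (by rwa [Ideal.absNorm_eq_zero_iff.1 e] at hx)
  have as : ∀ g : suB v, g ≠ 0 → ∃ n : ℕ, n ≠ 0 ∧ Associated g (ψ (suPhi n)) := fun g hg => by
    have g0 : (g : L) ≠ 0 := fun e => hg (Subtype.ext e)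
    obtain ⟨n, n0, e⟩ := su_assoc h0 h1 h3 g0 g.2
    exact ⟨n, n0, associated_of_dvd_dvd ((su_dvd g0).2 fun p hp => (e p hp).ge)
      ((su_dvd (z n)).2 fun p hp => (e p hp).le)⟩
  refine ⟨⟨fun X => Ideal.span {ψ (suPhi X.absNorm)}, fun _ => ⟨_, Ideal.mem_span_singleton_self _,
    mem_nonZeroDivisors_of_ne_zero fun e => z _ (congrArg Subtype.val e)⟩, fun {X Y} hX hY => ?_,
    fun hX hY => ?_, fun Z hZ => ?_⟩⟩
  · conv_rhs => rw [← Int.ideal_span_absNorm_eq_self X, ← Int.ideal_span_absNorm_eq_self Y]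
    rw [Ideal.span_singleton_le_span_singleton, Ideal.span_singleton_le_span_singleton,
      Int.natCast_dvd_natCast, ← Nat.factorization_prime_le_iff_dvd (rg hY) (rg hX), su_dvd (z _)]
    refine forall₂_congr fun p _ => ?_
    change v p (aeval σ _) ≤ v p (aeval σ _) ↔ _
    rw [su_val h0 h1, su_val h0 h1, exp_le_exp, neg_le_neg_iff, Nat.cast_le]
  · rw [map_mul, suPhi_mul (rg hX) (rg hY), map_mul, Ideal.span_singleton_mul_span_singleton]
  · obtain ⟨G, hG⟩ := (IsPrincipalIdealRing.principal (Z.comap ψ)).principal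
    have e : Z = Ideal.span {ψ G} := by
      refine le_antisymm (fun g hg => ?_) ((Ideal.span_singleton_le_iff_mem _).2
        (Ideal.mem_comap.1 (hG ▸ Ideal.mem_span_singleton_self G)))
      rcases eq_or_ne g 0 with rfl | g0
      · exact zero_mem _
      obtain ⟨n, -, a⟩ := as g g0
      have : suPhi n ∈ Z.comap ψ := Z.mem_of_dvd a.dvd hg
      rw [hG] at this
      exact Ideal.mem_span_singleton.2
        ((map_dvd ψ (Ideal.mem_span_singleton.1 this)).trans a.symm.dvd)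
    obtain ⟨x, hx, h⟩ := hZ
    obtain ⟨n, n0, a⟩ := as (ψ G) fun e' =>
      nonZeroDivisors.ne_zero h (by rwa [e, e', Ideal.span_singleton_zero] at hx)
    refine ⟨Ideal.span {(n : ℤ)}, ⟨_, Ideal.mem_span_singleton_self _,
      mem_nonZeroDivisors_of_ne_zero (by exact_mod_cast n0)⟩, ?_⟩
    rw [e, Ideal.absNorm_span_singleton, Algebra.norm_self, MonoidHom.id_apply, Int.natAbs_natCast]
    exact Ideal.span_singleton_eq_span_singleton.2 a.symm

variable (K : Subfield L) (hσ : σ ∈ K)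
  (h4 : ∀ a (β : L), v a β ≤ 1 → ∃ κ ∈ K, v a (β - κ) < 1)
include hσ h4

omit h0 h1 h3 h4 in
lemma su_K (G : ℚ[X]) : aeval σ G ∈ K := su_mem K.toSubring (SubfieldClass.ratCast_mem K) hσ G

lemma su_res {p : ℕ} (hp : p.Prime) {β : L} (hβ : v p β ≤ 1) :
    ∃ κ ∈ K, κ ∈ suB v ∧ v p (β - κ) < 1 := by
  obtain ⟨κ, k1, k2⟩ := h4 p β hβ
  rcases eq_or_ne κ 0 with rfl | k0
  · exact ⟨0, k1, zero_mem _, k2⟩
  have k3 : v p κ ≤ 1 := by
    rw [← sub_sub_cancel β κ]
    exact (v p).map_sub_le hβ k2.le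
  obtain ⟨n, -, a, e⟩ := su_pole h0 h1 h3 k0
  obtain ⟨R, hR⟩ := X_sub_C_dvd_sub_C_eval (a := (p : ℚ)) (p := suPhi n)
  obtain ⟨c, hc⟩ : ∃ c, c = eval (p : ℚ) (suPhi n) := ⟨_, rfl⟩
  have b1 : v p (aeval σ (suPhi n) - (c : L)) < 1 := by
    have := congrArg (aeval σ) hR
    simp only [map_sub, map_mul, aeval_X, aeval_C, map_natCast, eq_ratCast, ← hc] at this
    rw [this, map_mul, h1]
    exact (mul_le_of_le_one_right' (su_le h0 h1 p R)).trans_lt
      (exp_lt_exp.2 (show (-1 : ℤ) < 0 by norm_num))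
  have c0 : c ≠ 0 := fun h => by
    rw [h, Rat.cast_zero, sub_zero, su_val h0 h1, e p hp, max_eq_right
      ((log_le_iff_le_exp ((v p).ne_zero_iff.2 k0)).2 k3)] at b1
    exact lt_irrefl _ b1
  have c1 : (c : L) ≠ 0 := by exact_mod_cast c0
  refine ⟨κ * aeval σ (suPhi n) / c, div_mem (mul_mem k1 (su_K K hσ _))
    (SubfieldClass.ratCast_mem K c), mem_suB.2 fun q hq => ?_, ?_⟩
  · rw [map_div₀, h0 q c c0, div_one]
    exact mem_suB.1 a q hq
  · rw [show β - κ * aeval σ (suPhi n) / c = β - κ - κ * (aeval σ (suPhi n) - c) / c by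
      field_simp; ring]
    refine (v p).map_sub_lt k2 ?_
    rw [map_div₀, h0 p c c0, div_one, map_mul]
    exact (mul_le_of_le_one_left' k3).trans_lt b1

lemma su_sum (γ : L) : ∃ κ ∈ K, γ - κ ∈ suB v := by
  rcases eq_or_ne γ 0 with rfl | g0
  · exact ⟨0, zero_mem _, by rw [sub_zero]; exact zero_mem _⟩
  obtain ⟨n, n0, a, -⟩ := su_pole h0 h1 h3 g0
  clear g0
  induction n using induction_on_primes generalizing γ with
  | zero => exact absurd rfl n0
  | one => exact ⟨0, zero_mem _, by simpa [suPhi] using a⟩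
  | prime_mul p m hp ih =>
    have m0 : m ≠ 0 := right_ne_zero_of_mul n0
    have e : aeval σ (suPhi p) = σ - p := by simp [suPhi, hp.factorization]
    have z := su_ne_zero h0 h1 m
    have z' : σ - p ≠ 0 := e ▸ su_ne_zero h0 h1 p
    rw [suPhi_mul hp.ne_zero m0, map_mul, e] at a
    obtain ⟨κ, k1, k2, k3⟩ := su_res h0 h1 h3 K hσ h4 hp (mem_suB.1 a p hp)
    obtain ⟨κ', k4, k5⟩ := ih (γ - κ / ((σ - p) * aeval σ (suPhi m))) m0 (mem_suB.2 fun q hq => by
      rw [show (γ - κ / ((σ - p) * aeval σ (suPhi m))) * aeval σ (suPhi m) =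
        (γ * ((σ - p) * aeval σ (suPhi m)) - κ) / (σ - p) by field_simp, map_div₀]
      rcases eq_or_ne p q with rfl | h
      · refine div_le_one_of_le₀ ((lt_mul_exp_iff_le (h1 p ▸ exp_ne_zero)).1 ?_) zero_le
        rwa [h1, ← exp_add]
      · rw [su_ne h0 h1 h, div_one]
        exact mem_suB.1 (sub_mem a k2) q hq)
    exact ⟨_ + κ', add_mem (div_mem k1 (mul_mem (sub_mem hσ (natCast_mem K p)) (su_K K hσ _))) k4,
      by rwa [← sub_sub]⟩

lemma su_dense (γ : L) {w : L} (hw : w ≠ 0) : ∃ κ ∈ K, (γ - κ) / w ∈ suB v := by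
  obtain ⟨n, -, a, -⟩ := su_pole h0 h1 h3 (inv_ne_zero hw)
  have z := su_ne_zero h0 h1 n
  obtain ⟨κ, k1, k2⟩ := su_sum h0 h1 h3 K hσ h4 (γ / aeval σ (suPhi n))
  refine ⟨κ * aeval σ (suPhi n), mul_mem k1 (su_K K hσ _), ?_⟩
  convert mul_mem a k2 using 1
  field_simp

end

theorem suff {k P L : Type} [Field k] [CommRing P] [IsDomain P] [Field L] [CharZero L]
    (i : k →+* P) (j : P →+* L) (hj : Function.Injective j) (s : k)
    (v : ℕ → Valuation L (WithZero (Multiplicative ℤ)))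
    (h0 : ∀ a (q : ℚ), q ≠ 0 → v a (q : L) = 1)
    (h1 : ∀ a : ℕ, v a (j (i s) - (a : L)) = exp (-1))
    (h3 : ∀ γ : L, γ ≠ 0 → {a | v a γ ≠ 1}.Finite)
    (h4 : ∀ a (β : L), v a β ≤ 1 → ∃ κ : k, v a (β - j (i κ)) < 1) :
    HasDomainModel.{0, 0} (P × ℤ) := by
  obtain ⟨r⟩ := su_rmodel h0 h1 h3
  obtain ⟨r'⟩ := su_prod (P := P) r
  refine r'.hasDomainModel (hasDomainModel_of_subring' (RingHom.eqLocus (j.comp (RingHom.fst _ _))
    ((suB v).subtype.comp (RingHom.snd _ _))) (fun a ha a0 => ?_) fun t ht x => ?_)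
  · have e : j a.1 = a.2 := ha
    have a1 : a.1 ≠ 0 := fun h => a0 (Prod.ext h (Subtype.ext (by rw [← e, h, map_zero]; rfl)))
    exact su_reg.2 ⟨mem_nonZeroDivisors_of_ne_zero a1, mem_nonZeroDivisors_of_ne_zero fun h =>
      a1 (hj (by rw [e, h, map_zero]; rfl))⟩
  · have t1 : j t.1 ≠ 0 := (map_ne_zero_iff j hj).2 (nonZeroDivisors.ne_zero (su_reg.1 ht).1)
    have t2 : (t.2 : L) ≠ 0 := fun h => nonZeroDivisors.ne_zero (su_reg.1 ht).2 (Subtype.ext h)
    obtain ⟨_, ⟨κ, rfl⟩, hκ⟩ := su_dense h0 h1 h3 (j.comp i).fieldRange ⟨s, rfl⟩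
      (fun a β h => (h4 a β h).elim fun κ e => ⟨_, ⟨κ, rfl⟩, e⟩) ((x.2 - j x.1) / j t.1)
      (div_ne_zero t2 t1)
    refine ⟨(x.1 + t.1 * i κ, x.2 - t.2 * ⟨_, hκ⟩), ?_, (-i κ, ⟨_, hκ⟩), Prod.ext ?_ ?_⟩
    · change j (x.1 + t.1 * i κ) =
        (x.2 : L) - t.2 * (((x.2 - j x.1) / j t.1 - j (i κ)) / (t.2 / j t.1))
      rw [map_add, map_mul]
      field_simp
      ring
    · simp
    · simp

end Pool.Agent.MP_f1fec5_al.Sig

end

-- part MP_f1fec5_al.Sig.Lau
section

/-! The field of Laurent series. -/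

namespace Pool.Agent.MP_f1fec5_al.Sig

abbrev LE : Type := LaurentSeries ℂ

/-- the valuation of the field of Laurent series -/
noncomputable def vE : Valuation LE (WithZero (Multiplicative ℤ)) := Valued.v

/-- rational power series as Laurent series -/
noncomputable def j0 : PowerSeries ℚ →+* LE :=
  (algebraMap (PowerSeries ℂ) LE).comp (PowerSeries.map (algebraMap ℚ ℂ))

end Pool.Agent.MP_f1fec5_al.Sig

end

-- part MP_f1fec5_al.Sig.Tau
section

/-! A branch embeds the field in the Laurent series. -/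

namespace Pool.Agent.MP_f1fec5_al.Sig

open Polynomial

lemma tau_unit_root (u : PowerSeries ℂ) (hu : PowerSeries.constantCoeff u ≠ 0) {N : ℕ} (hN : 0 < N) :
    ∃ w, w ^ N = u := by
  obtain ⟨c, hc⟩ := IsAlgClosed.exists_pow_nat_eq (PowerSeries.constantCoeff u) hN
  have hc0 : c ≠ 0 := by
    rintro rfl
    exact hu (by rw [← hc, zero_pow hN.ne'])
  obtain ⟨w, hw, -⟩ := HenselianRing.is_henselian (I := Ideal.span {(PowerSeries.X : PowerSeries ℂ)})
    (X ^ N - C u) (monic_X_pow_sub_C u hN.ne') (PowerSeries.C c)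
    (by rw [Ideal.mem_span_singleton, PowerSeries.X_dvd_iff]; simp [hc])
    (IsUnit.map _ (by
      rw [PowerSeries.isUnit_iff_constantCoeff]
      simp only [derivative_sub, derivative_X_pow, map_natCast, derivative_C, sub_zero, eval_mul, eval_natCast, eval_pow, eval_X, map_mul, map_pow, PowerSeries.constantCoeff_C, isUnit_iff_ne_zero, ne_eq, mul_eq_zero, Nat.cast_eq_zero, hN.ne', pow_eq_zero_iff', hc0, false_and, or_self, not_false_eq_true]))
  exact ⟨w, by simpa [sub_eq_zero] using hw⟩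

lemma tau_root (g : PowerSeries ℚ) {N : ℕ} (hN : 0 < N) (h : N ∣ g.order.toNat) :
    ∃ w : LE, w ^ N = j0 g := by
  rcases eq_or_ne g 0 with rfl | hg
  · exact ⟨0, by rw [zero_pow hN.ne', map_zero]⟩
  obtain ⟨j, hj⟩ := h
  obtain ⟨w, hw⟩ := tau_unit_root (PowerSeries.map (algebraMap ℚ ℂ) g.divXPowOrder) (by
    rw [← PowerSeries.coeff_zero_eq_constantCoeff_apply, PowerSeries.coeff_map,
      PowerSeries.coeff_zero_eq_constantCoeff_apply, _root_.map_ne_zero]
    exact mt PowerSeries.constantCoeff_divXPowOrder_eq_zero_iff.1 hg) hN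
  refine ⟨j0 PowerSeries.X ^ j * algebraMap (PowerSeries ℂ) LE w, ?_⟩
  rw [← PowerSeries.X_pow_order_mul_divXPowOrder (f := g), hj, mul_pow, ← map_pow _ w, hw, map_mul,
    map_pow, pow_mul']
  rfl

lemma tau_range {K : Type} [Field K] (i : LE →+* K) {y : K} {w : LE} {N : ℕ} (hN : 0 < N)
    (h : y ^ N = i (w ^ N)) : y ∈ i.fieldRange := by
  rcases eq_or_ne w 0 with rfl | hw
  · rw [zero_pow hN.ne', map_zero, pow_eq_zero_iff hN.ne'] at h
    exact h ▸ zero_mem _
  let _ : Algebra ℂ K := (i.comp HahnSeries.C).toAlgebra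
  have h0 : i w ≠ 0 := (_root_.map_ne_zero i).2 hw
  have h1 : IsIntegral ℂ (y / i w) := IsIntegral.of_pow hN (by
    rw [div_pow, h, map_pow, div_self (pow_ne_zero _ h0)]; exact isIntegral_one)
  obtain ⟨c, hc⟩ := minpoly.mem_range_of_degree_eq_one ℂ _
    (IsAlgClosed.degree_eq_one_of_irreducible ℂ (minpoly.irreducible h1))
  exact ⟨HahnSeries.C c * w, by
    rw [map_mul, show i (HahnSeries.C c) = y / i w from hc, div_mul_cancel₀ _ h0]⟩

lemma tau_j0_injective : Function.Injective j0 :=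
  (IsFractionRing.injective (PowerSeries ℂ) LE).comp
    (PowerSeries.map_injective _ (algebraMap ℚ ℂ).injective)

theorem exists_tau {T : List ℕ → Prop} {b : ℕ → ℕ} (hb : ∀ n, T (pre b n)) (a : ℕ) :
    ∃ τ : kT T →+* LE, ∀ f : Q, τ ⟨algebraMap Q Om f, toOm_mem T f⟩ = j0 (arc a b f) := by
  let i := algebraMap LE (AlgebraicClosure LE)
  let _ : Algebra Q (AlgebraicClosure LE) := (i.comp (j0.comp (arc a b))).toAlgebra
  have : FaithfulSMul Q (AlgebraicClosure LE) := (faithfulSMul_iff_algebraMap_injective _ _).2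
    (i.injective.comp (tau_j0_injective.comp (arc_injective a b)))
  let σ : Om →ₐ[Q] AlgebraicClosure LE := IsAlgClosed.lift
  have hσ : ∀ f : Q, σ (algebraMap Q Om f) = i (j0 (arc a b f)) := σ.commutes
  have hle : kT T ≤ i.fieldRange.comap σ.toRingHom := by
    refine Subfield.closure_le.2 ?_
    rintro y (⟨f, rfl⟩ | ⟨f, N, ⟨hN, n, hn⟩, hy⟩)
    · exact ⟨_, (hσ f).symm⟩
    · obtain ⟨w, hw⟩ := tau_root _ hN (hn a b (hb n))
      exact tau_range i (y := σ y) hN (by rw [← map_pow, hy, hσ, hw])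
  refine ⟨i.rangeRestrictFieldEquiv.symm.toRingHom.comp
    ((σ.toRingHom.comp (kT T).subtype).codRestrict i.fieldRange fun y => hle y.2), fun f => ?_⟩
  exact i.rangeRestrictFieldEquiv.symm_apply_eq.2 (Subtype.ext (hσ f))

end Pool.Agent.MP_f1fec5_al.Sig

end

-- part MP_f1fec5_al.Sig.Ext
section

/-! Adjoining a variable to a family of embeddings of finite character. -/

namespace Pool.Agent.MP_f1fec5_al.Sig

open Polynomial

lemma ext_le (f : PowerSeries ℂ) : vE (algebraMap (PowerSeries ℂ) LE f) ≤ 1 :=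
  (LaurentSeries.val_le_one_iff_eq_coe ℂ _).2 ⟨f, rfl⟩

lemma ext_unit {f : PowerSeries ℂ} (hf : PowerSeries.constantCoeff f ≠ 0) :
    vE (algebraMap (PowerSeries ℂ) LE f) = 1 := by
  obtain ⟨g, hg⟩ := (PowerSeries.isUnit_iff_constantCoeff.2 (isUnit_iff_ne_zero.2 hf)).exists_right_inv
  have h : vE (algebraMap (PowerSeries ℂ) LE f) * vE (algebraMap (PowerSeries ℂ) LE g) = 1 := by
    rw [← map_mul, ← map_mul, hg, map_one, map_one]
  refine le_antisymm (ext_le f) ?_
  calc (1 : WithZero (Multiplicative ℤ)) = _ := h.symm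
    _ ≤ vE (algebraMap (PowerSeries ℂ) LE f) * 1 := by gcongr; exact ext_le g
    _ = _ := mul_one _

lemma ext_const {f : PowerSeries ℂ} (hf : vE (algebraMap (PowerSeries ℂ) LE f) = 1) :
    PowerSeries.constantCoeff f ≠ 0 := by
  intro h
  have h1 : vE (algebraMap (PowerSeries ℂ) LE f) ≤ WithZero.exp (-((1 : ℕ) : ℤ)) := by
    refine (LaurentSeries.intValuation_le_iff_coeff_lt_eq_zero ℂ f).2 fun n hn => ?_
    obtain rfl : n = 0 := by omega
    simpa only [PowerSeries.coeff_zero_eq_constantCoeff] using h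
  rw [hf, ← WithZero.exp_zero, WithZero.exp_le_exp] at h1
  omega

lemma ext_bad {q : LE[X]} (hq : q ≠ 0) (h : ∀ i, q.coeff i ≠ 0 → vE (q.coeff i) = 1) :
    ∃ B : Set ℚ, B.Finite ∧ ∀ η : PowerSeries ℚ, PowerSeries.constantCoeff η ∉ B →
      vE (q.eval (j0 η)) = 1 := by
  have hl : q ∈ lifts (algebraMap (PowerSeries ℂ) LE) := by
    refine (lifts_iff_coeff_lifts _).2 fun i => ?_
    by_cases h0 : q.coeff i = 0
    · exact ⟨0, by rw [h0, map_zero]⟩
    · exact (LaurentSeries.val_le_one_iff_eq_coe ℂ _).1 (h i h0).le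
  obtain ⟨r, rfl⟩ := hl
  rw [coe_mapRingHom] at hq h ⊢
  have hr : r.map (PowerSeries.constantCoeff (R := ℂ)) ≠ 0 := by
    intro h0
    refine hq (Polynomial.ext fun i => ?_)
    by_contra hi
    have h1 := h i (by simpa only [coeff_map, LaurentSeries.coe_algebraMap, ne_eq, coeff_zero] using hi)
    rw [coeff_map] at h1
    refine ext_const h1 ?_
    rw [← coeff_map, h0, coeff_zero]
  refine ⟨algebraMap ℚ ℂ ⁻¹' {x | IsRoot (r.map (PowerSeries.constantCoeff (R := ℂ))) x},
    (finite_setOfPred_isRoot hr).preimage (algebraMap ℚ ℂ).injective.injOn, fun η hη => ?_⟩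
  have e : (r.map (algebraMap (PowerSeries ℂ) LE)).eval (j0 η) =
      algebraMap (PowerSeries ℂ) LE (r.eval (PowerSeries.map (algebraMap ℚ ℂ) η)) := by
    rw [eval_map, j0, RingHom.comp_apply, eval₂_at_apply]
  rw [e]
  refine ext_unit fun h0 => hη ?_
  have e2 : algebraMap ℚ ℂ (PowerSeries.constantCoeff η) =
      PowerSeries.constantCoeff (PowerSeries.map (algebraMap ℚ ℂ) η) := by
    rw [← PowerSeries.coeff_zero_eq_constantCoeff_apply,
      ← PowerSeries.coeff_zero_eq_constantCoeff_apply, PowerSeries.coeff_map]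
  rw [Set.mem_preimage, Set.mem_ofPred_eq, IsRoot, e2, eval_map, eval₂_at_apply, h0]

lemma ext_j0 : Function.Injective j0 :=
  (IsFractionRing.injective (PowerSeries ℂ) LE).comp
    (PowerSeries.map_injective _ (algebraMap ℚ ℂ).injective)

lemma ext_unc : Uncountable (PowerSeries ℚ) := by
  have h : Uncountable (ℕ → ℚ) := by
    rw [← Cardinal.aleph0_lt_mk_iff]
    simpa using Cardinal.aleph0_lt_continuum
  refine Function.Injective.uncountable (f := (PowerSeries.mk : (ℕ → ℚ) → PowerSeries ℚ)) ?_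
  intro f g hfg
  funext n
  simpa using congrArg (PowerSeries.coeff n) hfg

lemma ext_avoid (α : ℚ) {S : Set LE} (hS : S.Countable) :
    ∃ η : PowerSeries ℚ, PowerSeries.constantCoeff η = α ∧ j0 η ∉ S := by
  have := ext_unc
  have hi : Function.Injective
      fun g : PowerSeries ℚ => j0 (PowerSeries.C α + PowerSeries.X * g) := fun f g h =>
    mul_left_cancel₀ PowerSeries.X_ne_zero (add_left_cancel (ext_j0 h))
  by_contra hc
  refine Set.not_countable_univ ((hS.preimage_of_injOn hi.injOn).mono fun g _ => ?_)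
  by_contra hg
  exact hc ⟨_, by simp, hg⟩

theorem exists_ext {A : Type} [CommRing A] [Countable A] (τ : ℕ → A →+* LE)
    (hinj : ∀ a, Function.Injective (τ a))
    (hfin : ∀ γ : A, γ ≠ 0 → {a | vE (τ a γ) ≠ 1}.Finite) :
    ∃ η : ℕ → PowerSeries ℚ, (∀ a, Function.Injective (eval₂RingHom (τ a) (j0 (η a)))) ∧
      ∀ p : A[X], p ≠ 0 → {a | vE (eval₂RingHom (τ a) (j0 (η a)) p) ≠ 1}.Finite := by
  obtain ⟨e, he⟩ := exists_injective_nat A[X]
  have key : ∀ a : ℕ, ∃ η : PowerSeries ℚ,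
      Function.Injective (eval₂RingHom (τ a) (j0 η)) ∧ ∀ p : A[X], p ≠ 0 → e p ≤ a →
        (∀ i, p.coeff i ≠ 0 → vE (τ a (p.coeff i)) = 1) →
          vE (eval₂RingHom (τ a) (j0 η) p) = 1 := by
    intro a
    have hm : ∀ p : A[X], p ≠ 0 → p.map (τ a) ≠ 0 := fun p hp =>
      (Polynomial.map_ne_zero_iff (hinj a)).2 hp
    have hB : ∀ p : A[X], ∃ B : Set ℚ, B.Finite ∧ (p ≠ 0 →
        (∀ i, p.coeff i ≠ 0 → vE (τ a (p.coeff i)) = 1) → ∀ η : PowerSeries ℚ,
          PowerSeries.constantCoeff η ∉ B → vE ((p.map (τ a)).eval (j0 η)) = 1) := by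
      intro p
      by_cases hp : p ≠ 0 ∧ ∀ i, p.coeff i ≠ 0 → vE (τ a (p.coeff i)) = 1
      · obtain ⟨B, h1, h2⟩ := ext_bad (hm p hp.1) fun i hi => by
          rw [coeff_map] at hi ⊢
          exact hp.2 i fun h0 => hi (by rw [h0, map_zero])
        exact ⟨B, h1, fun _ _ => h2⟩
      · exact ⟨∅, Set.finite_empty, fun h1 h2 => absurd ⟨h1, h2⟩ hp⟩
    choose B hB1 hB2 using hB
    have hf : (⋃ p ∈ e ⁻¹' Set.Iic a, B p).Finite :=
      ((Set.finite_Iic a).preimage he.injOn).biUnion fun p _ => hB1 p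
    obtain ⟨α, hα⟩ := hf.exists_notMem
    have hc : (⋃ p ∈ {p : A[X] | p ≠ 0}, {x | IsRoot (p.map (τ a)) x}).Countable :=
      (Set.to_countable _).biUnion fun p hp => (finite_setOfPred_isRoot (hm p hp)).countable
    obtain ⟨η, h1, h2⟩ := ext_avoid α hc
    refine ⟨η, (injective_iff_map_eq_zero _).2 fun p hp => ?_, fun p hp hpa hv => ?_⟩
    · by_contra h0
      refine h2 (Set.mem_biUnion (x := p) h0 ?_)
      rw [Set.mem_ofPred_eq, IsRoot, eval_map]
      exact hp
    · rw [coe_eval₂RingHom, ← eval_map]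
      refine hB2 p hp hv η fun hb => hα (Set.mem_biUnion (x := p) hpa ?_)
      rwa [← h1]
  choose η h1 h2 using key
  refine ⟨η, h1, fun p hp => ?_⟩
  refine ((Set.finite_Iic (e p)).union (p.support.finite_toSet.biUnion
    fun i hi => hfin (p.coeff i) (mem_support_iff.1 hi))).subset fun a ha => ?_
  by_contra hn
  rw [Set.mem_union, not_or] at hn
  refine ha (h2 a p hp (not_le.1 hn.1).le fun i hi => ?_)
  by_contra hv
  exact hn.2 (Set.mem_biUnion (x := i) (mem_support_iff.2 hi) hv)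

end Pool.Agent.MP_f1fec5_al.Sig

end

-- part MP_f1fec5_al.Sig.Emb
section

/-! A branch gives a domain model. -/

namespace Pool.Agent.MP_f1fec5_al.Sig

open Polynomial

lemma j0_unit {η : PowerSeries ℚ} (h : PowerSeries.constantCoeff η ≠ 0) : vE (j0 η) = 1 :=
  ext_unit (by
    rwa [← PowerSeries.coeff_zero_eq_constantCoeff_apply, PowerSeries.coeff_map,
      PowerSeries.coeff_zero_eq_constantCoeff_apply, _root_.map_ne_zero])

lemma j0_C (q : ℚ) : j0 (PowerSeries.C q) = q := eq_ratCast (j0.comp PowerSeries.C) q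

lemma j0_mem {S : Subfield LE} (hX : j0 PowerSeries.X ∈ S) (η : PowerSeries ℚ) :
    j0 η ∈ S.topologicalClosure := by
  refine mem_closure_iff_nhds.2 fun t ht => ?_
  obtain ⟨γ, hγ⟩ := Valued.mem_nhds.1 ht
  obtain ⟨N, hN⟩ := WithZero.exists_exp_neg_natCast_lt
    (x := MonoidWithZeroHom.ValueGroup₀.embedding γ.1) (by simp)
  refine ⟨j0 (PowerSeries.trunc N η), hγ ?_, ?_⟩
  · rw [Set.mem_ofPred_eq, Valuation.restrict_lt_iff_lt_embedding, ← map_sub]
    refine lt_of_le_of_lt ((LaurentSeries.intValuation_le_iff_coeff_lt_eq_zero ℂ _).2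
      fun n hn => ?_) hN
    simp [PowerSeries.coeff_trunc, hn]
  · induction PowerSeries.trunc N η using Polynomial.induction_on' with
    | add p q hp hq => rw [coe_add, map_add]; exact add_mem hp hq
    | monomial n q =>
      rw [← C_mul_X_pow_eq_monomial, coe_mul, coe_C, coe_pow, coe_X, map_mul, map_pow, j0_C]
      exact mul_mem (SubfieldClass.ratCast_mem S q) (pow_mem hX n)

lemma near_of_mem {S : Subfield LE} {β : LE} (h : β ∈ S.topologicalClosure) :
    ∃ κ ∈ S, vE (β - κ) < 1 := by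
  obtain ⟨κ, h1, h2⟩ := mem_closure_iff_nhds.1 h _ (Valued.mem_nhds.2 ⟨1, subset_rfl⟩)
  refine ⟨κ, h2, ?_⟩
  rw [Valuation.map_sub_swap]
  exact (Valuation.restrict_lt_one_iff _).1 h1

lemma ev_mem {A : Type} [CommRing A] {S : Subfield LE} {τ : A →+* LE} (h : ∀ c, τ c ∈ S) {x : LE}
    (hx : x ∈ S) (p : A[X]) : eval₂RingHom τ x p ∈ S := by
  induction p using Polynomial.induction_on' with
  | add p q hp hq => rw [map_add]; exact add_mem hp hq
  | monomial n q =>
    rw [coe_eval₂RingHom, eval₂_monomial]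
    exact mul_mem (h q) (pow_mem hx n)

theorem model_of_Br {T : List ℕ → Prop} (h : Br T) :
    HasDomainModel.{0, 0} ((kT T)[X][X][X] × ℤ) := by
  obtain ⟨b, hb⟩ := h
  choose τ hτ using exists_tau hb
  let θ : Q →+* kT T := (algebraMap Q Om).codRestrict _ (toOm_mem T)
  have hθ : ∀ a f, τ a (θ f) = j0 (arc a b f) := hτ
  have f1 : ∀ γ : kT T, {a | ¬ vE (τ a γ) ≤ 1}.Finite := fun γ => by
    let _ := θ.toAlgebra
    have := IsScalarTower.of_algebraMap_eq (R := Q) (S := kT T) (A := Om) fun _ => rfl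
    obtain ⟨y, hy, hi⟩ := ((isAlgebraic_algebraMap_iff (R := Q) (A := Om) (a := γ)
      Subtype.val_injective).1 (Algebra.IsAlgebraic.isAlgebraic _)).exists_integral_multiple
    refine (al_spec hy).subset fun a ha => by_contra fun h0 => ha ?_
    have h1 : vE (τ a (y • γ)) ≤ 1 := mem_of_integral (vE.comap (τ a)).valuationSubring
      (fun f => show vE (τ a (θ f)) ≤ 1 from hθ a f ▸ ext_le _) hi
    rwa [Algebra.smul_def, map_mul, map_mul, show τ a (algebraMap Q (kT T) y) = _ from hθ a y,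
      j0_unit (arc_const a b y ▸ h0), one_mul] at h1
  have f2 : ∀ γ : kT T, γ ≠ 0 → {a | vE (τ a γ) ≠ 1}.Finite := fun γ hγ =>
    ((f1 γ).union (f1 γ⁻¹)).subset fun a ha => by_contra fun h0 => ha (by
      simp only [Set.mem_union, Set.mem_ofPred_eq, not_or, not_not, map_inv₀] at h0
      exact le_antisymm h0.1 ((inv_le_one₀ (zero_lt_iff.2 (by simpa only [ne_eq, map_eq_zero] using hγ))).1 h0.2))
  obtain ⟨η1, i1, g1⟩ := exists_ext τ (fun a => (τ a).injective) f2
  obtain ⟨η2, i2, g2⟩ := exists_ext _ i1 g1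
  obtain ⟨η3, i3, g3⟩ := exists_ext _ i2 g2
  let L := FractionRing (kT T)[X][X][X]
  let σ : ℕ → L →+* LE := fun a => IsFractionRing.lift (i3 a)
  have hσ : ∀ a p, σ a (algebraMap _ L p) = _ := fun a p => IsFractionRing.lift_algebraMap (i3 a) p
  have hσ' : ∀ a κ, σ a (algebraMap (kT T)[X][X][X] L (C (C (C κ)))) = τ a κ := fun a κ =>
    (hσ a _).trans ((eval₂_C _ _).trans ((eval₂_C _ _).trans (eval₂_C _ _)))
  have hX : ∀ a, τ a (θ (C X)) - a = j0 PowerSeries.X := fun a => by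
    rw [← arc_pi a b, hθ, map_sub C, map_sub, map_sub, arc_CC, j0_C, Rat.cast_natCast]
  refine suff (C.comp (C.comp C)) (algebraMap _ L) (IsFractionRing.injective _ _) (θ (C X))
    (fun a => vE.comap (σ a)) (fun a q hq => ?_) (fun a => ?_) (fun γ hγ => ?_) fun a β _ => ?_
  · rw [Valuation.comap_apply, map_ratCast, ← j0_C]
    exact j0_unit (by simpa using hq)
  · rw [Valuation.comap_apply, map_sub, map_natCast]
    refine (congrArg vE ((congrArg (· - (a : LE)) (hσ' a _)).trans (hX a))).trans ?_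
    simpa only [vE, j0, RingHom.coe_comp, LaurentSeries.coe_algebraMap, Function.comp_apply, PowerSeries.map_X, HahnSeries.ofPowerSeries_X, Int.reduceNeg, WithZero.exp_neg, pow_one, Nat.cast_one] using LaurentSeries.valuation_X_pow ℂ 1
  · obtain ⟨p, q, hq, rfl⟩ := IsFractionRing.div_surjective (A := (kT T)[X][X][X]) γ
    refine ((g3 p (by rintro rfl; simp at hγ)).union (g3 q (nonZeroDivisors.ne_zero hq))).subset
      fun a ha => by_contra fun h0 => ha ?_
    simp only [Set.mem_union, Set.mem_ofPred_eq, not_or, not_not] at h0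
    rw [Valuation.comap_apply, map_div₀, map_div₀, hσ, hσ, h0.1, h0.2, div_one]
  · have m0 : j0 PowerSeries.X ∈ (τ a).fieldRange :=
      hX a ▸ sub_mem ⟨_, rfl⟩ (natCast_mem _ a)
    have m1 := ev_mem (ev_mem (ev_mem (fun c => (τ a).fieldRange.le_topologicalClosure ⟨c, rfl⟩)
      (j0_mem m0 (η1 a))) (j0_mem m0 (η2 a))) (j0_mem m0 (η3 a))
    obtain ⟨p, q, -, rfl⟩ := IsFractionRing.div_surjective (A := (kT T)[X][X][X]) β
    obtain ⟨_, ⟨κ, rfl⟩, hκ⟩ := near_of_mem (div_mem (m1 p) (m1 q))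
    refine ⟨κ, ?_⟩
    rw [Valuation.comap_apply, map_sub, map_div₀, hσ a p, hσ a q]
    exact (congrArg (fun z => vE (_ - z)) (hσ' a κ)).trans_lt hκ

end Pool.Agent.MP_f1fec5_al.Sig

end

-- part MP_f1fec5_al.Sig.Iota
section

/-! The embedding of a model in the polynomial factor. -/

namespace Pool.Agent.MP_f1fec5_al.Sig

open Polynomial Ideal Aff Aff.ModelAux Pol

universe v

lemma rs_prod {P B : Type} [CommRing P] [CommRing B] {a b : P} (h : RS a b) :
    RS ((a, 1) : P × B) (b, 1) := by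
  have k : ∀ {a : P}, a ∈ nonZeroDivisors P → ((a, 1) : P × B) ∈ nonZeroDivisors (P × B) :=
    fun ha => mem_nonZeroDivisors_iff_left.2 fun r hr =>
      Prod.ext ((mem_nonZeroDivisors_iff_left.1 ha) _ (congrArg Prod.fst hr))
        (by simpa using congrArg Prod.snd hr)
  refine ⟨k h.r1, k h.r2, fun r ⟨c, hc⟩ => ?_⟩
  obtain ⟨c', hc'⟩ := h.dv r.1 ⟨c.1, congrArg Prod.fst hc⟩
  exact ⟨(c', r.2), Prod.ext hc' (by simp)⟩

lemma fst_ne_zero {P B : Type} [CommRing P] [CommRing B] [Nontrivial P] {s : P × B}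
    (hs : s ∈ nonZeroDivisors (P × B)) : s.1 ≠ 0 := fun h0 => by
  simpa using (mem_nonZeroDivisors_iff_left.1 hs) (1, 0) (Prod.ext (by simpa using h0) (by simp))

/-- first projection -/
def fs (P B : Type) [CommRing P] [CommRing B] : P × B →+* P := RingHom.fst P B

@[simp] lemma fs_apply {P B : Type} [CommRing P] [CommRing B] (z : P × B) : fs P B z = z.1 := rfl

lemma fs_mul {P B : Type} [CommRing P] [CommRing B] {I E : Ideal (P × B)} {s : P × B}
    (e : I * E = span {s}) : I.map (fs P B) * E.map (fs P B) = span {s.1} := by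
  rw [← Ideal.map_mul, e, map_span, Set.image_singleton, fs_apply]

section Pt

variable {A B : Type} {D : Type v} [CommRing A] [CommRing B] [CommRing D]
  (m : Model (A[X][X] × B) D)

/-- the coordinate homomorphism at a point -/
noncomputable def sp (g h : A) : D →+* A :=
  sig m (rs_prod (rs_pt g h)) ((evalEvalRingHom g h).comp (fs _ _)) (by simp) (by simp)

lemma sp_surj [IsDomain D] (g h : A) : Function.Surjective (sp m g h) := fun a => by
  obtain ⟨d, hd⟩ := sig_surj m (rs_prod (rs_pt g h))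
    (χ := (evalEvalRingHom g h).comp (fs _ _)) (by simp) (by simp only [map_sub, RingHom.coe_comp, coe_evalRingHom, Function.comp_apply, fs_apply, eval_sub, eval_C, eval_X, sub_self]) (C (C a), 0)
  exact ⟨d, hd.trans (evalEval_CC g h a)⟩

lemma sp_map [IsDomain D] (g h : A) {d : D} (hd : d ≠ 0) :
    ((Iof m d).map (fs _ _)).map (evalEvalRingHom g h) = span {sp m g h d} := by
  rw [Ideal.map_map]
  exact sig_map m (rs_prod (rs_pt g h)) _ _ hd

lemma sp_compat {S : Type} [CommRing S] (π : A →+* S) {g h g' h' : A} (hg : π g = π g')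
    (hh : π h = π h') (d : D) : π (sp m g h d) = π (sp m g' h' d) := by
  have := rr_compat m (rs_prod (rs_pt g h)) (rs_prod (rs_pt g' h'))
    (q := RingHom.ker (π.comp ((evalEvalRingHom g h).comp (fs _ B))))
    (II_le_ker (by simp only [RingHom.coe_comp, coe_evalRingHom, Function.comp_apply, fs_apply, eval_sub, eval_X, eval_C, sub_self, eval_zero, map_zero]) (by simp only [map_sub, RingHom.coe_comp, coe_evalRingHom, Function.comp_apply, fs_apply, eval_sub, eval_C, eval_X, sub_self, map_zero])) (II_le_ker (by simp only [RingHom.coe_comp, coe_evalRingHom, Function.comp_apply, fs_apply, eval_sub, eval_X, eval_C, map_sub, hh, sub_self]) (by simp [hg]))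
    (fun a b c d e => by
      have e' := congrArg (fun z => m2 π z.1) e
      have := (rs_pt (π g) (π h)).h2 (m2 π a.1) (m2 π b.1) (m2 π c.1) (m2 π d.1) (by
        simpa only [coe_mapRingHom, map_sub, Prod.mk_mul_mk, mul_one, Prod.fst_add, Prod.fst_mul, Polynomial.map_add, Polynomial.map_mul, Polynomial.map_sub, map_X, map_C, ← hh, ← hg, Prod.fst_zero, Polynomial.map_zero] using e')
      have hk : II (X - C (C (π h)) : S[X][X]) (C (X - C (π g))) ≤
          RingHom.ker (evalEvalRingHom (π g) (π h)) := II_le_ker (by simp) (by simp)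
      exact ⟨(ev_m2 π g h a.1).symm.trans (hk this.1),
        (ev_m2 π g h b.1).symm.trans (hk this.2)⟩) d
  rw [RingHom.mem_ker, map_sub, sub_eq_zero] at this
  refine this.trans ?_
  change π (evalEval g h _) = π (evalEval g' h' _)
  rw [← ev_m2, ← ev_m2, hg, hh]

end Pt

variable {k B : Type} {D : Type v} [Field k] [CommRing B] [CommRing D] [IsDomain D]
  (m : Model (k[X][X][X] × B) D)

lemma exists_gen3 (d : D) :
    ∃ f : k[X][X][X], (∀ g h, f.evalEval g h = sp m g h d) ∧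
      (d ≠ 0 → (Iof m d).map (fs _ _) = span {f}) := by
  by_cases hd : d = 0
  · exact ⟨0, by simp [hd], fun h => absurd hd h⟩
  obtain ⟨E, s, hs, e⟩ := Iof_inv m hd
  have hs0 : s.1 ≠ 0 := fst_ne_zero hs
  have e1 := fs_mul e
  obtain ⟨f, hf⟩ := IsGCDMonoid.isPrincipal_of_exists_mul_ne_zero_isPrincipal
    (J := (Iof m d).map (fs k[X][X][X] B)) ⟨_, by rw [e1]; simpa only [Submodule.zero_eq_bot, ne_eq, Submodule.span_eq_bot, Set.mem_singleton_iff, forall_eq] using hs0,
      by rw [e1]; infer_instance⟩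
  rw [submodule_span_eq] at hf
  have hf0 : f ≠ 0 := by
    rintro rfl
    rw [hf] at e1
    exact hs0 (by simpa only [Submodule.span_zero_singleton, Submodule.bot_mul, Submodule.span_eq_bot, Set.mem_singleton_iff, forall_eq] using e1.symm)
  have h1 : ∀ g h, ∃ c : k, c ≠ 0 ∧ sp m g h d = C c * f.evalEval g h := by
    intro g h
    have k2 := sp_map m g h hd
    rw [hf, map_span, Set.image_singleton] at k2
    obtain ⟨w, hw⟩ := span_singleton_eq_span_singleton.1 k2
    obtain ⟨c, hc, e⟩ := Polynomial.isUnit_iff.1 w.isUnit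
    exact ⟨c, hc.ne_zero, by rw [e, mul_comm]; exact hw.symm⟩
  choose c hc0 hc using h1
  have h2 : ∀ (M : k[X]) (g h g' h' : k[X]), f.evalEval g h ≠ 0 →
      (f.evalEval g h).natDegree < M.natDegree → M ∣ g - g' → M ∣ h - h' → c g h = c g' h' := by
    intro M g h g' h' hne hdeg hg hh
    let π := Ideal.Quotient.mk (span {M})
    have hπ : ∀ {a b : k[X]}, M ∣ a - b → π a = π b := fun hab => by
      rwa [Ideal.Quotient.eq, mem_span_singleton]
    have k1 := sp_compat m π (hπ hg) (hπ hh) d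
    have k2 : π (f.evalEval g' h') = π (f.evalEval g h) := by
      rw [← ev_m2, ← ev_m2, hπ hg, hπ hh]
    simp only [hc, map_mul, k2] at k1
    rw [← map_mul, ← map_mul, Ideal.Quotient.eq, mem_span_singleton, ← sub_mul, ← C_sub] at k1
    have k3 := eq_zero_of_dvd_of_natDegree_lt k1 ((natDegree_C_mul_le _ _).trans_lt hdeg)
    exact sub_eq_zero.1 (C_eq_zero.1 ((mul_eq_zero.1 k3).resolve_right hne))
  have h3 : ∀ g h g' h' : k[X], f.evalEval g h ≠ 0 → f.evalEval g' h' ≠ 0 → c g h = c g' h' := by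
    intro g h g' h' hne hne'
    let n := (f.evalEval g h).natDegree + (f.evalEval g' h').natDegree + 1
    obtain ⟨a, b, hab⟩ : IsCoprime ((X : k[X]) ^ n) ((X - C 1) ^ n) :=
      IsCoprime.pow ⟨1, -1, by simp⟩
    rw [h2 (X ^ n) g h (g * b * (X - C 1) ^ n + g' * a * X ^ n)
      (h * b * (X - C 1) ^ n + h' * a * X ^ n) hne (by simp [n])
      ⟨(g - g') * a, by linear_combination -g * hab⟩ ⟨(h - h') * a, by linear_combination -h * hab⟩,
      h2 ((X - C 1) ^ n) g' h' (g * b * (X - C 1) ^ n + g' * a * X ^ n)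
      (h * b * (X - C 1) ^ n + h' * a * X ^ n) hne' (by
        rw [natDegree_pow, natDegree_X_sub_C]; simp [n])
      ⟨(g' - g) * b, by linear_combination -g' * hab⟩
      ⟨(h' - h) * b, by linear_combination -h' * hab⟩]
  have h4 : ∃ g h : k[X], f.evalEval g h ≠ 0 := by
    by_contra hcon
    push Not at hcon
    refine hf0 (grid (fun n => X ^ n) (fun i j hij => ?_) fun i j => hcon _ _)
    simpa using congrArg natDegree hij
  obtain ⟨g0, h0, hne0⟩ := h4
  refine ⟨C (C (C (c g0 h0))) * f, fun g h => ?_, fun _ => ?_⟩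
  · rw [hc, evalEval_mul, evalEval_C, eval_C]
    by_cases hne : f.evalEval g h = 0
    · simp [hne]
    · rw [h3 g h g0 h0 hne hne0]
  · rw [hf, span_singleton_mul_left_unit]
    exact (((Ne.isUnit (hc0 g0 h0)).map C).map C).map C

theorem exists_iota3 : ∃ ι : D →+* k[X][X][X],
      (∀ d, d ≠ 0 → (Iof m d).map (RingHom.fst _ _) = span {ι d}) ∧
        ∀ g : k[X], ∃ d, (ι d).evalEval 0 0 = g := by
  choose f hf1 hf2 using exists_gen3 m
  have uniq : ∀ {a b : k[X][X][X]}, (∀ g h : k[X], a.evalEval g h = b.evalEval g h) → a = b :=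
    fun {a b} hab => sub_eq_zero.1 (grid (fun n => X ^ n)
      (fun i j hij => by simpa using congrArg natDegree hij)
      fun i j => by simpa [sub_eq_zero] using hab (X ^ i) (X ^ j))
  refine ⟨RingHom.mk' ⟨⟨f, uniq fun g h => by simp [hf1]⟩,
    fun a b => uniq fun g h => by simp [hf1, evalEval_mul]⟩
    fun a b => uniq fun g h => by simp [hf1], hf2, fun g => ?_⟩
  obtain ⟨d, hd⟩ := sp_surj m 0 0 g
  exact ⟨d, (hf1 d 0 0).trans hd⟩

end Pool.Agent.MP_f1fec5_al.Sig

end

-- part MP_f1fec5_al.Sig.Nec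
section

/-! A domain model gives a nontrivial integer valued valuation. -/

namespace Pool.Agent.MP_f1fec5_al.Sig

open Polynomial

universe v

lemma nec_poly_mem {A W : Type*} [CommRing A] [Field W] (V : ValuationSubring W)
    (τ : A[X] →+* W) (h1 : ∀ a, τ (C a) ∈ V) (h2 : τ X ∈ V) (r : A[X]) : τ r ∈ V := by
  induction r using Polynomial.induction_on' with
  | add p q hp hq => rw [map_add]; exact add_mem hp hq
  | monomial n a =>
    rw [← C_mul_X_pow_eq_monomial, map_mul, map_pow]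
    exact mul_mem (h1 a) (pow_mem h2 n)

lemma nec_poly3 {k W : Type*} [CommRing k] [Field W] (V : ValuationSubring W)
    (τ : k[X][X][X] →+* W) (h0 : ∀ a, τ (C (C (C a))) ∈ V) (h1 : τ (C (C X)) ∈ V)
    (h2 : τ (C X) ∈ V) (h3 : τ X ∈ V) (r : k[X][X][X]) : τ r ∈ V :=
  nec_poly_mem V τ (nec_poly_mem V (τ.comp C)
    (nec_poly_mem V ((τ.comp C).comp C) h0 h1) h2) h3 r

lemma nec_span_lt {A W : Type*} [CommRing A] [Field W] (V : ValuationSubring W) (τ : A →+* W)
    (h : ∀ r, τ r ∈ V) {T : Set A} (hT : ∀ a ∈ T, V.valuation (τ a) < 1) {μ : A}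
    (hμ : μ ∈ Ideal.span T) : V.valuation (τ μ) < 1 := by
  induction hμ using Submodule.span_induction with
  | mem x hx => exact hT x hx
  | zero => simp only [map_zero, zero_lt_one]
  | add x y _ _ hx hy => rw [map_add]; exact V.valuation.map_add_lt hx hy
  | smul a x _ hx =>
    rw [smul_eq_mul, map_mul, map_mul]
    exact (mul_le_of_le_one_left' ((V.valuation_le_one_iff _).2 (h a))).trans_lt hx

lemma nec_exists_val {A W : Type*} [CommRing A] [Field W] (τ : A →+* W)
    (hτ : Function.Injective τ) {I : Ideal A} (hI : I ≠ ⊤) :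
    ∃ V : ValuationSubring W, (∀ r, τ r ∈ V) ∧ ∀ a ∈ I, V.valuation (τ a) < 1 := by
  have hb : Function.Bijective τ.rangeRestrict :=
    ⟨fun a b h => hτ (congrArg Subtype.val h), τ.rangeRestrict_surjective⟩
  obtain ⟨V, hV, hV'⟩ := Ideal.image_subset_nonunits_valuationSubring (A := τ.range)
    (I.map τ.rangeRestrict) (fun h => hI (by
      rw [← Ideal.comap_map_of_bijective τ.rangeRestrict hb (I := I), h, Ideal.comap_top]))
  exact ⟨V, fun r => hV ⟨r, rfl⟩, fun a ha =>
    V.mem_nonunits_iff.1 (hV' ⟨_, Ideal.mem_map_of_mem _ ha, rfl⟩)⟩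

lemma nec_pow {K W : Type*} [Field K] [Field W] [Algebra K W] (V : ValuationSubring W)
    {t : V.ValueGroup} (ht : t ≠ 0)
    (hK : ∀ a : K, a ≠ 0 → ∃ n : ℤ, V.valuation (algebraMap K W a) = t ^ n) {N : ℕ} {γ : W}
    (hγ : γ ≠ 0) {f : K[X]} (hf : f ≠ 0) (hN : f.natDegree ≤ N) (h0 : aeval γ f = 0) :
    ∃ n : ℤ, V.valuation γ ^ N.factorial = t ^ n := by
  classical
  let T : ℕ → W := fun i => algebraMap K W (f.coeff i) * γ ^ i
  have hs : ∑ i ∈ f.support, T i = 0 := by
    rw [← h0, aeval_def, eval₂_eq_sum, Polynomial.sum_def]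
  have hv : V.valuation γ ≠ 0 := by simpa only [ne_eq, map_eq_zero] using hγ
  obtain ⟨i, hi, hmax⟩ := Finset.exists_max_image f.support (fun i => V.valuation (T i))
    (support_nonempty.2 hf)
  obtain ⟨j, hj, hji, e⟩ : ∃ j ∈ f.support, j ≠ i ∧ V.valuation (T j) = V.valuation (T i) := by
    by_contra hcon
    push Not at hcon
    have h1 : V.valuation (T i) ≠ 0 := by
      simp only [T, map_mul, map_pow, ne_eq, mul_eq_zero, map_eq_zero, mem_support_iff.1 hi, pow_eq_zero_iff', hγ, false_and, or_self, not_false_eq_true]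
    have := V.valuation.map_sum_eq_of_lt hi (f := T) fun j hj =>
      lt_of_le_of_ne (hmax j (Finset.mem_sdiff.1 hj).1)
        (hcon j (Finset.mem_sdiff.1 hj).1 (by simpa using (Finset.mem_sdiff.1 hj).2))
    rw [hs, map_zero] at this
    exact h1 this.symm
  have key : ∀ a b, a ∈ f.support → b ∈ f.support → a < b →
      V.valuation (T a) = V.valuation (T b) → ∃ n : ℤ, V.valuation γ ^ N.factorial = t ^ n := by
    intro a b ha hb hab e
    obtain ⟨na, ea⟩ := hK _ (mem_support_iff.1 ha)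
    obtain ⟨nb, eb⟩ := hK _ (mem_support_iff.1 hb)
    obtain ⟨c, rfl⟩ := Nat.exists_eq_add_of_lt hab
    obtain ⟨q, hq⟩ := Nat.dvd_factorial (Nat.succ_pos c) (n := N)
      (by have := le_natDegree_of_mem_supp _ hb; omega)
    simp only [T, map_mul, map_pow, ea, eb] at e
    have e2 : V.valuation γ ^ (c + 1) = t ^ (na - nb) := by
      rw [zpow_sub₀ ht, eq_div_iff (zpow_ne_zero _ ht)]
      refine mul_right_cancel₀ (pow_ne_zero a hv) ?_
      rw [e, add_assoc, pow_add _ a]
      ac_rfl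
    exact ⟨(na - nb) * q, by rw [hq, pow_mul, e2, zpow_mul, zpow_natCast]⟩
  rcases lt_or_gt_of_ne hji with h | h
  · exact key j i hj hi h e
  · exact key i j hi hj h e.symm

lemma nec_zval {k W : Type*} [Field k] [Field W] (c : k →+* W) (V : ValuationSubring W)
    {t : V.ValueGroup} (ht : t ≠ 0) (ht1 : t < 1) {M : ℕ} (hM : M ≠ 0)
    (h : ∀ a : k, a ≠ 0 → ∃ n : ℤ, V.valuation (c a) ^ M = t ^ n) (h1 : ∃ a, c a ∉ V) :
    ∃ w : ZVal k, ∃ x, x ≠ 0 ∧ w.ν x ≠ 0 := by
  choose! ν hν using h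
  have t0 : 0 < t := zero_lt_iff.2 ht
  refine ⟨⟨ν, fun x y hx hy => ?_, fun x y hx hy hxy => ?_⟩, ?_⟩
  · refine zpow_right_injective₀ t0 ht1.ne ?_
    simp only
    rw [zpow_add₀ ht, ← hν x hx, ← hν y hy, ← hν _ (mul_ne_zero hx hy), map_mul, map_mul, mul_pow]
  · have := V.valuation.map_add (c x) (c y)
    rw [← map_add, le_max_iff] at this
    rcases this with e | e
    · have := pow_le_pow_left' e M
      rw [hν x hx, hν _ hxy, zpow_le_zpow_iff_right_of_lt_one₀ t0 ht1] at this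
      exact (min_le_left _ _).trans this
    · have := pow_le_pow_left' e M
      rw [hν y hy, hν _ hxy, zpow_le_zpow_iff_right_of_lt_one₀ t0 ht1] at this
      exact (min_le_right _ _).trans this
  · obtain ⟨a, ha⟩ := h1
    have a0 : a ≠ 0 := by
      rintro rfl
      exact ha (by simp)
    refine ⟨a, a0, fun e => ha ((V.valuation_le_one_iff _).1 ?_)⟩
    have := hν a a0
    rw [show ν a = 0 from e, zpow_zero] at this
    exact (pow_le_one_iff hM).1 this.le

lemma nec_fix {k P W : Type*} [Field k] [CommRing P] [Field W] (S : Set k)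
    (hS : Algebra.IsAlgebraic (Subfield.closure S) k) (b : k →+* P) (j : P →+* W)
    (hj : Function.Injective j) (σ : W →+* W) (h0 : ∀ a ∈ S, σ (j (b a)) = j (b a))
    (hg : ∀ V : ValuationSubring W, (∀ r, j r ∈ V) → (∀ a, σ (j (b a)) ∈ V) → ∀ r, σ (j r) ∈ V)
    {I : Ideal P} (hI : I ≠ ⊤) {T : Set P} (hT : ∀ a ∈ T, a ∈ I ∧ σ (j a) = j a)
    {α : k} {d : P} (hd : σ (j d) = j d) (hα : b α - d ∈ Ideal.span T) :
    σ (j (b α)) = j (b α) := by
  obtain ⟨V, hV, hV'⟩ := nec_exists_val j hj hI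
  let c : k →+* W := j.comp b
  have hc : ∀ a : Subfield.closure S, σ (c a) = c a := fun a =>
    (Subfield.closure_le (t := RingHom.eqLocusField (σ.comp c) c)).2 h0 a.2
  let _ : Algebra (Subfield.closure S) W := (c.comp (Subfield.closure S).subtype).toAlgebra
  let c1 : k →ₐ[Subfield.closure S] W := { c with commutes' := fun _ => rfl }
  let c2 : k →ₐ[Subfield.closure S] W := { σ.comp c with commutes' := hc }
  have hi : ∀ a : k, IsIntegral (Subfield.closure S) a := fun a => (hS.isAlgebraic a).isIntegral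
  have hm : ∀ w : W, IsIntegral (Subfield.closure S) w → w ∈ V := fun w hw =>
    mem_of_integral V (fun a => hV _) hw
  have hσ : ∀ r, (σ.comp j) r ∈ V := hg V hV fun a => hm _ ((hi a).map c2)
  have k1 := nec_span_lt V j hV (fun a ha => hV' a (hT a ha).1) hα
  have k2 := nec_span_lt V (σ.comp j) hσ
    (fun a ha => by rw [RingHom.comp_apply, (hT a ha).2]; exact hV' a (hT a ha).1) hα
  have k3 := V.valuation.map_sub_lt k2 k1
  simp only [RingHom.comp_apply, map_sub, hd, sub_sub_sub_cancel_right] at k3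
  by_contra hne
  have k4 := hm _ (((hi α).map c2).sub ((hi α).map c1)).inv
  rcases V.mem_nonunits_iff_or.1 (V.mem_nonunits_iff.2 k3) with e | e
  · exact hne (sub_eq_zero.1 e)
  · exact e k4

section NecModel

open Ideal Aff Aff.ModelAux

variable {P : Type} {D : Type v} [CommRing P] [IsDomain P] [CommRing D] [IsDomain D]
  (m : Model (P × ℤ) D) (ι : D →+* P)
  (hι : ∀ d, d ≠ 0 → (Iof m d).map (RingHom.fst _ _) = span {ι d})

lemma nec_reg {a : P} {b : ℤ} (ha : a ≠ 0) (hb : b ≠ 0) : (a, b) ∈ nonZeroDivisors (P × ℤ) :=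
  mem_nonZeroDivisors_iff_right.2 fun _ hx => Prod.ext
    ((mul_eq_zero.1 (congrArg Prod.fst hx)).resolve_right ha)
    ((mul_eq_zero.1 (congrArg Prod.snd hx)).resolve_right hb)

lemma nec_reg' {x : P × ℤ} (h : x ∈ nonZeroDivisors (P × ℤ)) : x.1 ≠ 0 ∧ x.2 ≠ 0 :=
  ⟨fun e => one_ne_zero (congrArg Prod.fst
      (mem_nonZeroDivisors_iff_right.1 h (1, 0) (Prod.ext (by simp [e]) (by simp)))),
    fun e => one_ne_zero (congrArg Prod.snd
      (mem_nonZeroDivisors_iff_right.1 h (0, 1) (Prod.ext (by simp) (by simp [e]))))⟩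

lemma nec_reg_fst {Y : Ideal P} (hY : Y ≠ ⊥) : Reg (Y.comap (RingHom.fst P ℤ)) := by
  obtain ⟨a, ha, h0⟩ := Submodule.exists_mem_ne_zero_of_ne_bot hY
  exact ⟨(a, 1), ha, nec_reg h0 one_ne_zero⟩

lemma nec_reg_snd {g : ℤ} (hg : g ≠ 0) : Reg ((span {g}).comap (RingHom.snd P ℤ)) :=
  ⟨(1, g), mem_span_singleton_self g, nec_reg one_ne_zero hg⟩

include hι

omit [IsDomain D] in
lemma nec_inj : Function.Injective ι := (injective_iff_map_eq_zero _).2 fun d hd => by
  by_contra h0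
  obtain ⟨s, hs, hs'⟩ := (Iof_spec m h0).1
  have := mem_map_of_mem (RingHom.fst P ℤ) hs
  rw [hι d h0, hd] at this
  exact (nec_reg' hs').1 (by simpa only [Submodule.span_zero_singleton, RingHom.coe_fst, Submodule.mem_bot] using this)

omit [IsDomain D] in
lemma nec_comap {Y : Ideal P} (hY : Y ≠ ⊥) :
    Y.comap ι = m.F (Y.comap (RingHom.fst P ℤ)) := by
  ext d
  by_cases h0 : d = 0
  · simp [h0]
  rw [mem_iff m h0 (nec_reg_fst hY), ← map_le_iff_le_comap, hι d h0, span_singleton_le_iff_mem,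
    mem_comap]

omit [IsDomain D] in
lemma nec_le_span {Z : Ideal (P × ℤ)} (hZ : Reg Z) :
    Z ≤ (span (ι '' m.F Z)).comap (RingHom.fst P ℤ) := by
  have h1 : span (ι '' m.F Z) ≠ ⊥ := by
    obtain ⟨a, ha, h0⟩ := Submodule.exists_mem_ne_zero_of_ne_bot (m.ne_bot hZ)
    intro h
    have := subset_span (s := ι '' m.F Z) ⟨a, ha, rfl⟩
    rw [h] at this
    exact h0 (nec_inj m ι hι (by simpa only [map_zero, Submodule.bot_coe, Set.mem_singleton_iff] using this))
  rw [← m.le_iff hZ (nec_reg_fst h1), ← nec_comap m ι hι h1]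
  exact fun d hd => subset_span ⟨d, hd, rfl⟩

omit [IsDomain D] in
lemma nec_lt {Y Z : Ideal P} (h : Y < Z) : Y.comap ι < Z.comap ι := by
  have hZ : Z ≠ ⊥ := (bot_le.trans_lt h).ne'
  refine lt_of_le_of_ne (comap_mono h.le) fun e => ?_
  by_cases hY : Y = ⊥
  · rw [hY, comap_bot_of_injective ι (nec_inj m ι hι), nec_comap m ι hι hZ] at e
    exact m.ne_bot (nec_reg_fst hZ) e.symm
  · rw [nec_comap m ι hι hY, nec_comap m ι hι hZ] at e
    exact h.ne (comap_injective_of_surjective _ Prod.fst_surjective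
      (m.inj (nec_reg_fst hY) (nec_reg_fst hZ) e))

theorem nec_val {W : Type} [Field W] (j : P →+* W) (hj : Function.Injective j) {δ : D}
    (hδ : δ ≠ 0) : ∃ (V : ValuationSubring W) (t : V.ValueGroup), t ≠ 0 ∧ t < 1 ∧
      (∀ d, j (ι d) ∈ V) ∧ V.valuation (j (ι δ)) = 1 ∧
      (∀ d, d ≠ 0 → ∃ i : ℕ, V.valuation (j (ι d)) = t ^ i) ∧ ¬ ∀ r, j r ∈ V := by
  have hg : ∀ d : D, d ≠ 0 → ∃ g : ℤ, g ≠ 0 ∧ (Iof m d).map (RingHom.snd P ℤ) = span {g} := by
    intro d hd
    obtain ⟨g, e⟩ := (IsPrincipalIdealRing.principal ((Iof m d).map (RingHom.snd P ℤ))).principal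
    refine ⟨g, ?_, e⟩
    rintro rfl
    obtain ⟨s, hs, hs'⟩ := (Iof_spec m hd).1
    have := mem_map_of_mem (RingHom.snd P ℤ) hs
    rw [e] at this
    exact (nec_reg' hs').2 (by simpa only [Submodule.span_zero_singleton, RingHom.coe_snd, Submodule.mem_bot] using this)
  choose! g hg0 hg using hg
  obtain ⟨q, hq1, hq⟩ := Nat.exists_infinite_primes ((g δ).natAbs + 1)
  have hp : Prime (q : ℤ) := Nat.prime_iff_prime_int.1 hq
  have hpδ : ¬ (q : ℤ) ∣ g δ := fun h => by
    have := Nat.le_of_dvd (Int.natAbs_pos.2 (hg0 δ hδ)) (Int.natCast_dvd.1 h)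
    omega
  generalize (q : ℤ) = p at hp hpδ
  have hmem : ∀ d, d ≠ 0 → ∀ a : ℤ, a ≠ 0 →
      (d ∈ m.F ((span {a}).comap (RingHom.snd P ℤ)) ↔ a ∣ g d) := fun d hd a ha => by
    rw [mem_iff m hd (nec_reg_snd ha), ← map_le_iff_le_comap, hg d hd,
      span_singleton_le_span_singleton]
  let M : Ideal (P × ℤ) := (span {p}).comap (RingHom.snd P ℤ)
  have hM : Reg M := nec_reg_snd hp.ne_zero
  have hM1 : M.IsMaximal := by
    have := PrincipalIdealRing.isMaximal_of_irreducible hp.irreducible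
    exact comap_isMaximal_of_surjective _ Prod.snd_surjective
  have hn := isMaximal_map m hM1 hM
  obtain ⟨V, hV, hV'⟩ := nec_exists_val (j.comp ι) (hj.comp (nec_inj m ι hι)) hn.ne_top
  have hle : ∀ d, V.valuation (j (ι d)) ≤ 1 := fun d => (V.valuation_le_one_iff _).2 (hV d)
  have hone : ∀ u, u ∉ m.F M → V.valuation (j (ι u)) = 1 := fun u hu => by
    obtain ⟨a, b, hb, e⟩ := hn.exists_inv hu
    have h1 := V.valuation.map_one_sub_of_lt (hV' b hb)
    rw [← (j.comp ι).map_one, ← map_sub, ← e, add_sub_cancel_right, map_mul, map_mul] at h1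
    exact le_antisymm (hle u) (h1.ge.trans (mul_le_of_le_one_left' (hle a)))
  have cmp : ∀ d e, d ≠ 0 → e ≠ 0 → ∀ a : ℤ, ¬ p ∣ a →
      (∀ s ∈ (Iof m d).map (RingHom.snd P ℤ), a * s ∈ (Iof m e).map (RingHom.snd P ℤ)) →
      V.valuation (j (ι d)) ≤ V.valuation (j (ι e)) := fun d e hd he a ha h => by
    obtain ⟨u, hu, hu'⟩ := exists_map_of m (Iof_spec m hd).1 (Iof_spec m he).1 hM (U := (0, a))
      (fun h => ha (mem_span_singleton.1 h)) (by
        rw [span_singleton_mul_le_iff]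
        intro z hz
        rw [ideal_prod_eq (Iof m e), mem_prod]
        exact ⟨by simp, h _ (mem_map_of_mem _ hz)⟩)
    rw [(Iof_spec m hd).2, (Iof_spec m he).2, span_singleton_mul_span_singleton,
      span_singleton_le_span_singleton] at hu'
    obtain ⟨c, hc⟩ := hu'
    have := congrArg (fun x => V.valuation (j (ι x))) hc
    simp only [map_mul, hone u hu, one_mul] at this
    rw [this]
    exact mul_le_of_le_one_right' (hle c)
  obtain ⟨w, hw, hw'⟩ : ∃ w, w ∈ m.F M ∧ w ∉ m.F ((span {p * p}).comap (RingHom.snd P ℤ)) := by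
    refine Set.not_subset.1 fun h => ?_
    have h1 := (m.le_iff hM (nec_reg_snd (mul_ne_zero hp.ne_zero hp.ne_zero))).1 h
      (show ((0 : P), p) ∈ M from mem_span_singleton_self p)
    have h2 : p * p ∣ p * 1 := by simpa only [mul_one, RingHom.coe_snd] using mem_span_singleton.1 h1
    exact hp.not_dvd_one ((mul_dvd_mul_iff_left hp.ne_zero).1 h2)
  have w0 : w ≠ 0 := by
    rintro rfl
    exact hw' (zero_mem _)
  obtain ⟨a, ha⟩ := (hmem w w0 p hp.ne_zero).1 hw
  have ha' : ¬ p ∣ a := fun h => hw' ((hmem w w0 _ (mul_ne_zero hp.ne_zero hp.ne_zero)).2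
    (ha ▸ mul_dvd_mul_left p h))
  refine ⟨V, V.valuation (j (ι w)), ?_, hV' w hw, hV, hone δ fun h => hpδ
    ((hmem δ hδ p hp.ne_zero).1 h), fun d hd => ?_, fun h => ?_⟩
  · exact (Valuation.ne_zero_iff _).2 fun h => w0 (nec_inj m ι hι (hj (by simpa only [map_zero] using h)))
  · obtain ⟨i, b, hb, e⟩ := WfDvdMonoid.max_power_factor (hg0 d hd) hp.irreducible
    have e2 : (Iof m (w ^ i)).map (RingHom.snd P ℤ) = span {p ^ i * a ^ i} := by
      rw [Iof_pow m w0, Ideal.map_pow, hg w w0, ha, span_singleton_pow, mul_pow]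
    refine ⟨i, ?_⟩
    rw [← _root_.map_pow, ← _root_.map_pow, ← _root_.map_pow]
    refine le_antisymm (cmp _ _ hd (pow_ne_zero i w0) (a ^ i)
      (fun h => ha' (hp.dvd_of_dvd_pow h)) fun s hs => ?_)
      (cmp _ _ (pow_ne_zero i w0) hd b hb fun s hs => ?_)
    · rw [hg d hd, e, mem_span_singleton] at hs
      rw [e2, mem_span_singleton, mul_comm]
      exact mul_dvd_mul_left _ (dvd_of_mul_right_dvd hs)
    · rw [e2, mem_span_singleton] at hs
      rw [hg d hd, e, mem_span_singleton, mul_comm]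
      exact mul_dvd_mul_left _ (dvd_of_mul_right_dvd hs)
  · have h1 : (1 : P) ∈ span (ι '' m.F M) :=
      nec_le_span m ι hι hM (show ((1 : P), (0 : ℤ)) ∈ M from zero_mem (span {p}))
    have := nec_span_lt V j h (by rintro _ ⟨d, hd, rfl⟩; exact hV' d hd) h1
    simp only [map_one, lt_self_iff_false] at this

omit [IsDomain D] in
lemma nec_mem {k W : Type} [Field k] [Field W] [IsAlgClosed W] [CharZero W] (S : Set k)
    (hS : Algebra.IsAlgebraic (Subfield.closure S) k) (b : k →+* P) (j : P →+* W)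
    (hj : Function.Injective j) (G : Finset P)
    (hG : ∀ (V : ValuationSubring W) (τ : P →+* W), (∀ a, τ (b a) ∈ V) → (∀ x ∈ G, τ x ∈ V) →
      ∀ r, τ r ∈ V) {I : Ideal P} (hI0 : I ≠ ⊥) (hI : I ≠ ⊤) (hb : ∀ a, ∃ d, b a - ι d ∈ I)
    (L : Subfield W) (halg : Algebra.IsAlgebraic L W) (h0 : ∀ s ∈ S, j (b s) ∈ L)
    (h1 : ∀ x ∈ G, j x ∈ L) (h2 : ∀ d, j (ι d) ∈ L) (a : k) : j (b a) ∈ L := by
  obtain ⟨n, ⟨w, hw⟩, -⟩ := exists_pow_mem_of_fixed (K := L) 1 (j (b a)) fun σ => by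
    have h3 : ∀ y ∈ L, (σ : W →+* W) y = y := fun y hy => σ.commutes ⟨y, hy⟩
    obtain ⟨d, hd⟩ := hb a
    refine nec_fix S hS b j hj (σ : W →+* W) (fun s hs => h3 _ (h0 s hs))
      (fun V hV h => hG V ((σ : W →+* W).comp j) h fun x hx => ?_)
      hI (T := ι '' (I.comap ι)) ?_ (h3 _ (h2 d)) ?_
    · rw [RingHom.comp_apply, h3 _ (h1 x hx)]
      exact hV x
    · rintro _ ⟨e, he, rfl⟩
      exact ⟨he, h3 _ (h2 e)⟩
    · rw [nec_comap m ι hι hI0]
      exact nec_le_span m ι hι (nec_reg_fst hI0) (x := (b a - ι d, 0)) hd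
  rw [one_pow, pow_one] at hw
  exact hw ▸ w.2

omit hι [IsDomain P] [IsDomain D] in
lemma nec_deg {k W : Type} [Field k] [Field W] (K : Subfield W) (halg : Algebra.IsAlgebraic K W)
    (c : k → W) (T : Finset W) (h : ∀ L : Subfield W, Algebra.IsAlgebraic L W → K ≤ L →
      (∀ x ∈ T, x ∈ L) → ∀ a, c a ∈ L) :
    ∃ N, ∀ a, ∃ f : K[X], f ≠ 0 ∧ f.natDegree ≤ N ∧ aeval (c a) f = 0 := by
  obtain ⟨L, hfin, hL⟩ : ∃ L : IntermediateField K W, FiniteDimensional K L ∧ ∀ x ∈ T, x ∈ L :=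
    ⟨IntermediateField.adjoin K (T : Set W),
      IntermediateField.finiteDimensional_adjoin fun x _ => (halg.isAlgebraic x).isIntegral,
      fun x hx => IntermediateField.subset_adjoin _ _ hx⟩
  refine ⟨Module.finrank K L, fun a => ?_⟩
  have ha : c a ∈ L := h L.toSubfield (Algebra.IsAlgebraic.tower_top (K := K) L)
    (fun y hy => L.algebraMap_mem ⟨y, hy⟩) hL a
  exact ⟨minpoly K (⟨_, ha⟩ : L), minpoly.ne_zero (Algebra.IsIntegral.isIntegral _),
    minpoly.natDegree_le _,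
    (aeval_algebraMap_apply W (⟨_, ha⟩ : L) _).trans (by rw [minpoly.aeval, map_zero])⟩

omit hι [IsDomain D] in
lemma nec_frac {W : Type} [Field W] (θ : D →+* W) (V : ValuationSubring W) {t : V.ValueGroup}
    (t0 : t ≠ 0) (hval : ∀ d, d ≠ 0 → ∃ i : ℕ, V.valuation (θ d) = t ^ i) (a : fracField θ)
    (h0 : a ≠ 0) : ∃ n : ℤ, V.valuation (algebraMap (fracField θ) W a) = t ^ n := by
  obtain ⟨d, e, he, hy⟩ := (mem_fracField θ a).1 a.2
  have d0 : d ≠ 0 := by
    rintro rfl
    exact h0 (Subtype.ext (by simpa using hy))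
  have e0 : e ≠ 0 := by
    rintro rfl
    exact he (map_zero _)
  obtain ⟨i1, h1⟩ := hval d d0
  obtain ⟨i2, h2⟩ := hval e e0
  refine ⟨i1 - i2, ?_⟩
  rw [zpow_sub₀ t0, zpow_natCast, zpow_natCast, ← h1, ← h2, ← map_div₀, ← hy]
  rfl

omit hι in
lemma nec_den {W : Type} [Field W] (θ : D →+* W) (hθ : Function.Injective θ)
    (halg : Algebra.IsAlgebraic (fracField θ) W) (T : Finset W) :
    ∃ δ : D, δ ≠ 0 ∧ ∀ V : ValuationSubring W, (∀ d, θ d ∈ V) → V.valuation (θ δ) = 1 →
      ∀ x ∈ T, x ∈ V := by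
  let _ : Algebra D W := θ.toAlgebra
  have hD : Algebra.IsAlgebraic D W := ⟨fun w => exists_poly_of_isAlgebraic _ hθ
    (halg.isAlgebraic w)⟩
  obtain ⟨δ, hδ, hδ'⟩ := Algebra.IsAlgebraic.exists_integral_multiples D T
  refine ⟨δ, hδ, fun V hV h1 x hx => (V.valuation_le_one_iff _).1 ?_⟩
  have := (V.valuation_le_one_iff _).2 (mem_of_integral V hV (hδ' _ hx))
  rwa [Algebra.smul_def, map_mul, show V.valuation (algebraMap D W δ) = 1 from h1,
    one_mul] at this

theorem nec_main {k W : Type} [Field k] [Field W] [IsAlgClosed W] [CharZero W] (S : Finset k)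
    (hS : Algebra.IsAlgebraic (Subfield.closure (S : Set k)) k) (b : k →+* P) (j : P →+* W)
    (hj : Function.Injective j) (G : Finset P)
    (hG : ∀ (V : ValuationSubring W) (τ : P →+* W), (∀ a, τ (b a) ∈ V) → (∀ x ∈ G, τ x ∈ V) →
      ∀ r, τ r ∈ V) {I : Ideal P} (hI0 : I ≠ ⊥) (hI : I ≠ ⊤) (hb : ∀ a, ∃ d, b a - ι d ∈ I)
    (halg : Algebra.IsAlgebraic (fracField (j.comp ι)) W) :
    ∃ w : ZVal k, ∃ x, x ≠ 0 ∧ w.ν x ≠ 0 := by
  classical
  have hθ : Function.Injective (j.comp ι) := hj.comp (nec_inj m ι hι)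
  obtain ⟨N, hN⟩ := nec_deg _ halg (fun a => j (b a)) ((S.image b ∪ G).image j) (by
    intro L h1 h2 hL
    refine nec_mem m ι hι _ hS b j hj G hG hI0 hI hb L h1 (fun s hs => hL _ ?_)
      (fun x hx => hL _ ?_) fun d => h2 (Subfield.subset_closure ⟨d, rfl⟩)
    · exact Finset.mem_image_of_mem j
        (Finset.mem_union_left _ (Finset.mem_image_of_mem b (Finset.mem_coe.1 hs)))
    · exact Finset.mem_image_of_mem j (Finset.mem_union_right _ hx))
  obtain ⟨δ, hδ, hδ'⟩ := nec_den _ hθ halg (G.image j)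
  obtain ⟨V, t, t0, t1, hV, hδ1, hval, hP⟩ := nec_val m ι hι j hj hδ
  refine nec_zval (j.comp b) V t0 t1 (Nat.factorial_ne_zero N) (fun a ha => ?_) ?_
  · obtain ⟨f, f0, f1, f2⟩ := hN a
    exact nec_pow V t0 (nec_frac (j.comp ι) V t0 hval) ((_root_.map_ne_zero (j.comp b)).2 ha)
      f0 f1 f2
  · by_contra hcon
    push Not at hcon
    exact hP (hG V j hcon fun x hx => hδ' V hV hδ1 _ (Finset.mem_image_of_mem j hx))

end NecModel

lemma nec_fin {k : Type} [Field k] (S : Finset k)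
    (hS : Algebra.IsAlgebraic (Subfield.closure (S : Set k)) k) :
    Algebra.trdeg (⊥ : Subfield k) k < Cardinal.aleph0 := by
  let A := Algebra.adjoin (⊥ : Subfield k) (S : Set k)
  have h1 : Subfield.closure (S : Set k) ≤ Aff.fracField (algebraMap A k) :=
    Subfield.closure_mono fun s hs => ⟨⟨s, Algebra.subset_adjoin hs⟩, rfl⟩
  have : Algebra.IsAlgebraic A k := ⟨fun z =>
    Aff.exists_poly_of_isAlgebraic (algebraMap A k) Subtype.val_injective
      (Pol.alg_mono Subtype.val_injective (fun a => ⟨⟨a, h1 a.2⟩, rfl⟩) (hS.isAlgebraic z))⟩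
  exact (Algebra.IsAlgebraic.trdeg_le_cardinalMk _ (S : Set k)).trans_lt
    (Cardinal.lt_aleph0_iff_set_finite.2 S.finite_toSet)

lemma nec_W (k P : Type) [Field k] [CharZero k] [CommRing P] [IsDomain P] [Algebra k P] :
    ∃ (W : Type) (_ : Field W) (_ : IsAlgClosed W) (_ : CharZero W) (_ : Algebra k W)
      (j : P →+* W), Function.Injective j ∧ Algebra.trdeg k W = Algebra.trdeg k P := by
  have := alg_closure P
  have : FaithfulSMul P (AlgebraicClosure (FractionRing P)) :=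
    (faithfulSMul_iff_algebraMap_injective _ _).2
      ((algebraMap (FractionRing P) (AlgebraicClosure (FractionRing P))).injective.comp
        (IsFractionRing.injective P (FractionRing P)))
  refine ⟨AlgebraicClosure (FractionRing P), inferInstance, inferInstance,
    charZero_of_injective_algebraMap (algebraMap k _).injective, inferInstance, algebraMap P _,
    FaithfulSMul.algebraMap_injective _ _, ?_⟩
  rw [← trdeg_add_eq k P, trdeg_eq_zero (R := P), add_zero]

lemma nec_trd (k : Type) [Field k] : Algebra.trdeg k k[X][X][X] = (3 : ℕ) := by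
  rw [← trdeg_add_eq k k[X][X], ← trdeg_add_eq k k[X] (A := k[X][X]),
    Polynomial.trdeg_of_isDomain, Polynomial.trdeg_of_isDomain, Polynomial.trdeg_of_isDomain]
  norm_num

theorem nec {k : Type} [Field k] [CharZero k] (S : Finset k)
    (hS : Algebra.IsAlgebraic (Subfield.closure (S : Set k)) k)
    (h : HasDomainModel.{0, v} (k[X][X][X] × ℤ)) : ∃ w : ZVal k, ∃ x, x ≠ 0 ∧ w.ν x ≠ 0 := by
  classical
  obtain ⟨D, _, _, ⟨m⟩⟩ := h.exists_model
  obtain ⟨ι, hι, hs⟩ := exists_iota3 m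
  obtain ⟨W, _, _, _, _, j, hj, hW⟩ := nec_W k k[X][X][X]
  let χ1 : k[X][X][X] →+* k[X][X] := evalRingHom 0
  let χ2 : k[X][X][X] →+* k[X] := evalEvalRingHom 0 0
  let χ3 : k[X][X][X] →+* k := (evalRingHom 0).comp χ2
  have l1 : ⊥ < RingHom.ker χ1 :=
    SetLike.lt_iff_le_and_exists.2 ⟨bot_le, X, by simp [χ1], by simp⟩
  have l2 : RingHom.ker χ1 < RingHom.ker χ2 := SetLike.lt_iff_le_and_exists.2
    ⟨fun p hp => by
      have : p.eval 0 = 0 := hp
      simp [χ2, this], C X, by simp [χ2], by simp [χ1]⟩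
  have l3 : RingHom.ker χ2 < RingHom.ker χ3 := SetLike.lt_iff_le_and_exists.2
    ⟨fun p hp => by
      have : χ2 p = 0 := hp
      simp [χ3, this], C (C X), by simp only [χ3, χ2, RingHom.mem_ker, RingHom.coe_comp, coe_evalRingHom, map_zero, Function.comp_apply, eval_C, eval_X], by simp [χ2]⟩
  have hχ : ∀ a, ∃ d, χ3 (ι d) = a := fun a => by
    obtain ⟨d, hd⟩ := hs (C a)
    exact ⟨d, (congrArg (eval 0) hd).trans eval_C⟩
  refine nec_main m ι hι S hS ((C.comp C).comp C) j hj {X, C X, C (C X)}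
    (fun V τ h0 h1 => nec_poly3 V τ h0 (h1 _ (by simp)) (h1 _ (by simp)) (h1 _ (by simp)))
    (I := RingHom.ker χ3) (l1.trans (l2.trans l3)).ne' (RingHom.ker_ne_top _) (fun a => ?_)
    (Aff.trd_isAlgebraic (nec_fin S hS) (hW.trans (nec_trd k)) _ (hj.comp (nec_inj m ι hι))
      (χ3.comp ι) hχ
      (fun i => (![⊥, RingHom.ker χ1, RingHom.ker χ2, RingHom.ker χ3] i).comap ι) ?_ ?_ le_rfl)
  · obtain ⟨d, hd⟩ := hχ a
    refine ⟨d, ?_⟩
    rw [RingHom.mem_ker, map_sub, hd]
    simp only [χ3, χ2, RingHom.coe_comp, Function.comp_apply, coe_evalRingHom, map_zero, eval_C, sub_self]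
  · refine Fin.strictMono_iff_lt_succ.2 fun i => nec_lt m ι hι ?_
    fin_cases i
    exacts [l1, l2, l3]
  · intro i
    have : (![⊥, RingHom.ker χ1, RingHom.ker χ2, RingHom.ker χ3] i).IsPrime := by
      fin_cases i
      exacts [Ideal.isPrime_bot, RingHom.ker_isPrime χ1, RingHom.ker_isPrime χ2,
        RingHom.ker_isPrime χ3]
    exact Ideal.comap_isPrime ι _

end Pool.Agent.MP_f1fec5_al.Sig

end

-- part MP_f1fec5_al.Sig.Cert
section

/-! The set of codes of rings with a domain model is analytic. -/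

namespace Pool.Agent.MP_f1fec5_al.Sig

open MeasureTheory Ideal Aff Aff.ModelAux Pointwise

universe v

section Ring

variable {M R : Type} [CommRing M] [CommRing R]

/-- A countable description of a model with underlying domain `M ⧸ P`. -/
structure RCert (P : Ideal M) (I : M → Ideal R) : Prop where
  c1 : ∀ d, d ∉ P → Reg (I d)
  c2 : ∀ d e, d ∉ P → e ∉ P → I (d * e) = I d * I e
  c3 : ∀ (e : M) (S : Finset M), e ∉ P → (∀ d ∈ S, d ∉ P) →
    (I e ≤ S.sup I ↔ e ∈ span (S : Set M) ⊔ P)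
  c4 : ∀ r s : R, s ∈ nonZeroDivisors R →
    ∃ S : Finset M, (∀ d ∈ S, d ∉ P ∧ I d ≤ span {r, s}) ∧ r ∈ S.sup I

lemma exists_finset_le {I : M → Ideal R} {T : Set M} {X : Ideal R} (hX : X.FG)
    (h : X ≤ ⨆ d ∈ T, I d) : ∃ S : Finset M, (S : Set M) ⊆ T ∧ X ≤ S.sup I := by
  classical
  rw [iSup_subtype'] at h
  obtain ⟨S, hS⟩ := CompleteLattice.IsCompactElement.exists_finset_of_le_iSup _
    ((Submodule.fg_iff_compact X).1 hX) _ h
  refine ⟨S.image Subtype.val, fun d hd => ?_, hS.trans (iSup₂_le fun d hd => ?_)⟩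
  · obtain ⟨e, -, rfl⟩ := Finset.mem_image.1 (Finset.mem_coe.1 hd)
    exact e.2
  · exact Finset.le_sup (f := I) (Finset.mem_image_of_mem _ hd)

namespace RCert

variable {P : Ideal M} {I : M → Ideal R} (h : RCert P I)
include h

lemma key {X : Ideal R} {e : M} (he : e ∉ P) :
    e ∈ span {d | d ∉ P ∧ I d ≤ X} ⊔ P ↔ I e ≤ X := by
  refine ⟨fun h1 => ?_, fun h1 => mem_sup_left (subset_span ⟨he, h1⟩)⟩
  obtain ⟨a, ha, b, hb, rfl⟩ := Submodule.mem_sup.1 h1
  obtain ⟨S, hS, hS'⟩ := Submodule.mem_span_finite_of_mem_span ha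
  exact ((h.c3 _ S he fun d hd => (hS hd).1).2 (Submodule.add_mem_sup hS' hb)).trans
    (Finset.sup_le fun d hd => (hS hd).2)

lemma le_iSup {X : Ideal R} (hX : Reg X) : X ≤ ⨆ d ∈ {d | d ∉ P ∧ I d ≤ X}, I d := by
  obtain ⟨s, hs, hs'⟩ := hX
  intro r hr
  obtain ⟨S, h1, h2⟩ := h.c4 r s hs'
  refine (Finset.sup_le fun d hd => ?_ : S.sup I ≤ _) h2
  refine le_iSup₂_of_le (f := fun d (_ : d ∈ {d | d ∉ P ∧ I d ≤ X}) => I d) d
    ⟨(h1 d hd).1, (h1 d hd).2.trans (span_le.2 ?_)⟩ le_rfl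
  rintro _ (rfl | rfl)
  exacts [hr, hs]

lemma mem_of_le (hf : ∀ d, (I d).FG) {T : Set M} (hT : ∀ d ∈ T, d ∉ P) {e : M} (he : e ∉ P)
    (h1 : I e ≤ ⨆ d ∈ T, I d) : e ∈ span T ⊔ P := by
  obtain ⟨S, hS, h2⟩ := exists_finset_le (hf e) h1
  exact sup_le_sup_right (span_mono hS) P ((h.c3 e S he fun d hd => hT d (hS hd)).1 h2)

lemma model [Nontrivial R] [hP : P.IsPrime] (hf : ∀ d, (I d).FG) :
    HasDomainModel.{0, 0} R := by
  have hm : ∀ (A : Ideal M) (e : M),
      Ideal.Quotient.mk P e ∈ A.map (Ideal.Quotient.mk P) ↔ e ∈ A ⊔ P :=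
    fun A e => mem_quotient_iff_mem_sup
  have hex : ∀ {X : Ideal R}, Reg X → ∃ d, d ∉ P ∧ I d ≤ X := fun {X} hX => by
    by_contra hn
    obtain ⟨s, hs, hs'⟩ := id hX
    have := h.le_iSup hX hs
    rw [show {d | d ∉ P ∧ I d ≤ X} = ∅ from Set.eq_empty_of_forall_notMem fun d hd => hn ⟨d, hd⟩]
      at this
    exact nonZeroDivisors.ne_zero hs' (by simpa only [Set.mem_empty_iff_false, not_false_eq_true, iSup_neg, iSup_bot, Submodule.mem_bot] using this)
  refine Model.hasDomainModel (D := M ⧸ P)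
    ⟨fun X => (span {d | d ∉ P ∧ I d ≤ X}).map (Ideal.Quotient.mk P), fun {X Y} hX hY => ?_,
      fun {X Y} hX hY => ?_, fun {X} hX => ?_, fun Z hZ => ?_⟩
  · refine ⟨fun h1 => (h.le_iSup hX).trans (iSup₂_le fun d hd => ?_),
      fun h1 => map_mono (span_mono fun d hd => ⟨hd.1, hd.2.trans h1⟩)⟩
    exact (h.key hd.1).1 ((hm _ _).1 (h1 (mem_map_of_mem _ (subset_span hd))))
  · rw [← Ideal.map_mul, span_mul_span']
    refine le_antisymm (map_le_iff_le_comap.2 (span_le.2 fun e he => ?_))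
      (map_mono (span_mono ?_))
    · refine (hm _ _).2 (h.mem_of_le hf ?_ he.1 (he.2.trans ?_))
      · rintro _ ⟨a, ha, b, hb, rfl⟩
        exact fun hab => (hP.mem_or_mem hab).elim ha.1 hb.1
      · refine (Ideal.mul_mono (h.le_iSup hX) (h.le_iSup hY)).trans ?_
        simp only [Submodule.iSup_mul, Submodule.mul_iSup, iSup_le_iff]
        intro b hb a ha
        rw [← h.c2 a b ha.1 hb.1]
        exact le_iSup₂_of_le (f := fun d (_ : d ∈ {d | d ∉ P ∧ I d ≤ X} * {d | d ∉ P ∧ I d ≤ Y}) =>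
          I d) (a * b) ⟨a, ha, b, hb, rfl⟩ le_rfl
    · rintro _ ⟨a, ha, b, hb, rfl⟩
      refine ⟨fun hab => (hP.mem_or_mem hab).elim ha.1 hb.1, ?_⟩
      rw [h.c2 a b ha.1 hb.1]
      exact Ideal.mul_mono ha.2 hb.2
  · obtain ⟨d, hd⟩ := hex hX
    intro h0
    have : Ideal.Quotient.mk P d ∈ (span {d | d ∉ P ∧ I d ≤ X}).map (Ideal.Quotient.mk P) :=
      mem_map_of_mem _ (subset_span hd)
    rw [h0, mem_bot, Ideal.Quotient.eq_zero_iff_mem] at this
    exact hd.1 this
  · let T := {d | d ∉ P ∧ Ideal.Quotient.mk P d ∈ Z}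
    have hle : ∀ d ∈ T, I d ≤ ⨆ d ∈ T, I d := fun d hd =>
      le_iSup₂_of_le (f := fun d (_ : d ∈ T) => I d) d hd le_rfl
    obtain ⟨z, hz, hz0⟩ := Submodule.exists_mem_ne_zero_of_ne_bot hZ
    obtain ⟨z, rfl⟩ := Ideal.Quotient.mk_surjective z
    have hz1 : z ∉ P := fun h => hz0 (Ideal.Quotient.eq_zero_iff_mem.2 h)
    refine ⟨⨆ d ∈ T, I d, (h.c1 z hz1).mono (hle z ⟨hz1, hz⟩), le_antisymm
      (map_le_iff_le_comap.2 (span_le.2 fun e he => ?_)) fun w hw => ?_⟩
    · refine (sup_le (span_le.2 fun d hd => hd.2) fun d hd => ?_ : span T ⊔ P ≤ Z.comap _)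
        (h.mem_of_le hf (fun d hd => hd.1) he.1 he.2)
      rw [mem_comap, Ideal.Quotient.eq_zero_iff_mem.2 hd]
      exact zero_mem _
    · obtain ⟨w, rfl⟩ := Ideal.Quotient.mk_surjective w
      by_cases hw0 : w ∈ P
      · rw [Ideal.Quotient.eq_zero_iff_mem.2 hw0]
        exact zero_mem _
      · exact mem_map_of_mem _ (subset_span ⟨hw0, hle w ⟨hw0, hw⟩⟩)

end RCert

lemma fg_of_inv {I C : Ideal R} {s : R} (hs : s ∈ nonZeroDivisors R) (h : I * C = span {s}) :
    I.FG := by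
  have h1 : span {s} ≤ ⨆ a ∈ (I : Set R), span {a} * C := by
    rw [← h]
    refine Ideal.mul_le.2 fun a ha c hc => ?_
    exact le_iSup₂_of_le (f := fun a (_ : a ∈ (I : Set R)) => span {a} * C) a ha le_rfl
      (mul_mem_mul (mem_span_singleton_self a) hc)
  obtain ⟨S, hS, h2⟩ := exists_finset_le (Submodule.fg_span_singleton s) h1
  have h3 : span {s} ≤ span (S : Set R) * C := h2.trans (Finset.sup_le fun a ha =>
    Ideal.mul_mono_left (span_mono (by simpa using ha)))
  refine ⟨S, le_antisymm (span_le.2 hS) fun x hx => ?_⟩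
  have h4 : x * s ∈ span {s} * span (S : Set R) := by
    rw [← h, mul_assoc, mul_comm C]
    exact mul_mem_mul hx (h3 (mem_span_singleton_self s))
  obtain ⟨y, hy, e⟩ := mem_span_singleton_mul.1 h4
  rw [mul_comm x, mul_cancel_left_mem_nonZeroDivisors hs] at e
  exact e ▸ hy

lemma exists_closed {D : Type v} (op : ℕ → List D → D) {s : Set D} (hs : s.Countable) :
    ∃ t : Set D, s ⊆ t ∧ t.Countable ∧ ∀ n l, (∀ a ∈ l, a ∈ t) → op n l ∈ t := by
  let L : FirstOrder.Language := ⟨fun _ => ℕ, fun _ => Empty⟩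
  let _ : L.Structure D := ⟨fun n x => op n (List.ofFn x), fun r => r.elim⟩
  have : Countable (Σ l, L.Functions l) := inferInstanceAs (Countable (Σ _ : ℕ, ℕ))
  refine ⟨FirstOrder.Language.Substructure.closure L s,
    FirstOrder.Language.Substructure.subset_closure, hs.substructure_closure L, fun n l hl => ?_⟩
  have := (FirstOrder.Language.Substructure.closure L s).fun_mem (n := l.length) n l.get
    fun i => hl _ (List.get_mem l i)
  change op n (List.ofFn l.get) ∈ _ at this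
  rwa [List.ofFn_get] at this

lemma exists_rcert [Countable R] [Nontrivial R] {D : Type v} [CommRing D] [IsDomain D]
    (m : Model R D) :
    ∃ (P : Ideal (MvPolynomial ℕ ℤ)) (I : MvPolynomial ℕ ℤ → Ideal R), P.IsPrime ∧
      (∀ d, (I d).FG) ∧ RCert P I := by
  classical
  have hfg : ∀ d, (Iof m d).FG := fun d => by
    by_cases hd : d = 0
    · rw [Iof, dif_neg (not_not.2 hd)]
      exact ⟨{1}, by simp⟩
    · obtain ⟨C, s, hs, e⟩ := Iof_inv m hd
      exact fg_of_inv hs e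
  have hw : ∀ r s : R, ∃ S : Finset D, s ∈ nonZeroDivisors R →
      (∀ d ∈ S, d ≠ 0 ∧ Iof m d ≤ span {r, s}) ∧ r ∈ S.sup (Iof m) := fun r s => by
    by_cases hs : s ∈ nonZeroDivisors R
    · have hX : Reg (span {r, s}) := ⟨s, subset_span (by simp), hs⟩
      let T := {d | d ≠ 0 ∧ d ∈ m.F (span {r, s})}
      have hle : ∀ d ∈ T, Iof m d ≤ ⨆ d : T, Iof m d := fun d hd =>
        le_iSup (fun d : T => Iof m d) ⟨d, hd⟩
      obtain ⟨z, hz, hz0⟩ := Submodule.exists_mem_ne_zero_of_ne_bot (m.ne_bot hX)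
      have hY : Reg (⨆ d : T, Iof m d) := (Iof_spec m hz0).1.mono (hle z ⟨hz0, hz⟩)
      have h1 : span {r, s} ≤ ⨆ d : T, Iof m d := (m.le_iff hX hY).1 fun d hd => by
        by_cases h0 : d = 0
        · exact h0 ▸ zero_mem _
        · exact (mem_iff m h0 hY).2 (hle d ⟨h0, hd⟩)
      obtain ⟨S, hS⟩ := Submodule.mem_iSup_iff_exists_finset.1 (h1 (subset_span (by simp : r ∈ _)))
      have h2 : ⨆ d ∈ S, Iof m d.1 ≤ (S.image Subtype.val).sup (Iof m) := iSup₂_le fun d hd =>
        Finset.le_sup (f := Iof m) (Finset.mem_image_of_mem _ hd)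
      refine ⟨S.image Subtype.val, fun _ => ⟨fun d hd => ?_, h2 hS⟩⟩
      obtain ⟨e, -, rfl⟩ := Finset.mem_image.1 hd
      exact ⟨e.2.1, (mem_iff m e.2.1 hX).1 e.2.2⟩
    · exact ⟨∅, fun h => absurd h hs⟩
  choose Tw hTw using hw
  have hc : ∀ l : List D, ∃ a, ∀ e x l', l = e :: x :: l' → e ∈ span (insert x {y | y ∈ l'}) →
      e + a * x ∈ span {y | y ∈ l'} := fun l => by
    by_cases h : ∃ e x l', l = e :: x :: l' ∧ e ∈ span (insert x {y | y ∈ l'})
    · obtain ⟨e, x, l', rfl, h⟩ := h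
      obtain ⟨a, ha⟩ := (mem_span_insert' _ _ _).1 h
      refine ⟨a, ?_⟩
      rintro _ _ _ ⟨⟩ _
      exact ha
    · exact ⟨0, fun e x l' h1 h2 => absurd ⟨e, x, l', h1, h2⟩ h⟩
  choose co hco using hc
  obtain ⟨t, ht0, ht1, ht⟩ := exists_closed
    (fun n l => if n = 0 then l.sum else if n = 1 then l.prod else if n = 2 then -l.sum else co l)
    (s := ⋃ r, ⋃ s, (Tw r s : Set D))
    (Set.countable_iUnion fun r => Set.countable_iUnion fun s => (Tw r s).countable_toSet)
  let A : Subring D :=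
    { carrier := t
      zero_mem' := by simpa using ht 0 [] (by simp)
      one_mem' := by simpa using ht 1 [] (by simp)
      add_mem' := fun {a b} ha hb => by simpa using ht 0 [a, b] (by simp [ha, hb])
      mul_mem' := fun {a b} ha hb => by simpa using ht 1 [a, b] (by simp [ha, hb])
      neg_mem' := fun {a} ha => by simpa using ht 2 [a] (by simp [ha]) }
  obtain ⟨x, hx⟩ := ht1.exists_eq_range ⟨0, A.zero_mem⟩
  let p : MvPolynomial ℕ ℤ →+* D := MvPolynomial.eval₂Hom (Int.castRingHom D) x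
  have hp1 : ∀ g, p g ∈ A := fun g => by
    induction g using MvPolynomial.induction_on with
    | C a => simpa [p] using intCast_mem A a
    | add f g hf hg => rw [map_add]; exact A.add_mem hf hg
    | mul_X f n hf =>
      rw [map_mul]
      have : x n ∈ A := (hx ▸ ⟨n, rfl⟩ : x n ∈ t)
      exact A.mul_mem hf (by simpa [p] using this)
  have hp2 : ∀ a, ∃ g, a ∈ t → p g = a := fun a => by
    by_cases ha : a ∈ t
    · obtain ⟨n, rfl⟩ := hx ▸ ha
      exact ⟨MvPolynomial.X n, fun _ => by simp [p]⟩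
    · exact ⟨0, fun h => absurd h ha⟩
  choose q hq using hp2
  have hl : ∀ (l : List (MvPolynomial ℕ ℤ)) g, p g ∈ span {y | y ∈ l.map p} →
      g ∈ span {y | y ∈ l} ⊔ RingHom.ker p := fun l => by
    induction l with
    | nil => exact fun g hg => mem_sup_right (by simpa only [RingHom.mem_ker, List.map_nil, List.not_mem_nil, Set.ofPred_false, Submodule.span_empty, Submodule.mem_bot] using hg)
    | cons d l ih =>
      intro g hg
      have h1 := hco _ (p g) (p d) (l.map p) rfl (by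
        convert hg using 2
        ext y
        simp only [List.mem_map, Set.mem_insert_iff, Set.mem_ofPred_eq, List.map_cons, List.mem_cons])
      have h2 : co (p g :: p d :: l.map p) ∈ t := by
        simpa using ht 3 (p g :: p d :: l.map p) fun a ha => by
          obtain ⟨b, -, rfl⟩ := List.mem_map.1 (show a ∈ (g :: d :: l).map p from ha)
          exact hp1 b
      rw [← hq _ h2, ← map_mul, ← map_add] at h1
      have h3 := sup_le_sup_right (span_mono (t := {y | y ∈ d :: l})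
        fun y hy => List.mem_cons_of_mem d hy) _ (ih _ h1)
      exact (Submodule.add_mem_iff_left _
        (mul_mem_left _ _ (mem_sup_left (subset_span (by simp))))).1 h3
  refine ⟨RingHom.ker p, fun d => Iof m (p d), RingHom.ker_isPrime p, fun d => hfg _,
    fun d hd => (Iof_spec m hd).1, fun d e hd he => by rw [map_mul]; exact Iof_mul m hd he,
    fun e S he hS => ?_, fun r s hs => ?_⟩
  · have hF : ∀ S : Finset (MvPolynomial ℕ ℤ), (∀ d ∈ S, d ∉ RingHom.ker p) → S.Nonempty →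
        Reg (S.sup fun d => Iof m (p d)) ∧ m.F (S.sup fun d => Iof m (p d)) = span (p '' S) :=
      fun S hS hn => by
        induction hn using Finset.Nonempty.cons_induction with
        | singleton a => simpa using Iof_spec m (hS a (by simp))
        | cons a S ha _ ih =>
          have h1 := Iof_spec m (hS a (by simp))
          have h2 := ih fun d hd => hS d (by simp [hd])
          rw [Finset.sup_cons, m.map_sup h1.1 h2.1, h1.2, h2.2, Finset.coe_cons,
            Set.image_insert_eq, span_insert]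
          exact ⟨h1.1.mono le_sup_left, rfl⟩
    rcases S.eq_empty_or_nonempty with rfl | hn
    · refine ⟨fun h => ?_, fun h => absurd (by simpa only [RingHom.mem_ker, Finset.coe_empty, Submodule.span_empty, bot_le, sup_of_le_right] using h) he⟩
      obtain ⟨s, hs, hs'⟩ := (Iof_spec m he).1
      exact absurd (by simpa only [Finset.sup_empty, Submodule.mem_bot] using h hs) (nonZeroDivisors.ne_zero hs')
    · rw [← mem_iff m he (hF S hS hn).1, (hF S hS hn).2]
      refine ⟨fun h => ?_, fun h => ?_⟩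
      · have h1 : {y | y ∈ S.toList.map p} = p '' S := by
          ext y
          simp only [List.mem_map, Finset.mem_toList, Set.mem_ofPred_eq, Set.mem_image, SetLike.mem_coe]
        simpa only [Finset.mem_toList, SetLike.setOfPred_mem_eq] using hl S.toList e (h1 ▸ h)
      obtain ⟨a, ha, b, hb, rfl⟩ := Submodule.mem_sup.1 h
      rw [map_add, show p b = 0 from hb, add_zero, ← map_span]
      exact mem_map_of_mem _ ha
  · obtain ⟨h1, h2⟩ := hTw r s hs
    have h3 : ∀ d ∈ Tw r s, p (q d) = d := fun d hd =>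
      hq d (ht0 (Set.mem_iUnion₂.2 ⟨r, s, hd⟩))
    have h4 : (Tw r s).sup (Iof m) ≤ ((Tw r s).image q).sup fun d => Iof m (p d) :=
      Finset.sup_le fun d hd => le_trans (by rw [h3 d hd])
        (Finset.le_sup (f := fun d => Iof m (p d)) (Finset.mem_image_of_mem q hd))
    refine ⟨(Tw r s).image q, fun d hd => ?_, h4 h2⟩
    obtain ⟨e, he, rfl⟩ := Finset.mem_image.1 hd
    rw [RingHom.mem_ker, h3 e he]
    exact h1 e he

end Ring

section Meas

variable {X M : Type} [MeasurableSpace X] [CommRing M] [Countable M]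

/-- A family of ideals with measurable membership. -/
def MI (A : X → Ideal M) : Prop := ∀ g, Measurable fun x => g ∈ A x

lemma MI.of_span {s : X → Set M} (h : ∀ g, Measurable fun x => g ∈ s x) :
    MI fun x => span (s x) := fun g => by
  have : ∀ x, g ∈ span (s x) ↔ ∃ S : Finset M, (∀ a ∈ S, a ∈ s x) ∧ g ∈ span (S : Set M) :=
    fun x => ⟨fun h => Submodule.mem_span_finite_of_mem_span h,
      fun ⟨S, h1, h2⟩ => span_mono h1 h2⟩
  simp only [this]
  exact .exists fun S => (Measurable.forall fun a => measurable_const.imp (h a)).and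
    measurable_const

lemma MI.sup {A B : X → Ideal M} (hA : MI A) (hB : MI B) : MI fun x => A x ⊔ B x := by
  have := MI.of_span (s := fun x => (A x : Set M) ∪ B x) fun g => (hA g).or (hB g)
  simpa only [span_union, span_eq] using this

lemma MI.mul {A B : X → Ideal M} (hA : MI A) (hB : MI B) : MI fun x => A x * B x := by
  have := MI.of_span (s := fun x => (A x : Set M) * (B x : Set M)) fun g =>
    .exists fun a => (hA a).and (.exists fun b => (hB b).and measurable_const)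
  simpa only [← span_mul_span', span_eq] using this

/-- A measurable family of ideals of quotient rings. -/
def MQ (K : X → Ideal M) (A : ∀ x, Ideal (M ⧸ K x)) : Prop :=
  ∃ B, MI B ∧ ∀ x, A x = (B x).map (Ideal.Quotient.mk (K x))

variable {K : X → Ideal M} {A B : ∀ x, Ideal (M ⧸ K x)}

lemma MQ.mem (hK : MI K) (hA : MQ K A) (g : M) :
    Measurable fun x => Ideal.Quotient.mk (K x) g ∈ A x := by
  obtain ⟨B, hB, e⟩ := hA
  simp only [e, mem_quotient_iff_mem_sup]
  exact hB.sup hK g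

lemma MQ.le (hK : MI K) (hA : MQ K A) (hB : MQ K B) : Measurable fun x => A x ≤ B x := by
  simp only [SetLike.le_def, Ideal.Quotient.mk_surjective.forall]
  exact .forall fun g => (hA.mem hK g).imp (hB.mem hK g)

lemma MQ.mul (hA : MQ K A) (hB : MQ K B) : MQ K fun x => A x * B x := by
  obtain ⟨A, hA, e⟩ := hA
  obtain ⟨B, hB, e'⟩ := hB
  exact ⟨_, hA.mul hB, fun x => by simp only [e, e', Ideal.map_mul]⟩

lemma MQ.const (C : Ideal M) : MQ K fun x => C.map (Ideal.Quotient.mk (K x)) :=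
  ⟨fun _ => C, fun _ => measurable_const, fun _ => rfl⟩

lemma MQ.sup {I : ∀ x, M → Ideal (M ⧸ K x)} (hI : ∀ d, MQ K fun x => I x d) (S : Finset M) :
    MQ K fun x => S.sup (I x) := by
  induction S using Finset.cons_induction with
  | empty => simpa only [Finset.sup_empty, Ideal.map_bot] using MQ.const (K := K) ⊥
  | cons a S ha ih =>
    obtain ⟨A, hA, e⟩ := hI a
    obtain ⟨B, hB, e'⟩ := ih
    exact ⟨_, hA.sup hB, fun x => by simp only [Finset.sup_cons, Ideal.map_sup, ← e, ← e']⟩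

lemma measurable_rcert {P : X → Ideal M} (hK : MI K) (hP : MI P) {I : ∀ x, M → Ideal (M ⧸ K x)}
    (hI : ∀ d, MQ K fun x => I x d) : Measurable fun x => RCert (P x) (I x) := by
  have hn : ∀ s, Measurable fun x => Ideal.Quotient.mk (K x) s ∈ nonZeroDivisors (M ⧸ K x) :=
    fun s => by
      simp only [mem_nonZeroDivisors_iff_right, Ideal.Quotient.mk_surjective.forall, ← map_mul,
        Ideal.Quotient.eq_zero_iff_mem]
      exact .forall fun a => (hK _).imp (hK _)
  have h1 : Measurable fun x => ∀ d, d ∉ P x → Reg (I x d) := by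
    simp only [Reg, Ideal.Quotient.mk_surjective.exists]
    exact .forall fun d => (hP d).not.imp (.exists fun s => ((hI d).mem hK s).and (hn s))
  have h2 : Measurable fun x => ∀ d e, d ∉ P x → e ∉ P x → I x (d * e) = I x d * I x e := by
    simp only [le_antisymm_iff]
    exact .forall fun d => .forall fun e => (hP d).not.imp ((hP e).not.imp
      (((hI _).le hK ((hI d).mul (hI e))).and (((hI d).mul (hI e)).le hK (hI _))))
  have h3 : Measurable fun x => ∀ (e : M) (S : Finset M), e ∉ P x → (∀ d ∈ S, d ∉ P x) →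
      (I x e ≤ S.sup (I x) ↔ e ∈ span (S : Set M) ⊔ P x) :=
    .forall fun e => .forall fun S => (hP e).not.imp
      ((Measurable.forall fun d => measurable_const.imp (hP d).not).imp
        (((hI e).le hK (MQ.sup hI S)).iff (MI.sup (fun _ => measurable_const) hP e)))
  have h4 : Measurable fun x => ∀ r s : M ⧸ K x, s ∈ nonZeroDivisors _ →
      ∃ S : Finset M, (∀ d ∈ S, d ∉ P x ∧ I x d ≤ span {r, s}) ∧ r ∈ S.sup (I x) := by
    simp only [Ideal.Quotient.mk_surjective.forall]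
    refine .forall fun r => .forall fun s => (hn s).imp (.exists fun S =>
      (Measurable.forall fun d => measurable_const.imp ((hP d).not.and ((hI d).le hK ?_))).and
        ((MQ.sup hI S).mem hK r))
    simpa only [map_span, Set.image_pair] using MQ.const (K := K) (span {r, s})
  convert h1.and (h2.and (h3.and h4)) using 2 with x
  exact ⟨fun h => ⟨h.1, h.2, h.3, h.4⟩, fun h => ⟨h.1, h.2.1, h.2.2.1, h.2.2.2⟩⟩

end Meas

lemma nontrivial_of_model {R : Type} [CommRing R] (h : HasDomainModel.{0, v} R) :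
    Nontrivial R := by
  obtain ⟨D, _, _, φ, -⟩ := h
  by_contra hn
  rw [not_nontrivial_iff_subsingleton] at hn
  have : (⊥ : Ideal D) = ⊤ := φ.symm.injective (Subtype.ext (Subsingleton.elim _ _))
  exact bot_ne_top this

theorem analyticSet_H : AnalyticSet {c | HasDomainModel.{0, v} (Pres c)} := by
  classical
  have : Countable (MvPolynomial ℕ ℤ) := AddMonoidAlgebra.coeff_injective.countable
  obtain ⟨en, hen⟩ := exists_surjective_nat (Finset (MvPolynomial ℕ ℤ))
  let X := (MvPolynomial ℕ ℤ → Bool) × (MvPolynomial ℕ ℤ → Bool) × (MvPolynomial ℕ ℤ → ℕ)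
  let K : X → Ideal (MvPolynomial ℕ ℤ) := fun x => span {g | x.1 g = true}
  let P : X → Ideal (MvPolynomial ℕ ℤ) := fun x => span {g | x.2.1 g = true}
  let I : ∀ x, MvPolynomial ℕ ℤ → Ideal (MvPolynomial ℕ ℤ ⧸ K x) := fun x d =>
    (span (en (x.2.2 d) : Set (MvPolynomial ℕ ℤ))).map (Ideal.Quotient.mk (K x))
  have hK : MI K := .of_span fun g => (Measurable.of_discrete (f := fun b => b = true)).comp
    ((measurable_pi_apply g).comp measurable_fst)
  have hP : MI P := .of_span fun g => (Measurable.of_discrete (f := fun b => b = true)).comp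
    ((measurable_pi_apply g).comp measurable_snd.fst)
  have hI : ∀ d, MQ K fun x => I x d := fun d => ⟨_, fun g =>
    (Measurable.of_discrete (f := fun n => g ∈ span (en n : Set (MvPolynomial ℕ ℤ)))).comp
      ((measurable_pi_apply d).comp measurable_snd.snd), fun _ => rfl⟩
  have hm : Measurable fun x => 1 ∉ K x ∧ (P x).IsPrime ∧ RCert (P x) (I x) := by
    simp only [isPrime_iff, ne_top_iff_one]
    exact (hK 1).not.and (((hP 1).not.and (.forall fun a => .forall fun b =>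
      (hP _).imp ((hP a).or (hP b)))).and (measurable_rcert hK hP hI))
  convert (measurableSet_setOfPred.2 hm).analyticSet_image measurable_fst using 1
  ext c
  constructor
  · intro h
    have hn := nontrivial_of_model h
    obtain ⟨D, _, _, ⟨m⟩⟩ := HasDomainModel.exists_model h
    have : Countable (Pres c) := Ideal.Quotient.mk_surjective.countable
    obtain ⟨Q, J, hQ, hJ, hc⟩ := exists_rcert m
    have hw : ∀ d, ∃ n, (span (en n : Set (MvPolynomial ℕ ℤ))).map
        (Ideal.Quotient.mk (span {g | c g = true})) = J d := fun d => by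
      obtain ⟨S, hS⟩ := hJ d
      choose q hq using Ideal.Quotient.mk_surjective (I := span {g | c g = true})
      obtain ⟨n, hn⟩ := hen (S.image q)
      refine ⟨n, ?_⟩
      rw [hn, map_span, Finset.coe_image, Set.image_image, ← hS]
      simp [hq]
    choose w hw using hw
    have e : P (c, fun g => decide (g ∈ Q), w) = Q := by simp [P]
    refine ⟨(c, fun g => decide (g ∈ Q), w), ⟨?_, e.symm ▸ hQ, ?_⟩, rfl⟩
    · exact (ne_top_iff_one _).1 (Ideal.Quotient.nontrivial_iff.1 hn)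
    · rw [e, show I (c, fun g => decide (g ∈ Q), w) = J from funext hw]
      exact hc
  · rintro ⟨x, ⟨h1, h2, h3⟩, rfl⟩
    have := Ideal.Quotient.nontrivial_iff.2 ((ne_top_iff_one _).2 h1)
    exact (h3.model fun d => Ideal.FG.map ⟨_, rfl⟩ _).ulift

end Pool.Agent.MP_f1fec5_al.Sig

end
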