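import Pool.Agent.MP_f1fec5_al.Mg.Sig_Cert
import Pool.Agent.MP_f1fec5_al.Replace

attribute [-instance] DistribMulActionSemiHomClass.toAddMonoidHomClass
  SemilinearMapClass.toAddHomClass RKHS.instFunLike Finite.instDiscreteTopology
  AlgHom.instNonUnitalAlgHomClassOfAlgHomClass GradedMonoid.GradeZero.smul T5Space.toT1Space
  SetLike.GradeZero.instCommSemiring littleWedderburn instNontrivialOfCharZero
  SetLike.GradeZero.instSemiring RingConeClass.toSubsemiringClass AlgHomClass.toRingHomClass
  ContinuousMonoidHom.instCoeOutOfMonoidHomClassOfContinuousMapClass IdemSemiring.toSemiring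
  instNonUnitalAlgHomClassOfNonUnitalAlgEquivClass SetLike.GradeZero.instCommRing instCoeTCOfCoe
  TopologicalSpace.IsCompletelyMetrizableSpace.of_completeSpace_metrizable
  Group.IsPerfect.subsingleton_of_isMulCommutative

-- part MP_f1fec5_al.Sig.Desc
section

/-! Borel coding of the rings attached to trees. -/

namespace Pool.Agent.MP_f1fec5_al.Sig

open Polynomial MeasureTheory Filter Topology

universe v

lemma exists_finset_closure {K : Type} [Field K] {S : Set K} {x : K}
    (hx : x ∈ Subfield.closure S) :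
    ∃ F : Finset K, (∀ z ∈ F, z ∈ S) ∧ x ∈ Subfield.closure (F : Set K) := by
  classical
  have hbin : ∀ (op : K → K → K), (∀ (L : Subfield K) a b, a ∈ L → b ∈ L → op a b ∈ L) → ∀ a b,
      (∃ F : Finset K, (∀ z ∈ F, z ∈ S) ∧ a ∈ Subfield.closure (F : Set K)) →
      (∃ F : Finset K, (∀ z ∈ F, z ∈ S) ∧ b ∈ Subfield.closure (F : Set K)) →
      ∃ F : Finset K, (∀ z ∈ F, z ∈ S) ∧ op a b ∈ Subfield.closure (F : Set K) := by
    rintro op hop a b ⟨F, hF, ha⟩ ⟨F', hF', hb⟩
    refine ⟨F ∪ F', fun z hz => (Finset.mem_union.1 hz).elim (hF z) (hF' z), hop _ _ _ ?_ ?_⟩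
    · exact Subfield.closure_mono (Finset.coe_subset.2 Finset.subset_union_left) ha
    · exact Subfield.closure_mono (Finset.coe_subset.2 Finset.subset_union_right) hb
  induction hx using Subfield.closure_induction with
  | mem z hz => exact ⟨{z}, by simpa using hz, Subfield.subset_closure (by simp)⟩
  | one => exact ⟨∅, by simp, one_mem _⟩
  | add a b _ _ ha hb => exact hbin (· + ·) (fun L a b => L.add_mem) a b ha hb
  | neg a _ ha => exact ha.imp fun F h => ⟨h.1, neg_mem h.2⟩
  | inv a _ ha => exact ha.imp fun F h => ⟨h.1, inv_mem h.2⟩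
  | mul a b _ _ ha hb => exact hbin (· * ·) (fun L a b => L.mul_mem) a b ha hb

lemma measurable_closure {Y K : Type} [MeasurableSpace Y] [Field K] [Countable K] {S : Y → Set K}
    (hS : ∀ z, Measurable fun y => z ∈ S y) (x : K) :
    Measurable fun y => x ∈ Subfield.closure (S y) := by
  have e : (fun y => x ∈ Subfield.closure (S y)) = fun y =>
      ∃ F : Finset K, (∀ z, z ∈ F → z ∈ S y) ∧ x ∈ Subfield.closure (F : Set K) := by
    funext y
    exact propext ⟨exists_finset_closure, fun ⟨F, hF, hx⟩ => Subfield.closure_mono hF hx⟩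
  rw [e]
  exact Measurable.exists fun F =>
    (Measurable.forall fun z => measurable_const.imp (hS z)).and measurable_const

lemma measurable_Al {Y : Type} [MeasurableSpace Y] {G : Y → List ℕ → Prop}
    (hG : ∀ s, Measurable fun y => G y s) (f : Q) (N : ℕ) : Measurable fun y => Al (G y) f N := by
  have e : (fun y => Al (G y) f N) = fun y => 0 < N ∧ ∃ n, ∀ s : List ℕ, G y s →
      ∀ a b, pre b n = s → N ∣ od a b f := by
    funext y
    refine propext (and_congr_right fun _ => exists_congr fun n => ⟨?_, ?_⟩)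
    · rintro h s hs a b rfl
      exact h a b hs
    · intro h a b hs
      exact h _ hs a b rfl
  rw [e]
  exact measurable_const.and (Measurable.exists fun n => Measurable.forall fun s =>
    (hG s).imp measurable_const)

lemma measurable_kT {Y : Type} [MeasurableSpace Y] {G : Y → List ℕ → Prop}
    (hG : ∀ s, Measurable fun y => G y s) (x : Om) : Measurable fun y => x ∈ kT (G y) :=
  measurable_closure (fun _ => measurable_const.or (Measurable.exists fun f =>
    Measurable.exists fun N => (measurable_Al hG f N).and measurable_const)) x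

lemma measurable_map {Y U : Type} [MeasurableSpace Y] [CommRing U] {A : Y → Type}
    [∀ y, CommRing (A y)] (φ : ∀ y, A y →+* U) (h : ∀ u, Measurable fun y => u ∈ Set.range (φ y))
    (p : U[X]) : Measurable fun y => p ∈ Set.range (mapRingHom (φ y)) := by
  have e : (fun y => p ∈ Set.range (mapRingHom (φ y))) = fun y =>
      ∀ n, p.coeff n ∈ Set.range (φ y) := by
    funext y
    exact propext (lifts_iff_coeff_lifts p)
  rw [e]
  exact Measurable.forall fun n => h _

lemma exists_code_aux {Y U : Type} [MeasurableSpace Y] [CommRing U] [Countable U] {A : Y → Type}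
    [∀ y, CommRing (A y)] (φ : ∀ y, A y →+* U) (hφ : ∀ y, Function.Injective (φ y))
    (h : ∀ u, Measurable fun y => u ∈ Set.range (φ y)) :
    ∃ f : Y → (MvPolynomial ℕ ℤ → Bool), Measurable f ∧ ∀ y, Nonempty (Pres (f y) ≃+* A y) := by
  classical
  obtain ⟨u, hu⟩ := exists_surjective_nat U
  have hex : ∀ y n, ∃ a : A y, φ y a = if u n ∈ Set.range (φ y) then u n else 0 := by
    intro y n
    split_ifs with hn
    · exact hn
    · exact ⟨0, map_zero _⟩
  choose w hw using hex
  let π : ∀ y, MvPolynomial ℕ ℤ →+* A y := fun y =>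
    MvPolynomial.eval₂Hom (Int.castRingHom _) (w y)
  have hsurj : ∀ y, Function.Surjective (π y) := by
    intro y a
    obtain ⟨n, hn⟩ := hu (φ y a)
    refine ⟨MvPolynomial.X n, hφ y ?_⟩
    simp only [π, MvPolynomial.eval₂Hom_X']
    rw [hw, hn, if_pos ⟨a, rfl⟩]
  let _ : MeasurableSpace U := ⊤
  have _ : DiscreteMeasurableSpace U := ⟨fun _ => trivial⟩
  have hm : ∀ g, Measurable fun y => φ y (π y g) := by
    intro g
    induction g using MvPolynomial.induction_on with
    | C a => simp [π]
    | add p q hp hq =>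
      simp only [map_add]
      exact (Measurable.of_discrete (f := fun p : U × U => p.1 + p.2)).comp (hp.prodMk hq)
    | mul_X p n hp =>
      have hn : Measurable fun y => φ y (π y (MvPolynomial.X n)) := by
        simp only [π, MvPolynomial.eval₂Hom_X', hw]
        exact Measurable.ite (measurableSet_setOfPred.2 (h _)) measurable_const measurable_const
      simp only [map_mul]
      exact (Measurable.of_discrete (f := fun p : U × U => p.1 * p.2)).comp (hp.prodMk hn)
  refine ⟨fun y g => decide (φ y (π y g) = 0), measurable_pi_lambda _ fun g =>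
    (Measurable.of_discrete (f := fun z : U => decide (z = 0))).comp (hm g), fun y => ?_⟩
  have e : Ideal.span {g | decide (φ y (π y g) = 0) = true} = RingHom.ker (π y) := by
    rw [← Ideal.span_eq (RingHom.ker (π y))]
    congr 1
    ext g
    simp [RingHom.mem_ker, map_eq_zero_iff _ (hφ y)]
  exact ⟨(Ideal.quotEquivOfEq e).trans (RingHom.quotientKerEquivOfSurjective (hsurj y))⟩

theorem exists_code {Y : Type} [MeasurableSpace Y] {G : Y → List ℕ → Prop}
    (hG : ∀ s, Measurable fun y => G y s) : ∃ f : Y → (MvPolynomial ℕ ℤ → Bool), Measurable f ∧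
      ∀ y, Nonempty (Pres (f y) ≃+* (kT (G y))[X][X][X] × ℤ) := by
  have h0 : ∀ u, Measurable fun y => u ∈ Set.range (kT (G y)).subtype := by
    intro u
    simpa using measurable_kT hG u
  have h3 := measurable_map _ (measurable_map _ (measurable_map _ h0))
  refine exists_code_aux (U := Om[X][X][X] × ℤ) (A := fun y => (kT (G y))[X][X][X] × ℤ)
    (fun y => RingHom.prodMap (mapRingHom (mapRingHom (mapRingHom (kT (G y)).subtype)))
      (RingHom.id ℤ)) (fun y => ?_) fun u => ?_
  · exact Function.Injective.prodMap (map_injective _ (map_injective _ (map_injective _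
      Subtype.val_injective))) Function.injective_id
  · convert h3 u.1 using 2 with y
    constructor
    · rintro ⟨a, rfl⟩
      exact ⟨a.1, rfl⟩
    · rintro ⟨a, ha⟩
      exact ⟨(a, u.2), Prod.ext ha rfl⟩

theorem exists_tree {Y : Type} [TopologicalSpace Y] [T3Space Y] {A : Set Y}
    (hA : AnalyticSet A) : ∃ G : Y → List ℕ → Prop, (∀ s, IsClosed {y | G y s}) ∧
      A = {y | Br (G y)} := by
  rw [AnalyticSet] at hA
  rcases hA with rfl | ⟨f, hf, rfl⟩
  · refine ⟨fun _ _ => False, fun _ => isClosed_empty, ?_⟩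
    ext x; simp [Br]
  refine ⟨fun x s => x ∈ closure (f '' {z | pre z s.length = s}), fun _ => isClosed_closure, ?_⟩
  ext x
  constructor
  · rintro ⟨y, rfl⟩
    exact ⟨y, fun N => subset_closure ⟨y, by simp [pre_length], rfl⟩⟩
  · rintro ⟨y, hy⟩
    refine ⟨y, (Specializes.eq ?_).symm⟩
    rw [specializes_iff_pure, (closed_nhds_basis (f y)).ge_iff]
    rintro C ⟨h1, h2⟩
    have h3 : f ⁻¹' C ∈ 𝓝 y := hf.continuousAt h1
    rw [nhds_pi, mem_pi'] at h3
    obtain ⟨I, t, ht, h4⟩ := h3
    refine closure_minimal ?_ h2 (hy (I.sup id + 1))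
    rintro _ ⟨z, hz, rfl⟩
    simp only [Set.mem_ofPred_eq, pre_length, pre_eq_iff] at hz
    refine h4 fun i hi => ?_
    have : i ≤ I.sup id := Finset.le_sup (f := id) hi
    rw [hz i (by omega)]
    exact mem_of_mem_nhds (ht i)

lemma reg_map_equiv {R S : Type} [CommRing R] [CommRing S] (e : R ≃+* S) {X : Ideal R}
    (hX : Reg X) : Reg (X.map e) := by
  obtain ⟨x, hx, hx'⟩ := hX
  refine ⟨e x, Ideal.mem_map_of_mem e hx, mem_nonZeroDivisors_iff_right.2 fun z hz => ?_⟩
  obtain ⟨z, rfl⟩ := e.surjective z
  rw [← map_mul, map_eq_zero_iff e e.injective] at hz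
  rw [mem_nonZeroDivisors_iff_right.1 hx' z hz, map_zero]

theorem hasDomainModel_of_equiv {R S : Type} [CommRing R] [CommRing S] [Nontrivial S] (e : R ≃+* S)
    (h : HasDomainModel.{0, v} S) : HasDomainModel.{0, v} R := by
  have := e.surjective.nontrivial
  refine RModel.hasDomainModel ⟨fun X => X.map e, reg_map_equiv e, fun {X Y} _ _ => ?_,
    fun _ _ => Ideal.map_mul e _ _, fun Z hZ => ⟨Z.map e.symm, reg_map_equiv e.symm hZ, ?_⟩⟩ h
  · rw [Ideal.map_le_iff_le_comap, Ideal.comap_map_of_bijective e e.bijective]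
  · exact Ideal.map_of_equiv e.symm

theorem kT_alg (T : List ℕ → Prop) : ∃ S : Finset (kT T),
    Algebra.IsAlgebraic (Subfield.closure (S : Set (kT T))) (kT T) := by
  classical
  let ψ : Q →+* kT T := (algebraMap Q Om).codRestrict (kT T) (toOm_mem T)
  refine ⟨{ψ (C X), ψ X}, ?_⟩
  set F := Subfield.closure (({ψ (C X), ψ X} : Finset (kT T)) : Set (kT T)) with hF
  have h1 : ψ (C X) ∈ F := Subfield.subset_closure (by simp)
  have h2 : ψ X ∈ F := Subfield.subset_closure (by simp)
  have h3 : ∀ g : ℚ[X], ψ (C g) ∈ F := by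
    intro g
    induction g using Polynomial.induction_on with
    | C q =>
      have : ψ (C (C q)) = (q : kT T) := eq_ratCast (ψ.comp (C.comp C)) q
      rw [this]
      exact SubfieldClass.ratCast_mem F q
    | add p q hp hq => rw [map_add, map_add]; exact add_mem hp hq
    | monomial n q hq => rw [pow_succ, ← mul_assoc, map_mul, map_mul]; exact mul_mem hq h1
  have h4 : ∀ f : Q, ψ f ∈ F := by
    intro f
    induction f using Polynomial.induction_on with
    | C g => exact h3 g
    | add p q hp hq => rw [map_add]; exact add_mem hp hq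
    | monomial n q hq => rw [pow_succ, ← mul_assoc, map_mul]; exact mul_mem hq h2
  let _ : Algebra Q (kT T) := ψ.toAlgebra
  let _ : Algebra Q F := (ψ.codRestrict F h4).toAlgebra
  have _ : IsScalarTower Q F (kT T) := IsScalarTower.of_algebraMap_eq fun _ => rfl
  have _ : IsScalarTower Q (kT T) Om := IsScalarTower.of_algebraMap_eq fun _ => rfl
  have h5 : Algebra.IsAlgebraic Q (kT T) :=
    Algebra.IsAlgebraic.of_injective (IsScalarTower.toAlgHom Q (kT T) Om) Subtype.val_injective
  have h6 : Function.Injective (algebraMap Q F) := fun a b hab =>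
    toOm_injective (congrArg (fun z : F => (z.1 : Om)) hab)
  exact Algebra.IsAlgebraic.extendScalars h6

end Pool.Agent.MP_f1fec5_al.Sig

end

-- part MP_f1fec5_al.Sig.Main
section

namespace Pool.Agent.MP_f1fec5_al.Sig

open Polynomial MeasureTheory Filter Topology

universe v

theorem model_iff (T : List ℕ → Prop) : HasDomainModel.{0, v} ((kT T)[X][X][X] × ℤ) ↔ Br T := by
  refine ⟨fun h => by_contra fun hb => ?_, fun h => (model_of_Br h).ulift⟩
  obtain ⟨S, hS⟩ := kT_alg T
  obtain ⟨w, x, hx, hw⟩ := nec S hS h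
  exact hw (kill hb w x hx)

theorem hard {Y : Type} [TopologicalSpace Y] [PolishSpace Y] [MeasurableSpace Y] [BorelSpace Y]
    {A : Set Y} (hA : AnalyticSet A) : ∃ f : Y → (MvPolynomial ℕ ℤ → Bool), Measurable f ∧
      (∀ y, ∃ (k : Type) (_ : Field k), Nonempty (Pres (f y) ≃+* k[X][X][X] × ℤ)) ∧
        A = f ⁻¹' {c | HasDomainModel.{0, v} (Pres c)} := by
  obtain ⟨G, hG, rfl⟩ := exists_tree hA
  obtain ⟨f, hf, he⟩ := exists_code (G := G) fun s => measurableSet_setOfPred.1 (hG s).measurableSet
  refine ⟨f, hf, fun y => ⟨kT (G y), inferInstance, he y⟩, Set.ext fun y => ?_⟩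
  obtain ⟨e⟩ := he y
  have := e.surjective.nontrivial
  exact (model_iff.{v} (G y)).symm.trans
    ⟨hasDomainModel_of_equiv e, hasDomainModel_of_equiv e.symm⟩

/-- the tree of a diagonal argument -/
def good (x : ℕ → Bool) (s : List ℕ) : Prop :=
  x (Encodable.encode (s, pre x s.length)) = true

theorem not_measurable_Br : ¬ MeasurableSet {x | Br (good x)} := by
  classical
  intro h
  have : PolishSpace (ℕ → Bool) := { }
  have h1 := h.compl.analyticSet
  rw [AnalyticSet] at h1
  rcases h1 with h1 | ⟨f, hf, h1⟩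
  · have : (fun _ => false) ∈ {x | Br (good x)}ᶜ := by
      rintro ⟨y, hy⟩
      cases hy 0
    rw [h1] at this; exact this
  let e : ℕ → Bool := fun n => decide (∃ (s : List ℕ) (t : List Bool),
    Encodable.encode (s, t) = n ∧ ∃ y, pre y s.length = s ∧ pre (f y) s.length = t)
  have he : ∀ s, good e s ↔ ∃ y, pre y s.length = s ∧ pre (f y) s.length = pre e s.length := by
    intro s
    simp only [good, e, decide_eq_true_eq]
    constructor
    · rintro ⟨s', t, h2, h3⟩
      obtain ⟨rfl, rfl⟩ := Prod.mk.inj (Encodable.encode_injective h2)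
      exact h3
    · exact fun h => ⟨s, _, rfl, h⟩
  by_cases hb : Br (good e)
  · obtain ⟨y, hy⟩ := id hb
    choose z hz1 hz2 using fun N => (he _).1 (hy N)
    simp only [pre_length, pre_eq_iff] at hz1 hz2
    have t1 : Tendsto z atTop (𝓝 y) := tendsto_pi_nhds.2 fun i =>
      tendsto_const_nhds.congr' (eventually_atTop.2 ⟨i + 1, fun N hN => (hz1 N i hN).symm⟩)
    have t2 : Tendsto (fun N => f (z N)) atTop (𝓝 e) := tendsto_pi_nhds.2 fun i =>
      tendsto_const_nhds.congr' (eventually_atTop.2 ⟨i + 1, fun N hN => (hz2 N i hN).symm⟩)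
    have : e ∈ {x | Br (good x)}ᶜ := by
      rw [← h1]; exact ⟨y, tendsto_nhds_unique ((hf.tendsto y).comp t1) t2⟩
    exact this hb
  · have : e ∈ Set.range f := by rw [h1]; exact hb
    obtain ⟨y, hy⟩ := this
    exact hb ⟨y, fun N => (he _).2 ⟨y, by rw [pre_length], by rw [hy]⟩⟩

theorem measurable_good (s : List ℕ) : Measurable fun x => good x s := by
  have e : (fun x => good x s) = fun x => ∃ t : List Bool, t.length = s.length ∧
      (∀ i, i < s.length → x i = t.getD i false) ∧ x (Encodable.encode (s, t)) = true := by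
    funext x
    refine propext ⟨fun h => ⟨_, pre_length _ _, fun i hi => by simp [pre, hi], h⟩, ?_⟩
    rintro ⟨t, h1, h2, h3⟩
    have : pre x s.length = t := List.ext_getElem (by rw [pre_length, h1]) fun i k1 k2 => by
      simp [pre, h2 i (h1 ▸ k2), k2]
    rw [good, this, h3]
  have k : ∀ (i : ℕ) (c : Bool), Measurable fun x : ℕ → Bool => x i = c := fun i c =>
    (Measurable.of_discrete (f := fun z : Bool => z = c)).comp (measurable_pi_apply i)
  rw [e]
  exact Measurable.exists fun t => measurable_const.and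
    ((Measurable.forall fun i => measurable_const.imp (k _ _)).and (k _ _))

/-- The set of codes of rings with a domain model is not Borel. -/
theorem not_measurableSet_H : ¬ MeasurableSet {c | HasDomainModel.{0, v} (Pres c)} := by
  intro hH
  obtain ⟨f, hf, he⟩ := exists_code measurable_good
  refine not_measurable_Br ?_
  convert hf hH using 1
  ext y
  obtain ⟨e⟩ := he y
  have := e.surjective.nontrivial
  exact (model_iff.{v} (good y)).symm.trans
    ⟨hasDomainModel_of_equiv e, hasDomainModel_of_equiv e.symm⟩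

end Pool.Agent.MP_f1fec5_al.Sig

end
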